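import Pool.Agent.P.MP_e72dc0_lc.Hess

/-! The lower bound for the number of additions. -/

namespace Pool.Agent.P.MP_e72dc0_lc

open Finset MvPolynomial

variable {F : Type*} [Field F]

lemma mmH_sum {K : Type*} [Field K] {I J κ ι : Type*} [DecidableEq κ] (S : Finset ι) (c : ι → K)
    (Z : ι → I → J → K) (x y : (I × κ) ⊕ (κ × J)) :
    ∑ z ∈ S, c z * mmH (Z z) x y = mmH (fun i j => ∑ z ∈ S, c z * Z z i j) x y := by
  rcases x with ⟨i₁, k₁⟩ | ⟨k₁, j₁⟩ <;> rcases y with ⟨i₂, k₂⟩ | ⟨k₂, j₂⟩
  · simp [mmH]
  · simp only [mmH]; split_ifs <;> simp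
  · simp only [mmH]; split_ifs <;> simp
  · simp [mmH]

/-- the block embedding -/
def blk {r q m : ℕ} (h : r * q ≤ m) (b : Fin r × Fin q) : Fin m :=
  Fin.castLE h (finProdFinEquiv b)

lemma blk_inj {r q m : ℕ} (h : r * q ≤ m) : Function.Injective (blk h) :=
  (Fin.castLE_injective h).comp finProdFinEquiv.injective

theorem add_core {K : Type*} [Field K] {m p r : ℕ} (e : Fin (r + 1) × Fin (p + 1) → Fin m)
    (he : Function.Injective e) {A : Type*} [Fintype A]
    (y : A → (Fin m × Fin m) ⊕ (Fin m × Fin m) → K)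
    (G : Fin m → Fin m → (Fin m × Fin m) ⊕ (Fin m × Fin m) → K)
    (h : ∀ i j, ∃ (w : A → K) (γ : K) (d : (Fin m × Fin m) ⊕ (Fin m × Fin m) → K), ∀ a b,
      mmH (fun i' j' => if i' = i ∧ j' = j then 1 else 0) a b
        = ∑ t, w t * (y t a * y t b) + γ * (G i j a * G i j b) + if a = b then d a else 0) :
    (2 * r + 1) * m * (2 * p + 1) ≤ Fintype.card A + 2 * (r + 1) * (p + 1) ^ 2 := by
  classical
  choose w γ d hw using h
  let B := Fin (r + 1) × Fin (p + 1)
  let S : Finset (B × B) :=
    univ.filter (fun z => z.1.1.val = z.2.1.val ∨ z.1.1.val = z.2.1.val + 1)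
  let pat : ℕ → B × B → K := fun l z => if z.1.2.val + z.2.2.val = l then 1 else 0
  let V₁ := ((Fin r × Fin (p + 1)) × Fin m) ⊕ (Fin m × B)
  let ε : V₁ → (Fin m × Fin m) ⊕ (Fin m × Fin m) := fun v => match v with
    | Sum.inl ((s, a), k) => Sum.inl (e (s.succ, a), k)
    | Sum.inr (k, b) => Sum.inr (k, e b)
  let Z : ℕ → Fin m → Fin m → K := fun l i j =>
    ∑ z ∈ S, pat l z * (if i = e z.1 ∧ j = e z.2 then 1 else 0)
  have hZ : ∀ l b b', Z l (e b) (e b') = if (b, b') ∈ S then pat l (b, b') else 0 := by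
    intro l b b'
    simp only [Z, he.eq_iff]
    split_ifs with hS
    · rw [Finset.sum_eq_single (b, b')]
      · simp
      · intro z _ hz
        have : ¬ (b = z.1 ∧ b' = z.2) := fun h => hz (Prod.ext h.1.symm h.2.symm)
        simp [this]
      · intro h; exact absurd hS h
    · apply Finset.sum_eq_zero
      intro z hz
      have : ¬ (b = z.1 ∧ b' = z.2) := fun h => hS (by rw [h.1, h.2]; exact hz)
      simp [this]
  let D : ℕ → (Fin m × Fin m) ⊕ (Fin m × Fin m) → K := fun l x =>
    ∑ z ∈ S, pat l z * d (e z.1) (e z.2) x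
  let Q : ℕ → (Fin m × Fin m) ⊕ (Fin m × Fin m) → V₁ → K := fun l x v =>
    mmH (Z l) x (ε v) - if x = ε v then D l x else 0
  have hinj : KInj p Q := by
    apply kinj_of_layers p Q (fun v => match v with
      | Sum.inl ((s, _), _) => 2 * s.val + 2
      | Sum.inr (_, (s, _)) => 2 * s.val + 1)
    rintro (⟨⟨s, a₀⟩, k⟩ | ⟨k, ⟨s, b₀⟩⟩)
    · refine ⟨fun a => Sum.inl ((s, a), k), fun b => Sum.inr (k, e (s.castSucc, b)), ?_,
        ⟨a₀, rfl⟩, ?_, ?_⟩
      · intro a a' h
        exact congrArg (fun x => x.1.2) (Sum.inl.inj h)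
      · intro l b a
        simp only [Q, ε, mmH, hZ, if_true, reduceCtorEq, if_false, sub_zero]
        have : ((s.succ, a), (s.castSucc, b)) ∈ S := by simp [S]
        rw [if_pos this]
      · rintro l b (⟨⟨s', a'⟩, k'⟩ | ⟨k', ⟨s', b'⟩⟩) hy
        · simp only [Q, ε, mmH, hZ, reduceCtorEq, if_false, sub_zero]
          by_cases hk : k' = k
          · by_cases hS : ((s'.succ, a'), (s.castSucc, b)) ∈ S
            · right
              simp only [S, mem_filter, mem_univ, true_and, Fin.val_succ, Fin.val_castSucc] at hS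
              rcases hS with hS | hS
              · omega
              · exfalso
                apply hy a'
                have : s' = s := Fin.ext (by omega)
                rw [this, hk]
            · left; simp [hS]
          · left; simp [hk]
        · simp only [Q, ε, mmH, zero_sub, neg_eq_zero, Sum.inr.injEq, Prod.mk.injEq, he.eq_iff]
          by_cases hs : s.castSucc = s'
          · right
            have : s'.val = s.val := by rw [← hs]; simp
            omega
          · left; simp [hs]
    · refine ⟨fun b => Sum.inr (k, (s, b)), fun a => Sum.inl (e (s, a), k), ?_,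
        ⟨b₀, rfl⟩, ?_, ?_⟩
      · intro a a' h
        exact congrArg (fun x => x.2.2) (Sum.inr.inj h)
      · intro l a b
        simp only [Q, ε, mmH, hZ, if_true, reduceCtorEq, if_false, sub_zero]
        have : ((s, a), (s, b)) ∈ S := by simp [S]
        rw [if_pos this]
        simp only [pat, add_comm]
      · rintro l a (⟨⟨s', a'⟩, k'⟩ | ⟨k', ⟨s', b'⟩⟩) hy
        · simp only [Q, ε, mmH, zero_sub, neg_eq_zero, Sum.inl.injEq, Prod.mk.injEq, he.eq_iff]
          by_cases hs : s = s'.succ
          · right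
            have : s.val = s'.val + 1 := by rw [hs]; simp
            omega
          · left; simp [hs]
        · simp only [Q, ε, mmH, hZ, reduceCtorEq, if_false, sub_zero]
          by_cases hk : k = k'
          · by_cases hS : ((s, a), (s', b')) ∈ S
            · right
              simp only [S, mem_filter, mem_univ, true_and] at hS
              rcases hS with hS | hS
              · exfalso
                apply hy b'
                have : s' = s := Fin.ext (by omega)
                rw [this, hk]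
              · omega
            · left; simp [hS]
          · left; simp [hk]
  let W : A ⊕ S → ℕ → K := fun t l => match t with
    | Sum.inl t => ∑ z ∈ S, pat l z * w (e z.1) (e z.2) t
    | Sum.inr z => pat l z.1 * γ (e z.1.1) (e z.1.2)
  let Y : A ⊕ S → (Fin m × Fin m) ⊕ (Fin m × Fin m) → K := fun t => match t with
    | Sum.inl t => y t
    | Sum.inr z => G (e z.1.1) (e z.1.2)
  have hb := koszul_bound p Q W Y (fun t v => Y t (ε v)) ?_ hinj
  · have c1 : Fintype.card V₁ = (2 * r + 1) * (p + 1) * m := by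
      simp only [V₁, B, Fintype.card_sum, Fintype.card_prod, Fintype.card_fin]; ring
    have c2 : S.card ≤ 2 * (r + 1) * (p + 1) ^ 2 := by
      have : Fintype.card (Bool × Fin (r + 1) × Fin (p + 1) × Fin (p + 1))
          = 2 * (r + 1) * (p + 1) ^ 2 := by
        simp only [Fintype.card_prod, Fintype.card_fin, Fintype.card_bool]; ring
      rw [← this, ← Finset.card_univ]
      apply Finset.card_le_card_of_injOn
        (fun z => (decide (z.1.1.val = z.2.1.val), z.2.1, z.1.2, z.2.2))
      · intro z _; simp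
      · rintro ⟨⟨s₁, a₁⟩, ⟨t₁, b₁⟩⟩ h₁ ⟨⟨s₂, a₂⟩, ⟨t₂, b₂⟩⟩ h₂ h
        simp only [S, coe_filter, mem_univ, true_and, Set.mem_ofPred_eq] at h₁ h₂
        simp only [Prod.mk.injEq, decide_eq_decide] at h
        obtain ⟨h3, h4, h5, h6⟩ := h
        subst h4 h5 h6
        have : s₁ = s₂ := Fin.ext (by omega)
        rw [this]
    rw [c1, Fintype.card_sum, Fintype.card_coe] at hb
    have hb2 : (2 * r + 1) * m * (2 * p + 1) * (p + 1) ≤ (Fintype.card A + S.card) * (p + 1) := by
      calc (2 * r + 1) * m * (2 * p + 1) * (p + 1) = (2 * r + 1) * (p + 1) * m * (2 * p + 1) := by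
            ring
        _ ≤ _ := hb
    have := Nat.le_of_mul_le_mul_right hb2 (Nat.succ_pos p)
    omega
  · intro l _ x v
    simp only [Q, Z, ← mmH_sum, hw, Fintype.sum_sum_type, W, Y, D]
    rw [Finset.sum_coe_sort S (fun z => pat l z * γ (e z.1) (e z.2)
      * (G (e z.1) (e z.2) x * G (e z.1) (e z.2) (ε v)))]
    simp only [mul_add, Finset.sum_add_distrib, Finset.mul_sum, Finset.sum_mul]
    rw [Finset.sum_comm (s := S) (t := univ)]
    split_ifs
    · simp only [mul_assoc]; ring
    · simp only [mul_assoc, mul_zero, Finset.sum_const_zero]; ring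

theorem add_nat {m s : ℕ} (g : Fin s → MvPolynomial ((Fin m × Fin m) ⊕ (Fin m × Fin m)) F)
    (A : Finset (Fin s))
    (hg : ∀ t, ∃ u ∈ Set.range X ∪ Set.range C ∪ g '' Set.Iio t,
      ∃ v ∈ Set.range X ∪ Set.range C ∪ g '' Set.Iio t,
        g t = u * v ∨ (t ∈ A ∧ g t = u + v))
    (hout : ∀ i j, cc F i j ∈ Set.range X ∪ Set.range C ∪ Set.range g)
    (p r : ℕ) (hm : (r + 1) * (p + 1) ≤ m) :
    (2 * r + 1) * m * (2 * p + 1) ≤ A.card + 2 * (r + 1) * (p + 1) ^ 2 := by
  classical
  obtain ⟨y, hy⟩ := lhess_span g A hg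
  have := add_core (blk hm) (blk_inj hm) y (fun i j => grad (cc F i j)) ?_
  · rwa [Fintype.card_coe] at this
  · intro i j
    obtain ⟨w, d, h⟩ := hy _ (hout i j)
    have hc : emb (cc F i j) ≠ 0 := fun h => cc_ne_zero i j (emb_eq_zero.mp h)
    refine ⟨fun t => w t / emb (cc F i j), 1 / emb (cc F i j), fun a => d a / emb (cc F i j),
      fun a b => ?_⟩
    rw [← hess_cc]
    have h1 := h a b
    unfold lhess at h1
    have h2 : ∑ t, w t / emb (cc F i j) * (y t a * y t b)
        = (∑ t, w t * (y t a * y t b)) / emb (cc F i j) := by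
      rw [Finset.sum_div]; apply Finset.sum_congr rfl; intro t _; ring
    rw [h2]
    generalize ∑ t, w t * (y t a * y t b) = σ at h1 ⊢
    split_ifs at h1 ⊢
    · field_simp; linear_combination h1
    · field_simp; linear_combination h1

end Pool.Agent.P.MP_e72dc0_lc
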