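import Pool.Agent.P.MP_e72dc0_lc.RkE

/-! Rank methods, part F: choice of parameters and passage to matrices. -/

open Module Submodule

namespace Pool.Agent.P.MP_e72dc0_lc.Rk

lemma numeric (R μ S ρ₀ ρ : ℕ) (hρ : ρ₀ ≤ ρ) (hμ : μ ≤ S)
    (h : R + μ * ρ₀ ≤ (S + 2) * ρ₀ + 6 * ((Nat.sqrt (S / 3) + 1) * ρ₀) +
      (2 * S + 3) * (ρ₀ / (Nat.sqrt (S / 3) + 1))) :
    (R : ℝ) ≤ ((S : ℝ) - μ + 4 * Real.sqrt (3 * S) + 11) * ρ := by
  set k := Nat.sqrt (S / 3) with hk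
  set d := ρ₀ / (k + 1) with hd
  set s := Real.sqrt (3 * S) with hs
  have s0 : 0 ≤ s := Real.sqrt_nonneg _
  have s2 : s * s = 3 * S := Real.mul_self_sqrt (by positivity)
  have k1 : k * k ≤ S / 3 := Nat.sqrt_le _
  have k2 : S / 3 < (k + 1) * (k + 1) := Nat.lt_succ_sqrt _
  have k1' : (3 * k : ℝ) ≤ s := by
    have : 3 * (k * k) ≤ S := by omega
    have : (3 : ℝ) * (k * k) ≤ S := by exact_mod_cast this
    apply Real.le_sqrt_of_sq_le
    nlinarith
  have k2' : s ≤ 3 * (k + 1 : ℝ) := by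
    have : S ≤ 3 * ((k + 1) * (k + 1)) := by omega
    have : (S : ℝ) ≤ 3 * ((k + 1) * (k + 1)) := by exact_mod_cast this
    apply Real.sqrt_le_iff.2 ⟨by positivity, ?_⟩
    nlinarith
  have d1 : (d : ℝ) * (k + 1) ≤ ρ₀ := by exact_mod_cast Nat.div_mul_le_self ρ₀ (k + 1)
  have d0 : (0 : ℝ) ≤ d := Nat.cast_nonneg _
  have k0 : (0 : ℝ) ≤ k := Nat.cast_nonneg _
  have r0 : (0 : ℝ) ≤ ρ₀ := Nat.cast_nonneg _
  have h' : (R : ℝ) + μ * ρ₀ ≤ (S + 2) * ρ₀ + 6 * ((k + 1) * ρ₀) + (2 * S + 3) * d := by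
    exact_mod_cast h
  have e1 : (d : ℝ) ≤ ρ₀ := by nlinarith
  have e2 : s * d ≤ 3 * ρ₀ := by nlinarith
  have e3 : (S : ℝ) * d ≤ s * ρ₀ := by nlinarith
  have e4 : (3 * k : ℝ) * ρ₀ ≤ s * ρ₀ := mul_le_mul_of_nonneg_right k1' r0
  have hμ' : (μ : ℝ) ≤ S := by exact_mod_cast hμ
  have hρ' : (ρ₀ : ℝ) ≤ ρ := by exact_mod_cast hρ
  calc (R : ℝ) ≤ ((S : ℝ) - μ + 4 * s + 11) * ρ₀ := by nlinarith
    _ ≤ _ := mul_le_mul_of_nonneg_left hρ' (by linarith)

variable {F : Type*} [Field F]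

/-- The rank one tensor of three vectors, as a trilinear map. -/
def outer (I J K : Type*) : (I → F) →ₗ[F] (J → F) →ₗ[F] (K → F) →ₗ[F] (I → J → K → F) :=
  LinearMap.mk₂ F
    (fun x y =>
      { toFun := fun z i j k => x i * y j * z k
        map_add' := fun _ _ => by ext; simp [mul_add]
        map_smul' := fun _ _ => by ext; simp; ring })
    (fun _ _ _ => by ext; simp [add_mul]) (fun _ _ _ => by ext; simp [mul_assoc])
    (fun _ _ _ => by ext; simp [add_mul, mul_add]) (fun _ _ _ => by ext; simp; ring)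

lemma mem_span_outer {I J K : Type*} [Fintype I] [Fintype J] [Fintype K] (T : I → J → K → F) :
    T ∈ span F {L | ∃ x y z, outer I J K x y z = L} := by
  classical
  have : T = ∑ i, ∑ j, outer I J K (Pi.single i 1) (Pi.single j 1) (T i j) := by
    ext i j k
    simp [outer, Finset.sum_apply, Pi.single_apply]
  rw [this]
  exact sum_mem fun i _ => sum_mem fun j _ => subset_span ⟨_, _, _, rfl⟩

theorem barrier [Infinite F] {I J K P Q : Type} [Fintype I] [Fintype J] [Fintype K] [Fintype P]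
    [Fintype Q] (φ : (I → J → K → F) →ₗ[F] Matrix P Q F) (ρ : ℕ)
    (hρ : ∀ (x : I → F) (y : J → F) (z : K → F), (φ fun i j k => x i * y j * z k).rank ≤ ρ)
    (T : I → J → K → F) (a b c : ℕ) (ha : Fintype.card I = a) (hb : Fintype.card J = b)
    (hc : Fintype.card K = c) :
    ((φ T).rank : ℝ) ≤
      ((a + b + c : ℕ) - (min a (min b c) : ℕ) + 4 * Real.sqrt (3 * (a + b + c : ℕ)) + 11) * ρ := by
  classical
  let L : (I → J → K → F) →ₗ[F] (Q → F) →ₗ[F] (P → F) := Matrix.toLin'.toLinearMap ∘ₗ φ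
  let M := post (outer I J K) L
  let f : (I → F) × (J → F) × (K → F) → ℕ :=
    fun w => finrank F (LinearMap.range (M w.1 w.2.1 w.2.2))
  have hf : ∀ w, f w ≤ ρ := fun w => hρ w.1 w.2.1 w.2.2
  obtain ⟨w, -, hw⟩ := Set.Finite.exists_maximalFor' f Set.univ
    ((Set.finite_le_nat ρ).subset (by rintro _ ⟨x, -, rfl⟩; exact hf x)) Set.univ_nonempty
  have hmax : ∀ v, f v ≤ f w := by
    intro v
    rcases le_total (f v) (f w) with h | h
    · exact h
    · exact hw (Set.mem_univ v) h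
  have key := two_side M w.1 w.2.1 w.2.2 (fun x y z => hmax (x, y, z)) (L T)
    (span_post _ L T (mem_span_outer T)) (Nat.sqrt ((a + b + c) / 3)) (min a (min b c)) (f w) rfl
    (by simp [ha]) (by simp [hb]) (by simp [hc])
  simp only [Module.finrank_fintype_fun_eq_card, ha, hb, hc] at key
  exact numeric _ _ _ _ _ (hf w) (by omega) key

end Pool.Agent.P.MP_e72dc0_lc.Rk
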