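import Pool.Agent.P.MP_e72dc0_lc.BdDefs
import Pool.Agent.P.MP_e72dc0_lc.RkF

/-! Images and degenerations of tensors. -/

open Matrix Filter Topology

namespace Pool.Agent.P.MP_e72dc0_lc.Bd

variable {I J K I' J' K' I'' J'' K'' : Type}
variable [Fintype I] [Fintype J] [Fintype K]

/-- `res` as a linear map. -/
def resL (α : Matrix I' I ℂ) (β : Matrix J' J ℂ) (γ : Matrix K' K ℂ) :
    (I → J → K → ℂ) →ₗ[ℂ] (I' → J' → K' → ℂ) where
  toFun := res α β γ
  map_add' S T := by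
    ext i j k
    simp [res, mul_add, Finset.sum_add_distrib]
  map_smul' c T := by
    ext i j k
    simp [res, Finset.mul_sum, mul_left_comm]

lemma res_outer (α : Matrix I' I ℂ) (β : Matrix J' J ℂ) (γ : Matrix K' K ℂ) (x : I → ℂ)
    (y : J → ℂ) (z : K → ℂ) :
    res α β γ (fun i j k => x i * y j * z k) =
      fun i j k => (α *ᵥ x) i * (β *ᵥ y) j * (γ *ᵥ z) k := by
  ext i j k
  simp only [res, Matrix.mulVec, dotProduct]
  rw [mul_assoc, Finset.sum_mul_sum, Finset.sum_mul]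
  refine Finset.sum_congr rfl fun a _ => ?_
  rw [Finset.mul_sum]
  refine Finset.sum_congr rfl fun b _ => ?_
  rw [Finset.mul_sum]
  refine Finset.sum_congr rfl fun c _ => ?_
  ring

lemma ext_outer {X : Type} [AddCommGroup X] [Module ℂ X] (f g : (I → J → K → ℂ) →ₗ[ℂ] X)
    (h : ∀ (x : I → ℂ) (y : J → ℂ) (z : K → ℂ),
      f (fun i j k => x i * y j * z k) = g fun i j k => x i * y j * z k) (T : I → J → K → ℂ) :
    f T = g T := by
  have hT := Rk.mem_span_outer (F := ℂ) T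
  induction hT using Submodule.span_induction with
  | mem _ hx =>
    obtain ⟨x, y, z, rfl⟩ := hx
    exact h x y z
  | zero => simp
  | add _ _ _ _ h1 h2 => simp [h1, h2]
  | smul _ _ _ h1 => simp [h1]

lemma res_res [Fintype I'] [Fintype J'] [Fintype K'] (α' : Matrix I'' I' ℂ) (β' : Matrix J'' J' ℂ)
    (γ' : Matrix K'' K' ℂ) (α : Matrix I' I ℂ) (β : Matrix J' J ℂ) (γ : Matrix K' K ℂ)
    (T : I → J → K → ℂ) :
    res α' β' γ' (res α β γ T) = res (α' * α) (β' * β) (γ' * γ) T :=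
  ext_outer (resL α' β' γ' ∘ₗ resL α β γ) (resL (α' * α) (β' * β) (γ' * γ)) (fun x y z => by
    change res α' β' γ' (res α β γ _) = res _ _ _ _
    simp only [res_outer, Matrix.mulVec_mulVec]) T

lemma res_first [DecidableEq J] [DecidableEq K] (q : Matrix I' I ℂ) (T : I → J → K → ℂ) :
    res q (1 : Matrix J J ℂ) (1 : Matrix K K ℂ) T = fun i j k => ∑ l, q i l * T l j k := by
  ext i j k
  simp [res, Matrix.one_apply]

lemma continuous_res {X : Type*} [TopologicalSpace X] {α : X → Matrix I' I ℂ}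
    (β : Matrix J' J ℂ) (γ : Matrix K' K ℂ) {T : X → I → J → K → ℂ}
    (hα : ∀ i' i, Continuous fun x => α x i' i) (hT : Continuous T) :
    Continuous fun x => res (α x) β γ (T x) := by
  unfold res
  fun_prop

lemma Deg.trans [Fintype I'] [Fintype J'] [Fintype K'] {T : I → J → K → ℂ}
    {T' : I' → J' → K' → ℂ} {T'' : I'' → J'' → K'' → ℂ} (h : Deg T T') (h' : Deg T' T'') :
    Deg T T'' := by
  refine closure_minimal ?_ isClosed_closure h'
  rintro _ ⟨α, β, γ, rfl⟩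
  refine map_mem_closure (f := res α β γ)
    (continuous_res (α := fun _ => α) β γ (fun _ _ => continuous_const) continuous_id) h ?_
  rintro _ ⟨α', β', γ', rfl⟩
  exact ⟨_, _, _, res_res ..⟩

lemma deg_res (α : Matrix I' I ℂ) (β : Matrix J' J ℂ) (γ : Matrix K' K ℂ) (T : I → J → K → ℂ) :
    Deg T (res α β γ T) := subset_closure ⟨α, β, γ, rfl⟩

lemma Deg.rot {T : I → J → K → ℂ} {T' : I' → J' → K' → ℂ} (h : Deg T T') :
    Deg (fun j k i => T i j k) (fun j k i => T' i j k) := by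
  refine map_mem_closure (f := fun (S : I' → J' → K' → ℂ) j k i => S i j k) (by fun_prop) h ?_
  rintro _ ⟨α, β, γ, rfl⟩
  refine ⟨β, γ, α, ?_⟩
  ext j k i
  simp only [res]
  rw [Finset.sum_comm]
  refine Finset.sum_congr rfl fun b _ => ?_
  rw [Finset.sum_comm]
  refine Finset.sum_congr rfl fun c _ => Finset.sum_congr rfl fun a _ => ?_
  ring

lemma Deg.eq_zero {T' : I' → J' → K' → ℂ} (h : Deg (0 : I → J → K → ℂ) T') : T' = 0 := by
  have : T' ∈ closure ({0} : Set (I' → J' → K' → ℂ)) := by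
    refine closure_mono ?_ h
    rintro _ ⟨α, β, γ, rfl⟩
    exact (resL α β γ).map_zero
  simpa using this

lemma isClosed_rank_le {P Q : Type} [Fintype P] [Fintype Q] (N : ℕ) :
    IsClosed {A : Matrix P Q ℂ | A.rank ≤ N} := by
  classical
  let f : Matrix P Q ℂ →ₗ[ℂ] ((Q → ℂ) →L[ℂ] (P → ℂ)) :=
    LinearMap.toContinuousLinearMap.toLinearMap ∘ₗ Matrix.toLin'.toLinearMap
  have h := (isOpen_setOfPred_nat_le_rank (𝕜 := ℂ) (E := Q → ℂ) (F := P → ℂ) (N + 1)).preimage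
    f.continuous_of_finiteDimensional
  rw [← isOpen_compl_iff]
  convert h using 1
  ext A
  change ¬A.rank ≤ N ↔ ((N + 1 : ℕ) : Cardinal) ≤ Module.rank ℂ (LinearMap.range A.mulVecLin)
  rw [← Module.finrank_eq_rank, Nat.cast_le, not_le]
  rfl

lemma Deg.rank_le [Fintype I'] [Fintype J'] [Fintype K'] {P Q : Type} [Fintype P] [Fintype Q]
    {T : I → J → K → ℂ} {T' : I' → J' → K' → ℂ} (h : Deg T T')
    (φ : (I' → J' → K' → ℂ) →ₗ[ℂ] Matrix P Q ℂ) (N : ℕ)
    (hN : ∀ α β γ, (φ (res α β γ T)).rank ≤ N) : (φ T').rank ≤ N := by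
  refine closure_minimal (t := φ ⁻¹' {A | A.rank ≤ N}) ?_
    ((isClosed_rank_le N).preimage φ.continuous_of_finiteDimensional) h
  rintro _ ⟨α, β, γ, rfl⟩
  exact hN α β γ

/-- One slice of the source is removed at the price of one vector of the target. -/
lemma Deg.kill [Fintype I'] [Fintype J'] [Fintype K'] {M M' : I → J → K → ℂ} (m : I → ℂ)
    (N : J → K → ℂ) (hM : ∀ i j k, M i j k = M' i j k + m i * N j k) {T : I' → J' → K' → ℂ}
    (h : Deg M T) (i₁ : I') :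
    ∃ t : I' → ℂ, t ≠ 0 ∧ ∀ q : Matrix I' I' ℂ, q *ᵥ t = 0 →
      Deg M' fun i j k => ∑ l, q i l * T l j k := by
  classical
  obtain ⟨S, hS, hlim⟩ := mem_closure_iff_seq_limit.1 h
  choose α β γ hS using hS
  have ex : ∀ n, ∃ t : I' → ℂ, t ∈ Metric.sphere (0 : I' → ℂ) 1 ∧ ∃ c : ℂ, α n *ᵥ m = c • t := by
    intro n
    by_cases h0 : α n *ᵥ m = 0
    · exact ⟨Pi.single i₁ 1, by simp [Pi.norm_single], 0, by simp [h0]⟩
    · have hn : (‖α n *ᵥ m‖ : ℂ) ≠ 0 := by simpa using h0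
      refine ⟨(‖α n *ᵥ m‖ : ℂ)⁻¹ • α n *ᵥ m, ?_, ‖α n *ᵥ m‖, by rw [smul_inv_smul₀ hn]⟩
      simp [norm_smul, h0]
  choose t ht c hc using ex
  obtain ⟨t₀, ht₀, ψ, hψ, htl⟩ := (isCompact_sphere (0 : I' → ℂ) 1).tendsto_subseq ht
  have hne : t₀ ≠ 0 := by
    rintro rfl
    simp at ht₀
  refine ⟨t₀, hne, fun q hq => ?_⟩
  obtain ⟨i₀, hi₀⟩ := Function.ne_iff.1 hne
  have hi₀' : t₀ i₀ ≠ 0 := hi₀
  let Q : (I' → ℂ) → Matrix I' I' ℂ := fun s i l =>
    q i l - (q *ᵥ s) i * (if l = i₀ then (s i₀)⁻¹ else 0)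
  have hQ : ∀ s : I' → ℂ, s i₀ ≠ 0 → Q s *ᵥ s = 0 := by
    intro s hs
    ext i
    simp [Q, Matrix.mulVec, dotProduct, sub_mul, Finset.sum_sub_distrib, hs]
  have h0 : Tendsto (fun n => t (ψ n) i₀) atTop (𝓝 (t₀ i₀)) := tendsto_pi_nhds.1 htl i₀
  have hQl : ∀ i l, Tendsto (fun n => Q (t (ψ n)) i l) atTop (𝓝 (q i l)) := by
    intro i l
    have h1 : Tendsto (fun n => (q *ᵥ t (ψ n)) i) atTop (𝓝 ((q *ᵥ t₀) i)) :=
      ((by fun_prop : Continuous fun s : I' → ℂ => (q *ᵥ s) i).tendsto t₀).comp htl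
    have h2 : Tendsto (fun n => if l = i₀ then (t (ψ n) i₀)⁻¹ else 0) atTop
        (𝓝 (if l = i₀ then (t₀ i₀)⁻¹ else 0)) := by
      split_ifs
      · exact h0.inv₀ hi₀'
      · exact tendsto_const_nhds
    simpa [hq, Q] using (h1.mul h2).const_sub (q i l)
  have hSl : Tendsto (fun n => S (ψ n)) atTop (𝓝 T) := hlim.comp hψ.tendsto_atTop
  refine mem_closure_of_tendsto (b := atTop)
    (f := fun n i j k => ∑ l, Q (t (ψ n)) i l * S (ψ n) l j k) ?_ ?_
  · refine tendsto_pi_nhds.2 fun i => tendsto_pi_nhds.2 fun j => tendsto_pi_nhds.2 fun k => ?_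
    refine tendsto_finsetSum _ fun l _ => (hQl i l).mul ?_
    exact tendsto_pi_nhds.1 (tendsto_pi_nhds.1 (tendsto_pi_nhds.1 hSl l) j) k
  · filter_upwards [h0.eventually_ne hi₀'] with n hn
    refine ⟨Q (t (ψ n)) * α (ψ n), β (ψ n), γ (ψ n), ?_⟩
    rw [← res_first, hS, res_res, Matrix.one_mul, Matrix.one_mul]
    have hz : (Q (t (ψ n)) * α (ψ n)) *ᵥ m = 0 := by
      rw [← Matrix.mulVec_mulVec, hc, Matrix.mulVec_smul, hQ _ hn, smul_zero]
    ext i j k
    have hz' : ∑ a, (Q (t (ψ n)) * α (ψ n)) i a * m a = 0 := congrFun hz i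
    simp only [res, hM, mul_add, Finset.sum_add_distrib, add_eq_left]
    calc _ = (∑ a, (Q (t (ψ n)) * α (ψ n)) i a * m a) *
          ∑ b, ∑ d, β (ψ n) j b * γ (ψ n) k d * N b d := by
          rw [Finset.sum_mul]
          refine Finset.sum_congr rfl fun a _ => ?_
          rw [Finset.mul_sum]
          refine Finset.sum_congr rfl fun b _ => ?_
          rw [Finset.mul_sum]
          refine Finset.sum_congr rfl fun d _ => ?_
          ring
      _ = 0 := by rw [hz', zero_mul]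

end Pool.Agent.P.MP_e72dc0_lc.Bd
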