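import Pool.Agent.P.MP_e72dc0_lc.BdA

/-! The adversary for the matrix product tensor, and soundness of the proof system. -/

open Matrix

namespace Pool.Agent.P.MP_e72dc0_lc.Bd

/-- The matrix product tensor with the last row of each factor cut short. -/
def pat (u v w x y z : ℕ) (i j k : ℕ × ℕ) : ℂ :=
  if i.2 = j.1 ∧ j.2 = k.1 ∧ k.2 = i.1 ∧ (i.1 + 1 < u ∨ i.2 < x) ∧ (j.1 + 1 < v ∨ j.2 < y) ∧
    (k.1 + 1 < w ∨ k.2 < z) then 1 else 0

/-- `pat` on its finite index sets. -/
def MP (u v w x y z : ℕ) : Fin u × Fin v → Fin v × Fin w → Fin w × Fin u → ℂ :=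
  fun i j k => pat u v w x y z (i.1, i.2) (j.1, j.2) (k.1, k.2)

/-- The sum of the two largest sides. -/
def pot (u v w : ℕ) : ℕ := max (u * v + v * w) (max (v * w + w * u) (w * u + u * v))

lemma pot_rot (u v w : ℕ) : pot v w u = pot u v w := by
  unfold pot
  omega

lemma pot_step (u v w : ℕ) : pot u v w + v ≤ pot (u + 1) v w := by
  unfold pot
  rcases le_total v w with h | h
  · simp only [Nat.add_mul, Nat.mul_add]
    omega
  · have : w * u ≤ u * v := by rw [mul_comm]; exact Nat.mul_le_mul_left u h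
    simp only [Nat.add_mul, Nat.mul_add]
    omega

lemma MP_rot (u v w x y z : ℕ) : (fun j k i => MP u v w x y z i j k) = MP v w u y z x := by
  ext j k i
  simp only [MP, pat]
  congr 1
  apply propext
  tauto

lemma MP_kill (u v w x y z : ℕ) : ∃ (m : Fin (u + 1) × Fin v → ℂ)
    (N : Fin v × Fin w → Fin w × Fin (u + 1) → ℂ), ∀ i j k,
    MP (u + 1) v w (x + 1) y z i j k = MP (u + 1) v w x y z i j k + m i * N j k := by
  refine ⟨fun i => if (i.1 : ℕ) = u ∧ (i.2 : ℕ) = x then 1 else 0,
    fun j k => pat (u + 1) v w (x + 1) y z (u, x) (j.1, j.2) (k.1, k.2), fun i j k => ?_⟩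
  by_cases h : (i.1 : ℕ) = u ∧ (i.2 : ℕ) = x
  · simp [MP, pat, h]
  · have := i.1.2
    simp only [MP, pat, h, if_false, zero_mul, add_zero]
    congr 1
    apply propext
    have : ((i.1 : ℕ) + 1 < u + 1 ∨ (i.2 : ℕ) < x + 1) ↔ ((i.1 : ℕ) + 1 < u + 1 ∨ (i.2 : ℕ) < x) := by
      omega
    rw [this]

lemma res_single {I J K I' J' K' : Type} [Fintype I] [Fintype J] [Fintype K] [DecidableEq I]
    [DecidableEq J] [DecidableEq K] (α : Matrix I' I ℂ) (β : Matrix J' J ℂ) (γ : Matrix K' K ℂ)
    (T : I → J → K → ℂ) (i' : I') (j' : J') (k' : K') (i : I) (j : J) (k : K)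
    (hα : ∀ l, α i' l = if l = i then 1 else 0) (hβ : ∀ l, β j' l = if l = j then 1 else 0)
    (hγ : ∀ l, γ k' l = if l = k then 1 else 0) : res α β γ T i' j' k' = T i j k := by
  simp [res, hα, hβ, hγ]

lemma MP_row (u v w y z : ℕ) : Deg (MP u v w v y z) (MP (u + 1) v w 0 y z) := by
  have : MP (u + 1) v w 0 y z = res
      (Matrix.of fun i i' => if i = (i'.1.castSucc, i'.2) then 1 else 0) 1
      (Matrix.of fun k k' => if k = (k'.1, k'.2.castSucc) then 1 else 0) (MP u v w v y z) := by
    ext ⟨i₁, i₂⟩ j ⟨k₁, k₂⟩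
    induction i₁ using Fin.lastCases with
    | last => simp [res, MP, pat, (Fin.castSucc_lt_last _).ne']
    | cast i₁ =>
      induction k₂ using Fin.lastCases with
      | last =>
        have := i₁.2
        simp [res, MP, pat, (Fin.castSucc_lt_last _).ne']
        omega
      | cast k₂ =>
        rw [res_single _ _ _ _ _ _ _ (i₁, i₂) j (k₁, k₂)]
        · simp [MP, pat]
        · simp [Prod.ext_iff, eq_comm]
        · simp [Matrix.one_apply, eq_comm]
        · simp [Prod.ext_iff, eq_comm]
  rw [this]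
  exact deg_res _ _ _ _

variable {I J K : Type} [Fintype I] [Fintype J] [Fintype K]

lemma step (v w y z : ℕ) {T : I → J → K → ℂ} (hT : T ≠ 0) (u : ℕ) : ∀ x,
    Deg (MP u v w x y z) T → ∃ t : I → ℂ, t ≠ 0 ∧ ∃ u' x', u' ≤ u ∧
      pot u' v w + x' + 1 ≤ pot u v w + x ∧
      ∀ q : Matrix I I ℂ, q *ᵥ t = 0 → Deg (MP u' v w x' y z) fun i j k => ∑ l, q i l * T l j k := by
  obtain ⟨i₁, -⟩ := Function.ne_iff.1 hT
  induction u with
  | zero =>
    intro x h
    have : MP 0 v w x y z = 0 := by
      ext i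
      exact i.1.elim0
    rw [this] at h
    exact absurd h.eq_zero hT
  | succ u ih =>
    intro x h
    cases x with
    | zero =>
      obtain ⟨t, ht, u', x', h1, h2, h3⟩ := ih v ((MP_row u v w y z).trans h)
      have := pot_step u v w
      exact ⟨t, ht, u', x', by omega, by omega, h3⟩
    | succ x =>
      obtain ⟨m, N, hM⟩ := MP_kill u v w x y z
      obtain ⟨t, ht, h3⟩ := h.kill m N hM i₁
      exact ⟨t, ht, u + 1, x, le_rfl, by omega, h3⟩

theorem bound {a b c : ℕ} {T : Fin a → Fin b → Fin c → ℂ} {r : ℕ} (h : Der T r) (s : ℕ) :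
    ∀ u v w x y z, u * v + v * w + w * u ≤ s → Deg (MP u v w x y z) T →
      (r : ℝ) ≤ (pot u v w + (x + y + z) : ℕ) + 4 * Real.sqrt (3 * s) + 12 := by
  induction h with
  | zero T =>
    intro u v w x y z _ _
    rw [Nat.cast_zero]
    positivity
  | rank T φ ρ r hρ hr =>
    intro u v w x y z hs hd
    have sq : Real.sqrt (3 * (u * v + v * w + w * u : ℕ)) ≤ Real.sqrt (3 * s) :=
      Real.sqrt_le_sqrt (by exact_mod_cast Nat.mul_le_mul_left 3 hs)
    have e : ((u * v + v * w + w * u : ℕ) : ℝ) - (min (u * v) (min (v * w) (w * u)) : ℕ) =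
        pot u v w := by
      rw [sub_eq_iff_eq_add, ← Nat.cast_add, Nat.cast_inj]
      unfold pot
      omega
    set B : ℝ := pot u v w + 4 * Real.sqrt (3 * s) + 11 with hB
    have B0 : 0 ≤ B := by positivity
    have ρ0 : (0 : ℝ) ≤ ρ := Nat.cast_nonneg _
    have key := hd.rank_le φ ⌊B * ρ⌋₊ fun α β γ => by
      apply Nat.le_floor
      have := Rk.barrier (φ ∘ₗ resL α β γ) ρ (fun x y z => by
        change (φ (res α β γ _)).rank ≤ ρ
        rw [res_outer]
        exact hρ _ _ _) (MP u v w x y z) (u * v) (v * w) (w * u) (by simp) (by simp) (by simp)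
      rw [e] at this
      refine this.trans (mul_le_mul_of_nonneg_right ?_ ρ0)
      linarith
    have h1 : (r : ℝ) * ρ < B * ρ := by
      have := Nat.floor_le (mul_nonneg B0 ρ0)
      have h2 : ((r * ρ : ℕ) : ℝ) < ⌊B * ρ⌋₊ := by exact_mod_cast hr.trans_le key
      push_cast at h2
      linarith
    have h3 : (r : ℝ) < B := lt_of_mul_lt_mul_right h1 ρ0
    have h4 : (0 : ℝ) ≤ (x + y + z : ℕ) := Nat.cast_nonneg _
    rw [Nat.cast_add, Nat.cast_add (pot u v w), Nat.cast_one]
    linarith
  | deg T T' r h _ ih =>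
    intro u v w x y z hs hd
    exact ih u v w x y z hs (hd.trans h)
  | rot T r _ ih =>
    intro u v w x y z hs hd
    have h1 := hd.rot
    rw [MP_rot] at h1
    have := ih v w u y z x (by omega) h1
    rwa [pot_rot, (by omega : y + z + x = x + y + z)] at this
  | sub T r hT q hq _ ih =>
    intro u v w x y z hs hd
    obtain ⟨t, ht, u', x', h1, h2, h3⟩ := step v w y z hT u x hd
    have e1 := Nat.mul_le_mul_right v h1
    have e2 := Nat.mul_le_mul_left w h1
    have := ih t ht u' v w x' y z (by omega) (h3 _ (hq t))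
    have h4 : ((pot u' v w + (x' + y + z) : ℕ) : ℝ) + 1 ≤ (pot u v w + (x + y + z) : ℕ) := by
      exact_mod_cast (by omega : pot u' v w + (x' + y + z) + 1 ≤ pot u v w + (x + y + z))
    rw [Nat.cast_add, Nat.cast_one]
    linarith

/-- The unit tensor of size `s` inside the index set `Fin n`. -/
def unit (n s : ℕ) : Fin n → Fin n → Fin n → ℂ :=
  fun i j k => if i = j ∧ j = k ∧ (i : ℕ) < s then 1 else 0

lemma unit_succ (n s : ℕ) : ∃ e : Fin n → ℂ, ∀ i j k,
    unit n (s + 1) i j k = unit n s i j k + e i * (e j * e k) := by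
  refine ⟨fun i => if (i : ℕ) = s then 1 else 0, fun i j k => ?_⟩
  simp only [unit, Fin.ext_iff]
  split_ifs <;> first | omega | simp

lemma rank_add_le' {P Q : Type} [Fintype P] [Fintype Q] (A B : Matrix P Q ℂ) :
    (A + B).rank ≤ A.rank + B.rank := by
  have h := Submodule.finrank_sup_add_finrank_inf_eq (LinearMap.range A.mulVecLin)
    (LinearMap.range B.mulVecLin)
  have h' : (A + B).rank ≤ Module.finrank ℂ
      (LinearMap.range A.mulVecLin ⊔ LinearMap.range B.mulVecLin : Submodule ℂ (P → ℂ)) := by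
    apply Submodule.finrank_mono
    rintro _ ⟨x, rfl⟩
    rw [Matrix.mulVecLin_add]
    exact Submodule.add_mem_sup ⟨x, rfl⟩ ⟨x, rfl⟩
  unfold Matrix.rank at *
  omega

theorem sound {a b c : ℕ} {T : Fin a → Fin b → Fin c → ℂ} {r : ℕ} (h : Der T r) (n : ℕ) :
    ∀ s, Deg (unit n s) T → r ≤ s := by
  induction h with
  | zero T => exact fun _ _ => Nat.zero_le _
  | rank T φ ρ r hρ hr =>
    intro s hd
    have key := hd.rank_le φ (s * ρ) fun α β γ => by
      clear hd
      induction s with
      | zero =>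
        have : unit n 0 = 0 := by
          ext
          simp [unit]
        rw [this]
        change (φ (resL α β γ 0)).rank ≤ _
        simp
      | succ s ih =>
        obtain ⟨e, he⟩ := unit_succ n s
        have : unit n (s + 1) = unit n s + fun i j k => e i * e j * e k := by
          ext i j k
          simp [he, mul_assoc]
        rw [this]
        change (φ (resL α β γ _)).rank ≤ _
        rw [map_add, map_add, Nat.succ_mul]
        refine (rank_add_le' _ _).trans (add_le_add ih ?_)
        change (φ (res α β γ _)).rank ≤ _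
        rw [res_outer]
        exact hρ _ _ _
    exact Nat.lt_of_mul_lt_mul_right (hr.trans_le key)
  | deg T T' r h _ ih => exact fun s hd => ih s (hd.trans h)
  | rot T r _ ih =>
    intro s hd
    have h1 := hd.rot
    have : (fun j k i => unit n s i j k) = unit n s := by
      ext j k i
      simp only [unit, Fin.ext_iff]
      congr 1
      apply propext
      omega
    rw [this] at h1
    exact ih s h1
  | sub T r hT q hq _ ih =>
    intro s hd
    obtain ⟨i₁, -⟩ := Function.ne_iff.1 hT
    cases s with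
    | zero =>
      have : unit n 0 = 0 := by
        ext
        simp [unit]
      rw [this] at hd
      exact absurd hd.eq_zero hT
    | succ s =>
      obtain ⟨e, he⟩ := unit_succ n s
      obtain ⟨t, ht, h3⟩ := hd.kill e (fun j k => e j * e k) he i₁
      exact Nat.succ_le_succ (ih t ht s (h3 _ (hq t)))

end Pool.Agent.P.MP_e72dc0_lc.Bd
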