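import Mathlib

/-! A proof system for lower bounds on border rank: rank methods, degeneration and border
substitution. -/

open Matrix

namespace Pool.Agent.P.MP_e72dc0_lc.Bd

variable {I J K I' J' K' : Type}

/-- The image of a tensor under three linear maps. -/
def res [Fintype I] [Fintype J] [Fintype K] (α : Matrix I' I ℂ) (β : Matrix J' J ℂ)
    (γ : Matrix K' K ℂ) (T : I → J → K → ℂ) : I' → J' → K' → ℂ :=
  fun i' j' k' => ∑ i, ∑ j, ∑ k, α i' i * β j' j * γ k' k * T i j k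

/-- `T'` is a degeneration of `T`: a limit of images of `T`. -/
def Deg [Fintype I] [Fintype J] [Fintype K] (T : I → J → K → ℂ) (T' : I' → J' → K' → ℂ) : Prop :=
  T' ∈ closure {S | ∃ α β γ, S = res α β γ T}

/-- `Der T r`: the lower bound `r` for the border rank of `T` is derivable. -/
inductive Der : ∀ {a b c : ℕ}, (Fin a → Fin b → Fin c → ℂ) → ℕ → Prop
  | zero {a b c : ℕ} (T : Fin a → Fin b → Fin c → ℂ) : Der T 0
  | rank {a b c p q : ℕ} (T : Fin a → Fin b → Fin c → ℂ)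
      (φ : (Fin a → Fin b → Fin c → ℂ) →ₗ[ℂ] Matrix (Fin p) (Fin q) ℂ) (ρ r : ℕ)
      (hρ : ∀ (x : Fin a → ℂ) (y : Fin b → ℂ) (z : Fin c → ℂ),
        (φ fun i j k => x i * y j * z k).rank ≤ ρ)
      (hr : r * ρ < (φ T).rank) : Der T (r + 1)
  | deg {a b c a' b' c' : ℕ} (T : Fin a → Fin b → Fin c → ℂ)
      (T' : Fin a' → Fin b' → Fin c' → ℂ) (r : ℕ) (h : Deg T T') (h' : Der T' r) : Der T r
  | rot {a b c : ℕ} (T : Fin a → Fin b → Fin c → ℂ) (r : ℕ)
      (h : Der (fun j k i => T i j k) r) : Der T r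
  | sub {a b c : ℕ} (T : Fin a → Fin b → Fin c → ℂ) (r : ℕ) (hT : T ≠ 0)
      (q : (Fin a → ℂ) → Matrix (Fin a) (Fin a) ℂ) (hq : ∀ t, q t *ᵥ t = 0)
      (h : ∀ t, t ≠ 0 → Der (fun i j k => ∑ l, q t i l * T l j k) r) : Der T (r + 1)

end Pool.Agent.P.MP_e72dc0_lc.Bd
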