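import Mathlib

/-! Tensor rank over the complex numbers and matrix multiplication tensors (textbook facts). -/

set_option autoImplicit false

namespace Pool.Agent.P.MP_e72dc0_lc.Cu

open Finset

/-- The tensor `T` has rank at most `r`. -/
def Rk {A B C : Type} (T : A → B → C → ℂ) (r : ℝ) : Prop :=
  ∃ (ρ : Type) (_ : Fintype ρ) (a : ρ → A → ℂ) (b : ρ → B → ℂ) (c : ρ → C → ℂ),
    (Fintype.card ρ : ℝ) ≤ r ∧ ∀ x y z, T x y z = ∑ l, a l x * b l y * c l z

variable {A B C A' B' C' : Type}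

theorem Rk.mono {T : A → B → C → ℂ} {r s : ℝ} (h : Rk T r) (hrs : r ≤ s) : Rk T s := by
  obtain ⟨ρ, _, a, b, c, h1, h2⟩ := h
  exact ⟨ρ, _, a, b, c, h1.trans hrs, h2⟩

theorem Rk.nonneg {T : A → B → C → ℂ} {r : ℝ} (h : Rk T r) : 0 ≤ r := by
  obtain ⟨ρ, _, a, b, c, h1, -⟩ := h
  exact (Nat.cast_nonneg _).trans h1

theorem Rk.comp {T : A → B → C → ℂ} {T' : A' → B' → C' → ℂ} {r : ℝ} (h : Rk T' r)
    (f : A → A') (g : B → B') (k : C → C') (hT : ∀ x y z, T x y z = T' (f x) (g y) (k z)) :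
    Rk T r := by
  obtain ⟨ρ, _, a, b, c, h1, h2⟩ := h
  exact ⟨ρ, _, fun l x => a l (f x), fun l y => b l (g y), fun l z => c l (k z), h1,
    fun x y z => by rw [hT, h2]⟩

theorem Rk.lin {T : A → B → C → ℂ} {T' : A' → B' → C' → ℂ} {r : ℝ} (h : Rk T' r)
    {L₁ L₂ L₃ : Type} [Fintype L₁] [Fintype L₂] [Fintype L₃]
    (α : A → L₁ → ℂ) (β : B → L₂ → ℂ) (γ : C → L₃ → ℂ)
    (f : A → L₁ → A') (g : B → L₂ → B') (k : C → L₃ → C')
    (hT : ∀ x y z, T x y z = ∑ l, ∑ l', ∑ l'',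
      α x l * β y l' * γ z l'' * T' (f x l) (g y l') (k z l'')) : Rk T r := by
  obtain ⟨ρ, _, a, b, c, h1, h2⟩ := h
  refine ⟨ρ, _, fun m x => ∑ l, α x l * a m (f x l), fun m y => ∑ l, β y l * b m (g y l),
    fun m z => ∑ l, γ z l * c m (k z l), h1, fun x y z => ?_⟩
  have e : ∀ F : L₁ → L₂ → L₃ → ρ → ℂ,
      ∑ l, ∑ l', ∑ l'', ∑ m, F l l' l'' m = ∑ m, ∑ l, ∑ l', ∑ l'', F l l' l'' m := fun F =>
    (sum_congr rfl fun l _ => (sum_congr rfl fun l' _ => sum_comm).trans sum_comm).trans sum_comm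
  have e' : T x y z = ∑ l, ∑ l', ∑ l'', ∑ m,
      α x l * β y l' * γ z l'' * (a m (f x l) * b m (g y l') * c m (k z l'')) := by
    simp only [hT, h2, mul_sum]
  rw [e', e]
  refine sum_congr rfl fun m _ => ?_
  rw [sum_mul_sum, sum_mul]
  refine sum_congr rfl fun l _ => ?_
  rw [sum_mul]
  refine sum_congr rfl fun l' _ => ?_
  rw [mul_sum]
  exact sum_congr rfl fun l'' _ => by ring

theorem Rk.mul {T : A → B → C → ℂ} {T' : A' → B' → C' → ℂ} {r s : ℝ} (h : Rk T r)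
    (h' : Rk T' s) :
    Rk (fun (x : A × A') (y : B × B') (z : C × C') => T x.1 y.1 z.1 * T' x.2 y.2 z.2) (r * s) := by
  have h0 := h.nonneg
  obtain ⟨ρ, _, a, b, c, h1, h2⟩ := h
  obtain ⟨ρ', _, a', b', c', h1', h2'⟩ := h'
  refine ⟨ρ × ρ', inferInstance, fun l x => a l.1 x.1 * a' l.2 x.2,
    fun l x => b l.1 x.1 * b' l.2 x.2, fun l x => c l.1 x.1 * c' l.2 x.2, ?_, fun x y z => ?_⟩
  · rw [Fintype.card_prod, Nat.cast_mul]
    exact mul_le_mul h1 h1' (Nat.cast_nonneg _) h0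
  · simp only [h2, h2']
    rw [sum_mul_sum, Fintype.sum_prod_type]
    exact sum_congr rfl fun l _ => sum_congr rfl fun l' _ => by ring

theorem Rk.sum {κ : Type} [Fintype κ] {T : κ → A → B → C → ℂ} {r : κ → ℝ}
    (h : ∀ k, Rk (T k) (r k)) : Rk (fun x y z => ∑ k, T k x y z) (∑ k, r k) := by
  choose ρ hρ a b c h1 h2 using h
  refine ⟨Σ k, ρ k, inferInstance, fun l => a l.1 l.2, fun l => b l.1 l.2, fun l => c l.1 l.2,
    ?_, fun x y z => ?_⟩
  · rw [Fintype.card_sigma, Nat.cast_sum]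
    exact sum_le_sum fun k _ => h1 k
  · simp only [h2]
    rw [Fintype.sum_sigma]

open Classical in
/-- The indicator of a proposition. -/
noncomputable def ind (p : Prop) : ℂ := if p then 1 else 0

theorem ind_eq (p : Prop) [Decidable p] : ind p = if p then 1 else 0 := by
  unfold ind
  congr

theorem ind_and (p q : Prop) : ind (p ∧ q) = ind p * ind q := by
  by_cases hp : p <;> by_cases hq : q <;> simp [ind, hp, hq]

theorem ind_congr {p q : Prop} (h : p ↔ q) : ind p = ind q := by rw [propext h]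

/-- The direct sum of `P` copies of the matrix multiplication tensor of format `I, J, K`. -/
noncomputable def mm (P I J K : Type) : P × I × J → P × J × K → P × K × I → ℂ := fun x y z =>
  ind (x.1 = y.1 ∧ y.1 = z.1 ∧ x.2.2 = y.2.1 ∧ y.2.2 = z.2.1 ∧ z.2.2 = x.2.1)

theorem mm_emb {P I J K P' I' J' K' : Type} {r : ℝ} (h : Rk (mm P' I' J' K') r) (p : P ↪ P')
    (i : I ↪ I') (j : J ↪ J') (k : K ↪ K') : Rk (mm P I J K) r :=
  h.comp (fun x => (p x.1, i x.2.1, j x.2.2)) (fun x => (p x.1, j x.2.1, k x.2.2))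
    (fun x => (p x.1, k x.2.1, i x.2.2)) fun x y z => ind_congr (by simp)

theorem mm_card {P I J K P' I' J' K' : Type} [Fintype P] [Fintype I] [Fintype J] [Fintype K]
    [Fintype P'] [Fintype I'] [Fintype J'] [Fintype K'] {r : ℝ} (h : Rk (mm P' I' J' K') r)
    (p : Fintype.card P ≤ Fintype.card P') (i : Fintype.card I ≤ Fintype.card I')
    (j : Fintype.card J ≤ Fintype.card J') (k : Fintype.card K ≤ Fintype.card K') :
    Rk (mm P I J K) r :=
  mm_emb h (Function.Embedding.nonempty_of_card_le p).some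
    (Function.Embedding.nonempty_of_card_le i).some
    (Function.Embedding.nonempty_of_card_le j).some
    (Function.Embedding.nonempty_of_card_le k).some

/-- `p` independent products of format `a, b, c` have rank at most `r`. -/
def M (p a b c : ℕ) (r : ℝ) : Prop := Rk (mm (Fin p) (Fin a) (Fin b) (Fin c)) r

theorem M.le {p a b c p' a' b' c' : ℕ} {r : ℝ} (h : M p' a' b' c' r) (hp : p ≤ p') (ha : a ≤ a')
    (hb : b ≤ b') (hc : c ≤ c') : M p a b c r :=
  mm_card h (by simpa) (by simpa) (by simpa) (by simpa)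

theorem M.mul {p a b c p' a' b' c' : ℕ} {r s : ℝ} (h : M p a b c r) (h' : M p' a' b' c' s) :
    M (p * p') (a * a') (b * b') (c * c') (r * s) := by
  have : Rk (mm (Fin p × Fin p') (Fin a × Fin a') (Fin b × Fin b') (Fin c × Fin c')) (r * s) :=
    (Rk.mul h h').comp (fun x => ((x.1.1, x.2.1.1, x.2.2.1), (x.1.2, x.2.1.2, x.2.2.2)))
      (fun x => ((x.1.1, x.2.1.1, x.2.2.1), (x.1.2, x.2.1.2, x.2.2.2)))
      (fun x => ((x.1.1, x.2.1.1, x.2.2.1), (x.1.2, x.2.1.2, x.2.2.2))) fun x y z => by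
        simp only [mm, Prod.ext_iff]
        rw [← ind_and]
        exact ind_congr (by tauto)
  exact mm_card this (by simp) (by simp) (by simp) (by simp)

theorem M.cyc {p a b c : ℕ} {r : ℝ} (h : M p a b c r) : M p b c a r := by
  obtain ⟨ρ, _, u, v, w, h1, h2⟩ := h
  refine ⟨ρ, _, v, w, u, h1, fun x y z => ?_⟩
  have : mm (Fin p) (Fin b) (Fin c) (Fin a) x y z = mm (Fin p) (Fin a) (Fin b) (Fin c) z x y := by
    refine ind_congr ⟨?_, ?_⟩
    · rintro ⟨h1, h2, h3, h4, h5⟩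
      exact ⟨(h1.trans h2).symm, h1, h5, h3, h4⟩
    · rintro ⟨h1, h2, h3, h4, h5⟩
      exact ⟨h2, (h1.trans h2).symm, h4, h5, h3⟩
  rw [this, h2]
  exact sum_congr rfl fun l _ => by ring

theorem M.naive (p a b c : ℕ) : M p a b c (p * a * b * c : ℕ) := by
  refine ⟨Fin p × Fin a × Fin b × Fin c, inferInstance,
    fun l x => ind (x = (l.1, l.2.1, l.2.2.1)), fun l x => ind (x = (l.1, l.2.2.1, l.2.2.2)),
    fun l x => ind (x = (l.1, l.2.2.2, l.2.1)), by simp [mul_assoc], ?_⟩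
  rintro ⟨x1, x2, x3⟩ ⟨y1, y2, y3⟩ ⟨z1, z2, z3⟩
  rw [Finset.sum_eq_single (x1, x2, x3, y3)]
  · simp only [mm, Prod.mk.injEq, ← ind_and, true_and, and_true]
    refine ind_congr ⟨?_, ?_⟩
    · rintro ⟨rfl, rfl, rfl, rfl, rfl⟩
      simp
    · rintro ⟨⟨rfl, rfl⟩, rfl, rfl, rfl⟩
      simp
  · rintro ⟨l1, l2, l3, l4⟩ - hne
    simp only [Prod.mk.injEq, ← ind_and]
    rw [ind, if_neg]
    rintro ⟨⟨⟨rfl, rfl, rfl⟩, -, -, rfl⟩, -⟩
    exact hne rfl
  · simp

theorem M.lower {p a b c : ℕ} {r : ℝ} (h : M p a b c r) (hb : 0 < b) :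
    ((p * a * c : ℕ) : ℝ) ≤ r := by
  classical
  obtain ⟨ρ, _, u, v, w, h1, h2⟩ := h
  refine le_trans (Nat.cast_le.2 ?_) h1
  let X : Matrix (Fin p × Fin a × Fin c) ρ ℂ := fun x l =>
    u l (x.1, x.2.1, ⟨0, hb⟩) * v l (x.1, ⟨0, hb⟩, x.2.2)
  let Y : Matrix ρ (Fin p × Fin a × Fin c) ℂ := fun l x => w l (x.1, x.2.2, x.2.1)
  have e : X * Y = 1 := by
    ext ⟨x1, x2, x3⟩ ⟨y1, y2, y3⟩
    rw [Matrix.mul_apply, Matrix.one_apply]
    refine (h2 _ _ _).symm.trans ?_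
    simp only [mm, Prod.mk.injEq, true_and, ← ind_eq]
    refine ind_congr ⟨?_, ?_⟩
    · rintro ⟨rfl, rfl, rfl⟩
      simp
    · rintro ⟨rfl, rfl, rfl⟩
      simp
  have := (Matrix.rank_mul_le_left X Y).trans (Matrix.rank_le_card_width X)
  rw [e, Matrix.rank_one] at this
  simpa [mul_assoc] using this

theorem M.subst {p a b c n a' b' c' : ℕ} {r : ℝ} (h : M p a b c n) (h' : M n a' b' c' r) :
    M p (a * a') (b * b') (c * c') r := by
  classical
  obtain ⟨ρ, _, u, v, w, h1, h2⟩ := h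
  have h3 : Rk (mm ρ (Fin a') (Fin b') (Fin c')) r :=
    mm_card h' (by simpa using h1) le_rfl le_rfl le_rfl
  have : Rk (mm (Fin p) (Fin a × Fin a') (Fin b × Fin b') (Fin c × Fin c')) r := by
    refine h3.lin (fun x l => u l (x.1, x.2.1.1, x.2.2.1)) (fun x l => v l (x.1, x.2.1.1, x.2.2.1))
      (fun x l => w l (x.1, x.2.1.1, x.2.2.1)) (fun x l => (l, x.2.1.2, x.2.2.2))
      (fun x l => (l, x.2.1.2, x.2.2.2)) (fun x l => (l, x.2.1.2, x.2.2.2)) fun x y z => ?_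
    by_cases hq : x.2.2.2 = y.2.1.2 ∧ y.2.2.2 = z.2.1.2 ∧ z.2.2.2 = x.2.1.2
    · have e : mm (Fin p) (Fin a × Fin a') (Fin b × Fin b') (Fin c × Fin c') x y z =
          mm (Fin p) (Fin a) (Fin b) (Fin c) (x.1, x.2.1.1, x.2.2.1) (y.1, y.2.1.1, y.2.2.1)
            (z.1, z.2.1.1, z.2.2.1) := by
        simp only [mm, Prod.ext_iff, hq, and_true]
      rw [e, h2]
      simp [mm, hq, ind_eq, ite_and]
    · have e : mm (Fin p) (Fin a × Fin a') (Fin b × Fin b') (Fin c × Fin c') x y z = 0 := by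
        simp only [mm, Prod.ext_iff, ind]
        exact if_neg fun h => hq ⟨h.2.2.1.2, h.2.2.2.1.2, h.2.2.2.2.2⟩
      rw [e]
      simp [mm, hq, ind]
  exact mm_card this le_rfl (by simp) (by simp) (by simp)

theorem Rk.tr {D : Type} [Fintype D] {r : ℝ} (h : Rk (mm (Fin 1) D D D) r)
    (X : A → D → D → ℂ) (Y : B → D → D → ℂ) (Z : C → D → D → ℂ) :
    Rk (fun x y z => ∑ p, ∑ q, ∑ s, X x p q * Y y q s * Z z s p) r := by
  classical
  refine h.lin (L₁ := D × D) (L₂ := D × D) (L₃ := D × D) (fun x l => X x l.1 l.2)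
    (fun x l => Y x l.1 l.2) (fun x l => Z x l.1 l.2) (fun _ l => (0, l)) (fun _ l => (0, l))
    (fun _ l => (0, l)) fun x y z => ?_
  simp [mm, ind_eq, Fintype.sum_prod_type, ite_and]

end Pool.Agent.P.MP_e72dc0_lc.Cu
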