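import Pool.Agent.P.MP_e72dc0_lc.CuA

/-! The rank exponent of matrix multiplication and the basic inequalities (textbook facts). -/

set_option autoImplicit false

namespace Pool.Agent.P.MP_e72dc0_lc.Cu

open Finset Filter Topology

/-- Admissible exponents for the rank of square matrix multiplication. -/
def E : Set ℝ := {v | ∃ C : ℝ, ∀ a : ℕ, 1 ≤ a → M 1 a a a (C * (a : ℝ) ^ v)}

/-- The rank exponent. -/
noncomputable def om : ℝ := sInf E

theorem le_of_pow_le {x y C : ℝ} (hy : 0 ≤ y) (e : ℕ)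
    (h : ∀ N : ℕ, x ^ N ≤ C * ((N + 1 : ℕ) : ℝ) ^ e * y ^ N) : x ≤ y := by
  by_contra hxy
  push Not at hxy
  rcases hy.eq_or_lt with rfl | hy
  · have := h 1
    simp only [pow_one, mul_zero] at this
    exact absurd hxy (not_lt.2 this)
  have ht : 1 < x / y := (one_lt_div hy).2 hxy
  have h1 := (tendsto_pow_const_div_const_pow_of_one_lt e ht).comp (tendsto_add_atTop_nat 1)
  have h2 := h1.const_mul (C * (x / y))
  rw [mul_zero] at h2
  obtain ⟨N, hN⟩ := (h2.eventually (gt_mem_nhds zero_lt_one)).exists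
  have h3 : (x / y) ^ N ≤ C * ((N + 1 : ℕ) : ℝ) ^ e := by
    rw [div_pow, div_le_iff₀ (pow_pos hy _)]
    exact h N
  have h4 : 0 < (x / y) ^ N := pow_pos (zero_lt_one.trans ht) _
  have h5 : C * (x / y) * (((N + 1 : ℕ) : ℝ) ^ e / (x / y) ^ (N + 1)) =
      C * ((N + 1 : ℕ) : ℝ) ^ e / (x / y) ^ N := by
    have : x / y ≠ 0 := (zero_lt_one.trans ht).ne'
    generalize x / y = t at this
    rw [pow_succ t]
    field_simp
  simp only [Function.comp] at hN
  rw [h5, div_lt_one h4] at hN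
  exact absurd h3 (not_le.2 hN)

theorem three_mem : (3 : ℝ) ∈ E := ⟨1, fun a _ => (M.naive 1 a a a).mono (by
  rw [show (3 : ℝ) = (3 : ℕ) by norm_num, Real.rpow_natCast]
  push_cast
  exact le_of_eq (by ring))⟩

theorem two_le {v : ℝ} (hv : v ∈ E) : 2 ≤ v := by
  obtain ⟨C, hC⟩ := hv
  have : (2 : ℝ) ^ (2 : ℝ) ≤ 2 ^ v := by
    refine le_of_pow_le (C := C) (by positivity) 0 fun N => ?_
    have := (hC (2 ^ N) Nat.one_le_two_pow).lower (by positivity)
    push_cast at this
    rw [← Real.rpow_pow_comm (by norm_num)] at this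
    rw [Real.rpow_two, ← pow_mul, mul_comm 2 N, pow_mul, pow_zero, mul_one]
    exact (le_of_eq (by ring)).trans this
  exact (Real.rpow_le_rpow_left_iff one_lt_two).1 this

theorem bdd : BddBelow E := ⟨2, fun _ => two_le⟩

theorem two_le_om : 2 ≤ om := le_csInf ⟨3, three_mem⟩ fun _ => two_le

theorem om_le_three : om ≤ 3 := csInf_le bdd three_mem

theorem mem_of_lt {w : ℝ} (hw : om < w) : w ∈ E := by
  obtain ⟨v, ⟨C, hC⟩, hvw⟩ := exists_lt_of_csInf_lt ⟨3, three_mem⟩ hw
  have h0 : 0 ≤ C := by simpa using (hC 1 le_rfl).nonneg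
  exact ⟨C, fun a ha => (hC a ha).mono (mul_le_mul_of_nonneg_left
    (Real.rpow_le_rpow_of_exponent_le (by exact_mod_cast ha) hvw.le) h0)⟩

theorem M.pow {a b c : ℕ} {r : ℝ} (h : M 1 a b c r) (k : ℕ) :
    M 1 (a ^ k) (b ^ k) (c ^ k) (r ^ k) := by
  induction k with
  | zero => simpa using M.naive 1 1 1 1
  | succ k ih => simpa [pow_succ] using ih.mul h

theorem sq_le {q : ℕ} {R : ℝ} (hq : 1 ≤ q) (h : M 1 q q q R) : (q : ℝ) ^ om ≤ R := by
  have hR : (1 : ℝ) ≤ R := le_trans (by exact_mod_cast by nlinarith) (h.lower hq)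
  rcases hq.eq_or_lt with rfl | hq
  · simpa using hR
  have hq' : (1 : ℝ) < q := by exact_mod_cast hq
  have hq0 : (0 : ℝ) < q := zero_lt_one.trans hq'
  have e : (q : ℝ) ^ Real.logb q R = R := Real.rpow_logb hq0 hq'.ne' (by linarith)
  have hv : 0 ≤ Real.logb q R := Real.logb_nonneg hq' hR
  have : Real.logb q R ∈ E := by
    refine ⟨R, fun a ha => ?_⟩
    have h1 : a ≤ q ^ Nat.clog q a := Nat.le_pow_clog hq a
    refine ((h.pow (Nat.clog q a)).le le_rfl h1 h1 h1).mono ?_
    have h2 : q ^ Nat.clog q a ≤ q * a := by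
      rcases ha.eq_or_lt with rfl | ha
      · simpa using hq.le
      · have := Nat.pow_pred_clog_lt_self hq ha
        have h3 := Nat.clog_pos hq ha
        obtain ⟨k, hk⟩ := Nat.exists_eq_succ_of_ne_zero h3.ne'
        rw [hk] at this ⊢
        rw [pow_succ']
        exact Nat.mul_le_mul_left _ this.le
    calc R ^ Nat.clog q a = ((q : ℝ) ^ Nat.clog q a) ^ Real.logb q R := by
          rw [← Real.rpow_pow_comm hq0.le, e]
      _ ≤ ((q : ℝ) * a) ^ Real.logb q R :=
          Real.rpow_le_rpow (by positivity) (by exact_mod_cast h2) hv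
      _ = R * (a : ℝ) ^ Real.logb q R := by rw [Real.mul_rpow hq0.le (by positivity), e]
  exact (Real.rpow_le_rpow_of_exponent_le hq'.le (csInf_le bdd this)).trans e.le

theorem single_le {a b c : ℕ} {r : ℝ} (h0 : 1 ≤ a * b * c) (h : M 1 a b c r) :
    ((a * b * c : ℕ) : ℝ) ^ (om / 3) ≤ r := by
  have h1 := (h.mul h.cyc).mul h.cyc.cyc
  have h2 : M 1 (a * b * c) (a * b * c) (a * b * c) (r ^ 3) :=
    (h1.le le_rfl le_rfl (le_of_eq (by ring)) (le_of_eq (by ring))).mono (le_of_eq (by ring))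
  have h3 := sq_le h0 h2
  refine le_of_pow_le_pow_left₀ (n := 3) (by norm_num) h.nonneg ?_
  rw [← Real.rpow_natCast, ← Real.rpow_mul (Nat.cast_nonneg _)]
  simpa using h3

theorem many_le {p a b c : ℕ} {s : ℝ} (h : M p a b c s) :
    p * ((a * b * c : ℕ) : ℝ) ^ (om / 3) ≤ 2 * s := by
  have hs := h.nonneg
  have ho : om / 3 ≠ 0 := by linarith [two_le_om]
  rcases Nat.eq_zero_or_pos p with rfl | hp
  · simpa using hs
  rcases Nat.eq_zero_or_pos (a * b * c) with h0 | h0
  · rw [h0, Nat.cast_zero, Real.zero_rpow ho]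
    simpa using hs
  have ha : 0 < a := Nat.pos_of_mul_pos_right (Nat.pos_of_mul_pos_right h0)
  have hb : 0 < b := Nat.pos_of_mul_pos_left (Nat.pos_of_mul_pos_right h0)
  have hc : 0 < c := Nat.pos_of_mul_pos_left h0
  have hp' : (0 : ℝ) < p := by exact_mod_cast hp
  have h1 : (p : ℝ) ≤ s := le_trans (by
    exact_mod_cast (by rw [mul_assoc]; exact Nat.le_mul_of_pos_right _ (by positivity) :
      p ≤ p * a * c)) (h.lower hb)
  obtain ⟨n, hn1, hn2⟩ : ∃ n : ℕ, s ≤ n * p ∧ (n : ℝ) * p ≤ 2 * s := by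
    refine ⟨⌈s / p⌉₊, (div_le_iff₀ hp').1 (Nat.le_ceil _), ?_⟩
    have := (Nat.ceil_lt_add_one (div_nonneg hs hp'.le)).le
    have h2 := mul_le_mul_of_nonneg_right this hp'.le
    rw [add_mul, div_mul_cancel₀ _ hp'.ne'] at h2
    linarith
  have h2 : ∀ k : ℕ, M p (a ^ k) (b ^ k) (c ^ k) (p * (n : ℝ) ^ k) := by
    intro k
    induction k with
    | zero => simpa using M.naive p 1 1 1
    | succ k ih =>
      have h3 := (M.naive n 1 1 1).mul ih
      have h4 : M p a b c (n * p : ℕ) := h.mono (by exact_mod_cast hn1)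
      simp only [one_mul, mul_one] at h3
      simp only [pow_succ']
      exact (h4.subst h3).mono (le_of_eq (by ring))
  have h3 : ((a * b * c : ℕ) : ℝ) ^ (om / 3) ≤ n := by
    refine le_of_pow_le (C := p) (Nat.cast_nonneg _) 0 fun k => ?_
    have := single_le (Nat.succ_le_of_lt (by positivity)) ((h2 k).le hp le_rfl le_rfl le_rfl)
    rw [← mul_pow, ← mul_pow, Nat.cast_pow, ← Real.rpow_pow_comm (Nat.cast_nonneg _)] at this
    simpa using this
  nlinarith

end Pool.Agent.P.MP_e72dc0_lc.Cu
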