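import Pool.Agent.P.MP_e72dc0_lc.CuB

/-! The inequality of Cohn, Kleinberg, Szegedy and Umans at the rank exponent (known). -/

set_option autoImplicit false

namespace Pool.Agent.P.MP_e72dc0_lc.Cu

open Finset Filter Topology

variable {G : Type} [Group G] {κ : Type} [Fintype κ] {d : κ → ℕ}

theorem trace_form (e : MonoidAlgebra ℂ G ≃ₐ[ℂ] ∀ k, Matrix (Fin (d k)) (Fin (d k)) ℂ) :
    ∃ X Z : G → ∀ k, Fin (d k) → Fin (d k) → ℂ, ∀ x y z : G,
      ind (x * y * z = 1) = ∑ k, ∑ p, ∑ q, ∑ s, X x k p q * X y k q s * Z z k s p := by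
  classical
  let l : (∀ k, Matrix (Fin (d k)) (Fin (d k)) ℂ) →ₗ[ℂ] ℂ :=
    Finsupp.lapply (1 : G) ∘ₗ (MonoidAlgebra.coeffLinearEquiv ℂ).toLinearMap ∘ₗ
      e.symm.toLinearMap
  have hl : ∀ N, l N = ∑ k, ∑ p, ∑ t, N k p t * l (Pi.single k (Matrix.single p t 1)) := by
    intro N
    conv_lhs => rw [← Finset.univ_sum_single N, map_sum]
    refine sum_congr rfl fun k _ => ?_
    have : ∀ Y : Matrix (Fin (d k)) (Fin (d k)) ℂ, l (Pi.single k Y) =
        (l ∘ₗ LinearMap.single ℂ (fun k => Matrix (Fin (d k)) (Fin (d k)) ℂ) k) Y := fun _ => rfl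
    simp only [this]
    conv_lhs => rw [Matrix.matrix_eq_sum_single (N k)]
    simp only [map_sum]
    refine sum_congr rfl fun p _ => sum_congr rfl fun t _ => ?_
    rw [← smul_eq_mul, ← map_smul, Matrix.smul_single, smul_eq_mul, mul_one]
  refine ⟨fun x k p q => e (MonoidAlgebra.single x 1) k p q, fun z k s p =>
    ∑ t, e (MonoidAlgebra.single z 1) k s t * l (Pi.single k (Matrix.single p t 1)),
    fun x y z => ?_⟩
  have h1 : ind (x * y * z = 1) = l (e (MonoidAlgebra.single x 1) * e (MonoidAlgebra.single y 1) *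
      e (MonoidAlgebra.single z 1)) := by
    rw [← map_mul, ← map_mul, MonoidAlgebra.single_mul_single, MonoidAlgebra.single_mul_single]
    simp [l, ind_eq, Finsupp.single_apply]
  rw [h1, hl]
  refine sum_congr rfl fun k _ => sum_congr rfl fun p _ => ?_
  simp only [Pi.mul_apply, Matrix.mul_apply, sum_mul, mul_sum]
  rw [sum_comm]
  conv_rhs => rw [sum_comm]
  refine sum_congr rfl fun s _ => ?_
  rw [sum_comm]
  exact sum_congr rfl fun q _ => sum_congr rfl fun t _ => by ring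

theorem prod_ind {ι : Type} [Fintype ι] (p : ι → Prop) : ∏ t, ind (p t) = ind (∀ t, p t) := by
  classical
  simp only [ind_eq]
  rw [Finset.prod_ite_zero]
  simp

theorem power_rank (e : MonoidAlgebra ℂ G ≃ₐ[ℂ] ∀ k, Matrix (Fin (d k)) (Fin (d k)) ℂ) {v : ℝ}
    (hv : v ∈ E) : ∃ C : ℝ, ∀ N : ℕ, Rk (fun x y z : Fin N → G => ind (∀ t, x t * y t * z t = 1))
      (C * (∑ k, (d k : ℝ) ^ v) ^ N) := by
  classical
  have hv0 : v ≠ 0 := by linarith [two_le hv]
  obtain ⟨C, hC⟩ := hv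
  obtain ⟨X, Z, h⟩ := trace_form e
  refine ⟨C, fun N => ?_⟩
  have h1 : ∀ f : Fin N → κ, Rk (mm (Fin 1) (∀ t, Fin (d (f t))) (∀ t, Fin (d (f t)))
      (∀ t, Fin (d (f t)))) (C * ∏ t, (d (f t) : ℝ) ^ v) := by
    intro f
    rw [Real.finsetProd_rpow _ _ (fun _ _ => Nat.cast_nonneg _), ← Nat.cast_prod]
    rcases Nat.eq_zero_or_pos (∏ t, d (f t)) with h0 | h0
    · refine mm_card ((M.naive 1 0 0 0).mono ?_) le_rfl ?_ ?_ ?_ <;> simp [h0, hv0]
    · exact mm_card (hC _ h0) le_rfl (by simp) (by simp) (by simp)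
  have h2 := Rk.sum fun f : Fin N → κ => (h1 f).tr
    (fun (x : Fin N → G) p q => ∏ t, X (x t) (f t) (p t) (q t))
    (fun (x : Fin N → G) p q => ∏ t, X (x t) (f t) (p t) (q t))
    (fun (x : Fin N → G) p q => ∏ t, Z (x t) (f t) (p t) (q t))
  rw [← mul_sum, ← Fintype.sum_pow (fun k => (d k : ℝ) ^ v)] at h2
  refine h2.comp id id id fun x y z => ?_
  rw [← prod_ind]
  simp only [h, Fintype.prod_sum, id, prod_mul_distrib]

theorem class_rank {ι : Type} {S T U : ι → Finset G}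
    (hS : ∀ i j k, ∀ s ∈ S i, ∀ s' ∈ S j, ∀ t ∈ T j, ∀ t' ∈ T k, ∀ u ∈ U k, ∀ u' ∈ U i,
      s⁻¹ * s' * t⁻¹ * t' * u⁻¹ * u' = 1 → i = j ∧ j = k ∧ s = s' ∧ t = t' ∧ u = u')
    {N : ℕ} {r : ℝ} (h : Rk (fun x y z : Fin N → G => ind (∀ t, x t * y t * z t = 1)) r)
    (P : Finset (Fin N → ι)) {a b c : ℕ} (ha : ∀ f ∈ P, ∏ t, (S (f t)).card = a)
    (hb : ∀ f ∈ P, ∏ t, (T (f t)).card = b) (hc : ∀ f ∈ P, ∏ t, (U (f t)).card = c) :
    M P.card a b c r := by
  classical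
  have key : ∀ (S : ι → Finset G) (a : ℕ), (∀ f ∈ P, ∏ t, (S (f t)).card = a) →
      ∃ σ : P → Fin a → Fin N → G, (∀ f i t, σ f i t ∈ S (f.1 t)) ∧
        ∀ f, Function.Injective (σ f) := by
    intro S a ha
    have hc : ∀ f : P, (Fintype.piFinset fun t => S (f.1 t)).card = a := fun f => by
      rw [Fintype.card_piFinset]
      exact ha _ f.2
    refine ⟨fun f i => ((Finset.equivFinOfCardEq (hc f)).symm i).1, fun f i =>
      Fintype.mem_piFinset.1 ((Finset.equivFinOfCardEq (hc f)).symm i).2, fun f i j hij => ?_⟩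
    exact (Finset.equivFinOfCardEq (hc f)).symm.injective (Subtype.ext hij)
  obtain ⟨σ, hσ, iσ⟩ := key S a ha
  obtain ⟨τ, hτ, iτ⟩ := key T b hb
  obtain ⟨υ, hυ, iυ⟩ := key U c hc
  have : Rk (mm P (Fin a) (Fin b) (Fin c)) r := by
    refine h.comp (fun x t => σ x.1 x.2.1 t * (τ x.1 x.2.2 t)⁻¹)
      (fun x t => τ x.1 x.2.1 t * (υ x.1 x.2.2 t)⁻¹)
      (fun x t => υ x.1 x.2.1 t * (σ x.1 x.2.2 t)⁻¹) ?_
    rintro ⟨f, i, j⟩ ⟨g, j', k⟩ ⟨l, k', i'⟩
    refine ind_congr ⟨?_, fun H => ?_⟩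
    · rintro ⟨h1, h2, h3, h4, h5⟩ t
      dsimp only at h1 h2 h3 h4 h5 ⊢
      subst h1 h2 h3 h4 h5
      group
    · have H' := fun t => hS _ _ _ _ (hσ l i' t) _ (hσ f i t) _ (hτ f j t) _ (hτ g j' t) _
        (hυ g k t) _ (hυ l k' t) (by
          have := H t
          dsimp only at this
          rw [← mul_assoc, mul_inv_eq_one] at this
          rw [← this]
          group)
      obtain rfl : l = f := Subtype.ext (funext fun t => (H' t).1)
      obtain rfl : l = g := Subtype.ext (funext fun t => (H' t).2.1)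
      exact ⟨rfl, rfl, iτ l (funext fun t => (H' t).2.2.2.1),
        iυ l (funext fun t => (H' t).2.2.2.2), iσ l (funext fun t => (H' t).2.2.1)⟩
  exact mm_card this (by simp) le_rfl le_rfl le_rfl

theorem cksu {ι : Type} [Fintype ι] {S T U : ι → Finset G}
    (hS : ∀ i j k, ∀ s ∈ S i, ∀ s' ∈ S j, ∀ t ∈ T j, ∀ t' ∈ T k, ∀ u ∈ U k, ∀ u' ∈ U i,
      s⁻¹ * s' * t⁻¹ * t' * u⁻¹ * u' = 1 → i = j ∧ j = k ∧ s = s' ∧ t = t' ∧ u = u')
    (e : MonoidAlgebra ℂ G ≃ₐ[ℂ] ∀ k, Matrix (Fin (d k)) (Fin (d k)) ℂ) :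
    ∑ i, (((S i).card * (T i).card * (U i).card : ℕ) : ℝ) ^ (om / 3) ≤ ∑ k, (d k : ℝ) ^ om := by
  classical
  have h1 : ∀ v ∈ E, ∑ i, (((S i).card * (T i).card * (U i).card : ℕ) : ℝ) ^ (om / 3) ≤
      ∑ k, (d k : ℝ) ^ v := by
    intro v hv
    obtain ⟨C, hC⟩ := power_rank e hv
    refine le_of_pow_le (C := 2 * C) (by positivity) (Fintype.card ι) fun N => ?_
    let μ : (Fin N → ι) → ι → Fin (N + 1) := fun f i =>
      ⟨(univ.filter fun t => f t = i).card,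
        Nat.lt_succ_of_le ((card_filter_le _ _).trans (by simp))⟩
    have hμ : ∀ (φ : ι → ℕ) (f : Fin N → ι), ∏ t, φ (f t) = ∏ i, φ i ^ (μ f i : ℕ) := by
      intro φ f
      rw [← Finset.prod_fiberwise' univ f φ]
      simp [μ]
    rw [Fintype.sum_pow, ← Finset.sum_fiberwise univ μ]
    refine (sum_le_card_nsmul _ _ (2 * (C * (∑ k, (d k : ℝ) ^ v) ^ N)) fun m _ => ?_).trans
      (le_of_eq (by simp; ring))
    have := many_le (class_rank hS (hC N) (univ.filter fun f => μ f = m)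
      (a := ∏ i, (S i).card ^ (m i : ℕ)) (b := ∏ i, (T i).card ^ (m i : ℕ))
      (c := ∏ i, (U i).card ^ (m i : ℕ))
      (fun f hf => by rw [hμ (fun i => (S i).card), (mem_filter.1 hf).2])
      (fun f hf => by rw [hμ (fun i => (T i).card), (mem_filter.1 hf).2])
      (fun f hf => by rw [hμ (fun i => (U i).card), (mem_filter.1 hf).2]))
    refine le_trans (le_of_eq ?_) this
    rw [← nsmul_eq_mul, ← sum_const]
    refine sum_congr rfl fun f hf => ?_
    rw [Real.finsetProd_rpow _ _ (fun _ _ => Nat.cast_nonneg _), ← Nat.cast_prod,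
      hμ (fun i => (S i).card * (T i).card * (U i).card), (mem_filter.1 hf).2]
    simp only [mul_pow, prod_mul_distrib]
  have h2 : ContinuousAt (fun v : ℝ => ∑ k, (d k : ℝ) ^ v) om :=
    tendsto_finsetSum _ fun k _ => Real.continuousAt_const_rpow' (by linarith [two_le_om])
  refine ge_of_tendsto (h2.tendsto.mono_left (nhdsWithin_le_nhds (s := Set.Ioi om))) ?_
  filter_upwards [self_mem_nhdsWithin] with v hv using h1 v (mem_of_lt hv)

end Pool.Agent.P.MP_e72dc0_lc.Cu
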