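import Mathlib

/-! A circuit with `s` gates for a family of bilinear forms writes the tensor as a sum of `2 s`
tensors of rank one (Strassen; a known result, used as a control). -/

open MvPolynomial

namespace Pool.Agent.P.MP_e72dc0_lc.LO

variable {F : Type*} [Field F] {I J L : Type}

/-- a polynomial as a function of two vectors -/
noncomputable def ev (f : MvPolynomial (I ⊕ J) F) (x : I → F) (y : J → F) : F :=
  eval (Sum.elim x y) f

lemma ev_inj [Infinite F] {f g : MvPolynomial (I ⊕ J) F} (h : ev f = ev g) : f = g :=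
  MvPolynomial.funext fun z => by
    simpa [ev] using congrFun (congrFun h (z ∘ Sum.inl)) (z ∘ Sum.inr)

/-- first derivative at the origin -/
noncomputable def d1 (a : I ⊕ J) (f : MvPolynomial (I ⊕ J) F) : F := constantCoeff (pderiv a f)

/-- mixed second derivatives at the origin -/
noncomputable def d2 (f : MvPolynomial (I ⊕ J) F) (i : I) (j : J) : F :=
  d1 (.inl i) (pderiv (.inr j) f)

lemma d2_add (u v : MvPolynomial (I ⊕ J) F) : d2 (u + v) = d2 u + d2 v := by
  ext i j
  simp [d2, d1]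

lemma d2_mul (u v : MvPolynomial (I ⊕ J) F) : d2 (u * v) =
    constantCoeff u • d2 v + constantCoeff v • d2 u +
      (fun i j => d1 (.inl i) u * d1 (.inr j) v) + fun i j => d1 (.inl i) v * d1 (.inr j) u := by
  ext i j
  simp [d2, d1]
  ring

lemma d2_X (a : I ⊕ J) : d2 (X a : MvPolynomial (I ⊕ J) F) = 0 := by
  classical
  ext i j
  simp only [d2, d1, pderiv_X, Pi.single_apply]
  split_ifs <;> simp

lemma d2_C (c : F) : d2 (C c : MvPolynomial (I ⊕ J) F) = 0 := by
  ext i j
  simp [d2, d1]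

lemma d2_form [Fintype I] [Fintype J] (M : I → J → F) :
    d2 (∑ i, ∑ j, C (M i j) * X (.inl i) * X (.inr j) : MvPolynomial (I ⊕ J) F) = M := by
  classical
  ext i j
  simp [d2, d1, pderiv_X, Pi.single_apply, apply_ite]

theorem strassen [Infinite F] [Fintype I] [Fintype J] (T : I → J → L → F) (s : ℕ)
    (g : Fin s → (I → F) → (J → F) → F)
    (hg : ∀ t, ∃ u v : (I → F) → (J → F) → F,
      (∀ w, w = u ∨ w = v → (∃ i, w = fun x _ => x i) ∨ (∃ j, w = fun _ y => y j) ∨
        (∃ e, w = fun _ _ => e) ∨ ∃ t' < t, w = g t') ∧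
      ((g t = fun x y => u x y + v x y) ∨ g t = fun x y => u x y * v x y))
    (hout : ∀ k, ∃ t, g t = fun x y => ∑ i, ∑ j, T i j k * x i * y j) :
    ∃ (x : Fin (s + s) → I → F) (y : Fin (s + s) → J → F) (z : Fin (s + s) → L → F),
      T = ∑ t, fun i j k => x t i * y t j * z t k := by
  choose u v hs hop using hg
  have src : ∀ t (P : MvPolynomial (I ⊕ J) F → Prop), (∀ a, P (X a)) → (∀ c, P (C c)) →
      (∀ t' < t, ∃ f, ev f = g t' ∧ P f) → ∀ w, w = u t ∨ w = v t → ∃ f, ev f = w ∧ P f := by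
    intro t P h1 h2 h3 w hw
    rcases hs t w hw with ⟨i, rfl⟩ | ⟨j, rfl⟩ | ⟨e, rfl⟩ | ⟨t', ht, rfl⟩
    · exact ⟨_, by ext; simp [ev], h1 (.inl i)⟩
    · exact ⟨_, by ext; simp [ev], h1 (.inr j)⟩
    · exact ⟨_, by ext; simp [ev], h2 e⟩
    · exact h3 t' ht
  have gate : ∀ t {U V : MvPolynomial (I ⊕ J) F}, ev U = u t → ev V = v t →
      ev (U + V) = g t ∨ ev (U * V) = g t := by
    intro t U V hU hV
    refine (hop t).imp (fun h => ?_) fun h => ?_ <;> rw [h, ← hU, ← hV] <;> ext <;> simp [ev]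
  have h1 : ∀ t, ∃ f, ev f = g t ∧ True := by
    intro t
    induction t using WellFoundedLT.induction with
    | ind t ih =>
      obtain ⟨U, hU, -⟩ := src t _ (fun _ => trivial) (fun _ => trivial) ih _ (.inl rfl)
      obtain ⟨V, hV, -⟩ := src t _ (fun _ => trivial) (fun _ => trivial) ih _ (.inr rfl)
      exact (gate t hU hV).elim (fun h => ⟨_, h, trivial⟩) fun h => ⟨_, h, trivial⟩
  choose U hU _ using fun t =>
    src t _ (fun _ => trivial) (fun _ => trivial) (fun t' _ => h1 t') _ (.inl rfl)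
  choose V hV _ using fun t =>
    src t _ (fun _ => trivial) (fun _ => trivial) (fun t' _ => h1 t') _ (.inr rfl)
  let x : Fin (s + s) → I → F :=
    Fin.append (fun t i => d1 (.inl i) (U t)) fun t i => d1 (.inl i) (V t)
  let y : Fin (s + s) → J → F :=
    Fin.append (fun t j => d1 (.inr j) (V t)) fun t j => d1 (.inr j) (U t)
  let W := Submodule.span F (Set.range fun t i j => x t i * y t j)
  have h2 : ∀ t, ∃ f, ev f = g t ∧ d2 f ∈ W := by
    intro t
    induction t using WellFoundedLT.induction with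
    | ind t ih =>
      have k := src t (fun f => d2 f ∈ W) (fun a => d2_X (F := F) a ▸ W.zero_mem)
        (fun c => d2_C (I := I) (J := J) c ▸ W.zero_mem) ih
      obtain ⟨U', e1, m1⟩ := k _ (.inl rfl)
      obtain ⟨V', e2, m2⟩ := k _ (.inr rfl)
      obtain rfl := ev_inj (e1.trans (hU t).symm)
      obtain rfl := ev_inj (e2.trans (hV t).symm)
      rcases gate t e1 e2 with h | h
      · exact ⟨_, h, d2_add (U t) (V t) ▸ W.add_mem m1 m2⟩
      · refine ⟨_, h, d2_mul (U t) (V t) ▸ W.add_mem (W.add_mem (W.add_mem (W.smul_mem _ m2)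
          (W.smul_mem _ m1)) (Submodule.subset_span ⟨Fin.castAdd s t, ?_⟩))
          (Submodule.subset_span ⟨Fin.natAdd s t, ?_⟩)⟩
        · simp only [x, y, Fin.append_left]
        · simp only [x, y, Fin.append_right]
  have h3 : ∀ k, ∃ c : Fin (s + s) → F,
      ∑ t, c t • (fun i j => x t i * y t j) = fun i j => T i j k := by
    intro k
    obtain ⟨t, ht⟩ := hout k
    obtain ⟨f, e, m⟩ := h2 t
    have : f = ∑ i, ∑ j, C (T i j k) * X (.inl i) * X (.inr j) :=
      ev_inj (by rw [e, ht]; ext; simp [ev])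
    rw [this, d2_form] at m
    exact (Submodule.mem_span_range_iff_exists_fun F).mp m
  choose z hz using h3
  refine ⟨x, y, fun t k => z k t, ?_⟩
  ext i j k
  rw [← congrFun (congrFun (hz k) i) j]
  simp [mul_comm]

theorem strassen_mm [Infinite F] (m s : ℕ)
    (g : Fin s → Matrix (Fin m) (Fin m) F → Matrix (Fin m) (Fin m) F → F)
    (hg : ∀ t, ∃ u v : Matrix (Fin m) (Fin m) F → Matrix (Fin m) (Fin m) F → F,
      (∀ w, w = u ∨ w = v → (∃ i j, w = fun A _ => A i j) ∨ (∃ i j, w = fun _ B => B i j) ∨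
        (∃ e, w = fun _ _ => e) ∨ ∃ t' < t, w = g t') ∧
      ((g t = fun A B => u A B + v A B) ∨ g t = fun A B => u A B * v A B))
    (hout : ∀ i j, ∃ t, g t = fun A B => (A * B) i j) :
    ∃ x y z : Fin (s + s) → Fin m × Fin m → F,
      (fun i j k => if i.2 = j.1 ∧ i.1 = k.1 ∧ j.2 = k.2 then 1 else 0) =
        ∑ t, fun i j k => x t i * y t j * z t k := by
  let r (w : Matrix (Fin m) (Fin m) F → Matrix (Fin m) (Fin m) F → F)
    (x y : Fin m × Fin m → F) : F := w (.of fun a b => x (a, b)) (.of fun a b => y (a, b))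
  refine strassen _ s (fun t => r (g t)) (fun t => ?_) fun k => ?_
  · obtain ⟨u, v, h1, h2⟩ := hg t
    refine ⟨r u, r v, fun w hw => ?_, h2.imp (congrArg r) (congrArg r)⟩
    obtain ⟨w, hw', rfl⟩ : ∃ w', (w' = u ∨ w' = v) ∧ w = r w' :=
      hw.elim (fun h => ⟨u, .inl rfl, h⟩) fun h => ⟨v, .inr rfl, h⟩
    rcases h1 w hw' with ⟨i, j, rfl⟩ | ⟨i, j, rfl⟩ | ⟨e, rfl⟩ | ⟨t', ht, rfl⟩
    · exact .inl ⟨(i, j), rfl⟩
    · exact .inr (.inl ⟨(i, j), rfl⟩)
    · exact .inr (.inr (.inl ⟨e, rfl⟩))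
    · exact .inr (.inr (.inr ⟨t', ht, rfl⟩))
  · obtain ⟨t, ht⟩ := hout k.1 k.2
    refine ⟨t, ?_⟩
    ext x y
    simp [r, ht, Matrix.mul_apply, Fintype.sum_prod_type, ite_and]

lemma rank_sum {A B ι : Type} [Fintype B] (S : Finset ι) (M : ι → Matrix A B F) (ρ : ℕ)
    (h : ∀ t, (M t).rank ≤ ρ) : (∑ t ∈ S, M t).rank ≤ S.card * ρ := by
  classical
  induction S using Finset.induction_on with
  | empty => simp
  | insert a S ha ih =>
    rw [Finset.sum_insert ha, Finset.card_insert_of_notMem ha]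
    have h1 := Submodule.finrank_add_le_finrank_add_finrank (LinearMap.range (M a).mulVecLin)
      (LinearMap.range (∑ t ∈ S, M t).mulVecLin)
    have h2 : LinearMap.range (M a + ∑ t ∈ S, M t).mulVecLin ≤
        LinearMap.range (M a).mulVecLin ⊔ LinearMap.range (∑ t ∈ S, M t).mulVecLin := by
      rw [Matrix.mulVecLin_add]
      exact LinearMap.range_add_le _ _
    have h3 := Submodule.finrank_mono h2
    have h4 := h a
    unfold Matrix.rank at *
    rw [add_mul]
    omega

theorem method [Infinite F] (m p q s : ℕ)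
    (φ : (Fin m × Fin m → Fin m × Fin m → Fin m × Fin m → F) →ₗ[F] Matrix (Fin p) (Fin q) F)
    (ρ : ℕ) (hρ : ∀ x y z : Fin m × Fin m → F, (φ fun i j k => x i * y j * z k).rank ≤ ρ)
    (h : ∃ x y z : Fin (s + s) → Fin m × Fin m → F,
      (fun i j k => if i.2 = j.1 ∧ i.1 = k.1 ∧ j.2 = k.2 then 1 else 0) =
        ∑ t, fun i j k => x t i * y t j * z t k) :
    (φ fun i j k => if i.2 = j.1 ∧ i.1 = k.1 ∧ j.2 = k.2 then 1 else 0).rank ≤ 2 * s * ρ := by
  obtain ⟨x, y, z, h⟩ := h
  rw [h, map_sum]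
  simpa [two_mul] using rank_sum Finset.univ _ ρ fun t => hρ (x t) (y t) (z t)

end Pool.Agent.P.MP_e72dc0_lc.LO
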