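import Pool.Agent.P.MP_e72dc0_lc.CuC
import Pool.Agent.P.MP_e72dc0_lc.Ck.A
import Pool.Agent.P.MP_e72dc0_lc.LOc

/-! The theorem of Cohn, Kleinberg, Szegedy and Umans for arithmetic circuits, and controls. -/

set_option autoImplicit false

namespace Pool.Agent.P.MP_e72dc0_lc.Cu

open Finset Filter Topology

/-- Circuits of size `O((m ^ 2) ^ (w / 2))` for the product of two `m × m` matrices. -/
def Fast (w : ℝ) : Prop :=
  ∃ K : ℝ, ∀ m : ℕ, 1 ≤ m →
    ∃ (s : ℕ) (g : Fin s → (Fin m → Fin m → ℂ) → (Fin m → Fin m → ℂ) → ℂ),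
      (s : ℝ) ≤ K * ((m : ℝ) ^ 2) ^ (w / 2) ∧
      (∀ t, ∃ u : Fin 2 → (Fin m → Fin m → ℂ) → (Fin m → Fin m → ℂ) → ℂ,
        (∀ e, (∃ i j, ∀ x y, u e x y = x i j) ∨ (∃ i j, ∀ x y, u e x y = y i j) ∨
          (∃ c : ℂ, ∀ x y, u e x y = c) ∨ ∃ t' < t, ∀ x y, u e x y = g t' x y) ∧
        ((∀ x y, g t x y = u 0 x y + u 1 x y) ∨ ∀ x y, g t x y = u 0 x y * u 1 x y)) ∧
      ∀ i j : Fin m, ∃ t, ∀ x y, g t x y = ∑ k, x i k * y k j

theorem reach {w : ℝ} (hw : om < w) : ∃ C : ℝ, ∀ (R : Type) [CommRing R] [Algebra ℂ R] (m : ℕ),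
    1 ≤ m → ∃ s : ℕ, (s : ℝ) ≤ C * (m : ℝ) ^ w ∧ Ck.MM R (Fin 1) (Fin m) s := by
  obtain ⟨v, hv, hvw⟩ := exists_between hw
  obtain ⟨C, hC⟩ := mem_of_lt hv
  have h1 := ((tendsto_rpow_atTop (sub_pos.2 hvw)).comp
    tendsto_natCast_atTop_atTop).eventually_gt_atTop C
  obtain ⟨q, hq, hq1⟩ := (h1.and (eventually_ge_atTop 1)).exists
  obtain ⟨P, _, a, b, c, h2, h3⟩ := hC q hq1
  have hq0 : (0 : ℝ) < q := by exact_mod_cast hq1
  have h4 : ((1 * q * q : ℕ) : ℝ) ≤ Fintype.card P :=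
    M.lower (p := 1) ⟨P, _, a, b, c, le_rfl, h3⟩ hq1
  have : Nonempty P := Fintype.card_pos_iff.1 (by
    have : 1 * q * q ≤ Fintype.card P := by exact_mod_cast h4
    nlinarith)
  have : Nonempty (Fin q) := ⟨⟨0, hq1⟩⟩
  refine Ck.MM.all (L := Fin 1) (Q := Fin q) (P := P) ⟨a, b, fun p z => c p (z.1, z.2.2, z.2.1),
    fun x y z => ?_⟩ (ρ := Fintype.card P) (by simp) (by linarith [two_le_om]) (h2.trans_lt ?_)
  · rw [← h3, ← ind_eq]
    refine ind_congr ⟨?_, ?_⟩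
    · rintro ⟨h1, h2, h3, h4, h5⟩
      exact ⟨h1.trans h2, h2, h5.symm, h3, h4⟩
    · rintro ⟨h1, h2, h3, h4, h5⟩
      exact ⟨h1.trans h2.symm, h2, h4, h5, h3.symm⟩
  · rw [Fintype.card_fin, show w = w - v + v by ring, Real.rpow_add hq0]
    exact mul_lt_mul_of_pos_right hq (by positivity)

theorem fast {w : ℝ} (hw : om < w) : Fast w := by
  obtain ⟨K, hK⟩ := reach hw
  refine ⟨K, fun m hm => ?_⟩
  obtain ⟨s, hs, hM⟩ := hK ((Fin m → Fin m → ℂ) → (Fin m → Fin m → ℂ) → ℂ) m hm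
  obtain ⟨s', hs', g, hg, hT⟩ := (hM {u | (∃ i j, ∀ x y, u x y = x i j) ∨
    (∃ i j, ∀ x y, u x y = y i j) ∨ ∃ c : ℂ, ∀ x y, u x y = c}
    (by
      rintro _ ⟨c, rfl⟩
      exact Or.inr (Or.inr ⟨c, fun _ _ => rfl⟩))
    (fun _ i k x _ => x i k) (fun _ k j _ y => y k j)
    (fun _ i k => Or.inl ⟨i, k, fun _ _ => rfl⟩)
    (fun _ k j => Or.inr (Or.inl ⟨k, j, fun _ _ => rfl⟩))).toList
  refine ⟨s', g, ?_, fun t => ?_, fun i j => ?_⟩
  · have e : ((m : ℝ) ^ 2) ^ (w / 2) = (m : ℝ) ^ w := by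
      rw [← Real.rpow_two, ← Real.rpow_mul (by positivity)]
      congr 1
      ring
    rw [e]
    exact le_trans (by exact_mod_cast hs') hs
  · obtain ⟨u, hu, v, hv, e⟩ := hg t
    refine ⟨![u, v], Fin.forall_fin_two.2 ⟨?_, ?_⟩,
      e.imp (fun e x y => by rw [e]; rfl) fun e x y => by rw [e]; rfl⟩
    · rcases hu with (hu | hu | hu) | ⟨t', ht', rfl⟩
      exacts [Or.inl hu, Or.inr (Or.inl hu), Or.inr (Or.inr (Or.inl hu)),
        Or.inr (Or.inr (Or.inr ⟨t', ht', fun _ _ => rfl⟩))]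
    · rcases hv with (hu | hu | hu) | ⟨t', ht', rfl⟩
      exacts [Or.inl hu, Or.inr (Or.inl hu), Or.inr (Or.inr (Or.inl hu)),
        Or.inr (Or.inr (Or.inr ⟨t', ht', fun _ _ => rfl⟩))]
  · have two : ¬ (m : ℂ) * (2 * 2) = 2 := fun e => by
      have h2 : m * (2 * 2) = 2 := by exact_mod_cast e
      omega
    rcases hT ⟨(0, i, j), rfl⟩ with (⟨a, b, hv⟩ | ⟨a, b, hv⟩ | ⟨c, hc⟩) | ⟨t, ht⟩
    · exact absurd (by simpa using hv (fun _ _ => 2) fun _ _ => 2) two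
    · exact absurd (by simpa using hv (fun _ _ => 2) fun _ _ => 2) two
    · have h0 := hc (fun _ _ => 0) fun _ _ => 0
      have h1 := hc (fun _ _ => 1) fun _ _ => 1
      simp only [Finset.sum_apply, Pi.mul_apply, sum_const, card_univ, Fintype.card_fin,
        nsmul_eq_mul, mul_zero, mul_one] at h0 h1
      have h2 : m = 0 := by exact_mod_cast h1.trans h0.symm
      omega
    · exact ⟨t, fun x y => by rw [ht]; simp⟩

theorem slow {w : ℝ} (h : Fast w) : om ≤ w := by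
  obtain ⟨K, hK⟩ := h
  refine csInf_le bdd ⟨2 * K, fun m hm => ?_⟩
  obtain ⟨s, g, hs, hg, hout⟩ := hK m hm
  obtain ⟨x, y, z, h⟩ := LO.strassen_mm (F := ℂ) m s g (fun t => by
    obtain ⟨u, hu, e⟩ := hg t
    refine ⟨u 0, u 1, fun p hp => ?_, e.imp (fun e => funext₂ e) fun e => funext₂ e⟩
    obtain ⟨e, rfl⟩ : ∃ e, p = u e := hp.elim (fun h => ⟨0, h⟩) fun h => ⟨1, h⟩
    rcases hu e with ⟨i, j, h⟩ | ⟨i, j, h⟩ | ⟨c, h⟩ | ⟨t', ht', h⟩
    exacts [Or.inl ⟨i, j, funext₂ h⟩, Or.inr (Or.inl ⟨i, j, funext₂ h⟩),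
      Or.inr (Or.inr (Or.inl ⟨c, funext₂ h⟩)), Or.inr (Or.inr (Or.inr ⟨t', ht', funext₂ h⟩))])
    fun i j => (hout i j).imp fun t ht => funext₂ ht
  have e : ((m : ℝ) ^ 2) ^ (w / 2) = (m : ℝ) ^ w := by
    rw [← Real.rpow_two, ← Real.rpow_mul (by positivity)]
    congr 1
    ring
  refine ⟨Fin (s + s), inferInstance, fun l a => x l a.2, fun l a => y l a.2,
    fun l a => z l (a.2.2, a.2.1), ?_, fun a b c => ?_⟩
  · rw [e] at hs
    simp only [Fintype.card_fin, Nat.cast_add]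
    linarith
  · have := congrFun (congrFun (congrFun h a.2) b.2) (c.2.2, c.2.1)
    simp only [Finset.sum_apply] at this
    rw [← this, ← ind_eq]
    refine ind_congr ⟨?_, ?_⟩
    · rintro ⟨-, -, h3, h4, h5⟩
      exact ⟨h3, h5.symm, h4⟩
    · rintro ⟨h3, h4, h5⟩
      exact ⟨Subsingleton.elim _ _, Subsingleton.elim _ _, h3, h5, h4.symm⟩

/-- The simultaneous triple product property. -/
def St {G : Type} [Group G] {ι : Type} (S T U : ι → Finset G) : Prop :=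
  ∀ i j k, ∀ s ∈ S i, ∀ s' ∈ S j, ∀ t ∈ T j, ∀ t' ∈ T k, ∀ u ∈ U k, ∀ u' ∈ U i,
    s⁻¹ * s' * t⁻¹ * t' * u⁻¹ * u' = 1 → i = j ∧ j = k ∧ s = s' ∧ t = t' ∧ u = u'

/-- The block sizes of the complex group algebra. -/
def Dg (G : Type) [Group G] {κ : Type} (d : κ → ℕ) : Prop :=
  Nonempty (MonoidAlgebra ℂ G ≃ₐ[ℂ] ∀ k, Matrix (Fin (d k)) (Fin (d k)) ℂ)

variable {G : Type} [Group G] {κ : Type} [Fintype κ] {d : κ → ℕ}

theorem method {ι : Type} [Fintype ι] {S T U : ι → Finset G} (hS : St S T U) (hd : Dg G d)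
    {w : ℝ} (hlt : ∀ v, w ≤ v → v ≤ 3 → ∑ k, (d k : ℝ) ^ v <
      ∑ i, (((S i).card * (T i).card * (U i).card : ℕ) : ℝ) ^ (v / 3)) : Fast w :=
  fast (not_le.1 fun h => (hlt om h om_le_three).not_ge (cksu hS hd.some))

theorem exponent (F : ℝ → Prop) (hF : ∀ w, F w ↔ Fast w) : ∃ ω : ℝ, 2 ≤ ω ∧ ω ≤ 3 ∧
    (∀ w, ω < w → F w) ∧ (∀ w, F w → ω ≤ w) ∧
    ∀ (G : Type) [Group G] (ι : Type) [Fintype ι] (S T U : ι → Finset G), St S T U →
    ∀ (κ : Type) [Fintype κ] (d : κ → ℕ), Dg G d →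
      ∑ i, (((S i).card * (T i).card * (U i).card : ℕ) : ℝ) ^ (ω / 3) ≤ ∑ k, (d k : ℝ) ^ ω :=
  ⟨om, two_le_om, om_le_three, fun w h => (hF w).2 (fast h), fun w h => slow ((hF w).1 h),
    fun _ _ _ _ _ _ _ hS _ _ _ hd => cksu hS hd.some⟩

theorem method_one {S T U : Finset G}
    (hS : St (fun _ : Fin 1 => S) (fun _ => T) (fun _ => U)) (hd : Dg G d) {w : ℝ} (hw : 0 < w)
    (hlt : ∑ k, (d k : ℝ) ^ w < ((S.card * T.card * U.card : ℕ) : ℝ) ^ (w / 3)) : Fast w := by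
  refine method hS hd fun v hv _ => ?_
  rw [Fin.sum_univ_one]
  generalize S.card * T.card * U.card = n at hlt
  have e : ∀ v : ℝ, (n : ℝ) ^ (v / 3) = ((n : ℝ) ^ (1 / 3 : ℝ)) ^ v := fun v => by
    rw [← Real.rpow_mul (Nat.cast_nonneg _)]
    congr 1
    ring
  rw [e] at hlt ⊢
  have h0 : 0 ≤ (n : ℝ) ^ (1 / 3 : ℝ) := by positivity
  generalize (n : ℝ) ^ (1 / 3 : ℝ) = a at hlt h0
  have h1 : ∀ k, (d k : ℝ) < a := fun k => (Real.rpow_lt_rpow_iff (Nat.cast_nonneg _) h0 hw).1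
    ((single_le_sum (f := fun k => (d k : ℝ) ^ w) (fun _ _ => by positivity)
      (mem_univ k)).trans_lt hlt)
  have ha : 0 < a := h0.lt_of_ne (by
    rintro rfl
    rw [Real.zero_rpow hw.ne'] at hlt
    exact hlt.not_ge (by positivity))
  calc ∑ k, (d k : ℝ) ^ v ≤ ∑ k, (d k : ℝ) ^ w * a ^ (v - w) := sum_le_sum fun k _ => by
        rw [show v = w + (v - w) by ring, Real.rpow_add_of_nonneg (Nat.cast_nonneg _) hw.le
          (by linarith), add_sub_cancel_left]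
        exact mul_le_mul_of_nonneg_left
          (Real.rpow_le_rpow (Nat.cast_nonneg _) (h1 k).le (by linarith)) (by positivity)
    _ < a ^ w * a ^ (v - w) := by
        rw [← sum_mul]
        exact mul_lt_mul_of_pos_right hlt (by positivity)
    _ = a ^ v := by rw [← Real.rpow_add ha, add_sub_cancel]

theorem degrees_exist (G : Type) [Group G] [Finite G] : ∃ (n : ℕ) (d : Fin n → ℕ), Dg G d := by
  have : NeZero (Nat.card G : ℂ) := ⟨by exact_mod_cast Nat.card_pos.ne'⟩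
  obtain ⟨n, d, -, h⟩ :=
    IsSemisimpleRing.exists_algEquiv_pi_matrix_of_isAlgClosed ℂ (MonoidAlgebra ℂ G)
  exact ⟨n, d, h⟩

theorem degrees_sum [Fintype G] (h : Dg G d) : ∑ k, d k ^ 2 = Fintype.card G := by
  obtain ⟨e⟩ := h
  have := e.toLinearEquiv.finrank_eq
  rw [Module.finrank_pi_fintype] at this
  simp only [Module.finrank_matrix, Fintype.card_fin, Module.finrank_self, mul_one] at this
  rw [Module.finrank_eq_card_basis (MonoidAlgebra.basis G ℂ)] at this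
  simp only [sq, this]

omit [Fintype κ] in
theorem degrees_comm {G : Type} [CommGroup G] (h : Dg G d) (k : κ) : d k ≤ 1 := by
  classical
  obtain ⟨e⟩ := h
  by_contra hk
  have h1 : 1 < d k := not_le.1 hk
  have h0 : 0 < d k := zero_lt_one.trans h1
  have hc : ∀ X Y : ∀ k, Matrix (Fin (d k)) (Fin (d k)) ℂ, X * Y = Y * X := fun X Y => by
    apply e.symm.injective
    rw [map_mul, map_mul, mul_comm]
  have := congrFun (congrFun (congrFun (hc (Pi.single k (Matrix.single ⟨0, h0⟩ ⟨1, h1⟩ 1))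
    (Pi.single k (Matrix.single ⟨1, h1⟩ ⟨0, h0⟩ 1))) k) ⟨0, h0⟩) ⟨0, h0⟩
  simp at this

theorem control : ∃ (S T U : Fin 2 → Finset (Multiplicative (ZMod 16 × ZMod 16 × ZMod 16)))
    (n : ℕ) (d : Fin n → ℕ), St S T U ∧ Dg (Multiplicative (ZMod 16 × ZMod 16 × ZMod 16)) d ∧
    ∀ v : ℝ, 17 / 6 ≤ v → ∑ k, (d k : ℝ) ^ v <
      ∑ i, (((S i).card * (T i).card * (U i).card : ℕ) : ℝ) ^ (v / 3) := by
  obtain ⟨n, d, hd⟩ := degrees_exist (Multiplicative (ZMod 16 × ZMod 16 × ZMod 16))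
  let f : Fin 3 → ZMod 16 → Multiplicative (ZMod 16 × ZMod 16 × ZMod 16) :=
    ![fun x => .ofAdd (x, 0, 0), fun x => .ofAdd (0, x, 0), fun x => .ofAdd (0, 0, x)]
  let H : Fin 3 → Finset (Multiplicative (ZMod 16 × ZMod 16 × ZMod 16)) := fun a =>
    (univ.erase 0).image (f a)
  have cH : ∀ a, (H a).card = 15 := by decide +kernel
  refine ⟨![H 0, H 1], ![H 1, H 2], ![H 2, H 0], n, d, ?_, hd, fun v hv => ?_⟩
  · intro i j k s hs s' hs' t ht t' ht' u hu u' hu' e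
    have e' := congrArg Multiplicative.toAdd e
    fin_cases i <;> fin_cases j <;> fin_cases k <;>
      simp only [H, f, mem_image, mem_erase, mem_univ, and_true, Fin.zero_eta, Fin.mk_one,
        Matrix.cons_val_zero, Matrix.cons_val_one, Matrix.cons_val] at hs hs' ht ht' hu hu' <;>
      obtain ⟨s, hs, rfl⟩ := hs <;> obtain ⟨s', hs', rfl⟩ := hs' <;>
      obtain ⟨t, ht, rfl⟩ := ht <;> obtain ⟨t', ht', rfl⟩ := ht' <;>
      obtain ⟨u, hu, rfl⟩ := hu <;> obtain ⟨u', hu', rfl⟩ := hu' <;>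
      simp [neg_add_eq_zero, hs, hs', ht, ht', hu, hu'] at e' <;> simp [e']
  · have e1 : ∑ k, (d k : ℝ) ^ v = 4096 := by
      have h1 := degrees_sum hd
      have h2 : ∑ k, (d k : ℝ) ^ v = ((∑ k, d k ^ 2 : ℕ) : ℝ) := by
        push_cast
        refine sum_congr rfl fun k _ => ?_
        rcases Nat.le_one_iff_eq_zero_or_eq_one.1 (degrees_comm hd k) with h | h <;> rw [h]
        · simpa using Real.zero_rpow (show v ≠ 0 by linarith)
        · simp
      rw [h2, h1]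
      simp
    have e2 : (2048 : ℝ) < 3375 ^ ((17 / 6 : ℝ) / 3) := by
      refine lt_of_pow_lt_pow_left₀ 18 (by positivity) ?_
      rw [← Real.rpow_natCast ((3375 : ℝ) ^ _), ← Real.rpow_mul (by norm_num)]
      norm_num
    have e3 : (3375 : ℝ) ^ ((17 / 6 : ℝ) / 3) ≤ 3375 ^ (v / 3) :=
      Real.rpow_le_rpow_of_exponent_le (by norm_num) (by linarith)
    rw [e1, Fin.sum_univ_two]
    simp only [Matrix.cons_val_zero, Matrix.cons_val_one, cH]
    norm_num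
    linarith

theorem St.map {H : Type} [Group H] (e : G ≃* H) {ι : Type} {S T U : ι → Finset G}
    (h : St S T U) : St (fun i => (S i).map e.toEquiv.toEmbedding)
      (fun i => (T i).map e.toEquiv.toEmbedding) fun i => (U i).map e.toEquiv.toEmbedding := by
  intro i j k s hs s' hs' t ht t' ht' u hu u' hu' H
  simp only [mem_map_equiv] at hs hs' ht ht' hu hu'
  have := h i j k _ hs _ hs' _ ht _ ht' _ hu _ hu' (by
    simpa using congrArg e.symm H)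
  simpa using this

omit [Fintype κ] in
theorem Dg.map {H : Type} [Group H] (e : G ≃* H) (h : Dg G d) : Dg H d :=
  ⟨(MonoidAlgebra.domCongr ℂ ℂ e.symm).trans h.some⟩

/-- A subgroup of `G` is isomorphic to the corresponding subgroup of `Fin 1 → G`. -/
def oneEquiv (H : Subgroup G) :
    H ≃* H.comap (Pi.evalMonoidHom (fun _ : Fin 1 => G) 0) where
  toFun x := ⟨fun _ => x.1, x.2⟩
  invFun x := ⟨x.1 0, x.2⟩
  left_inv _ := rfl
  right_inv x := Subtype.ext (funext fun i => by rw [Subsingleton.elim i 0])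
  map_mul' _ _ := rfl

end Pool.Agent.P.MP_e72dc0_lc.Cu
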