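import Pool.Agent.P.MP_e72dc0_lc.Sparse

/-! Hessians and logarithmic Hessians of the nodes of a circuit. -/

namespace Pool.Agent.P.MP_e72dc0_lc

open Finset MvPolynomial

variable {F : Type*} [Field F] {σ : Type*}

/-- the field of rational functions -/
abbrev KK (σ F : Type*) [Field F] := FractionRing (MvPolynomial σ F)

noncomputable def emb (g : MvPolynomial σ F) : KK σ F := algebraMap (MvPolynomial σ F) (KK σ F) g

noncomputable def grad (g : MvPolynomial σ F) (x : σ) : KK σ F := emb (pderiv x g)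

noncomputable def hess (g : MvPolynomial σ F) (x y : σ) : KK σ F := emb (pderiv x (pderiv y g))

noncomputable def lhess (g : MvPolynomial σ F) (x y : σ) : KK σ F :=
  emb g * hess g x y - grad g x * grad g y

lemma emb_add (g h : MvPolynomial σ F) : emb (g + h) = emb g + emb h := map_add _ _ _
lemma emb_mul (g h : MvPolynomial σ F) : emb (g * h) = emb g * emb h := map_mul _ _ _
lemma emb_zero : emb (0 : MvPolynomial σ F) = 0 := map_zero _
lemma emb_one : emb (1 : MvPolynomial σ F) = 1 := map_one _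
lemma emb_eq_zero {g : MvPolynomial σ F} : emb g = 0 ↔ g = 0 :=
  map_eq_zero_iff _ (IsFractionRing.injective _ _)

lemma grad_add (g h : MvPolynomial σ F) (x : σ) : grad (g + h) x = grad g x + grad h x := by
  simp [grad, emb_add]

lemma grad_mul (g h : MvPolynomial σ F) (x : σ) :
    grad (g * h) x = emb g * grad h x + emb h * grad g x := by
  simp [grad, emb_add, emb_mul, Derivation.leibniz]

lemma hess_add (g h : MvPolynomial σ F) (x y : σ) :
    hess (g + h) x y = hess g x y + hess h x y := by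
  simp [hess, emb_add]

lemma hess_mul (g h : MvPolynomial σ F) (x y : σ) :
    hess (g * h) x y = emb g * hess h x y + emb h * hess g x y
      + (grad g x * grad h y + grad h x * grad g y) := by
  simp only [hess, grad, Derivation.leibniz, smul_eq_mul, map_add, emb_add, emb_mul]
  ring

lemma grad_C (c : F) (x : σ) : grad (C c : MvPolynomial σ F) x = 0 := by
  simp [grad, emb_zero]

lemma hess_C (c : F) (x y : σ) : hess (C c : MvPolynomial σ F) x y = 0 := by
  simp [hess, emb_zero]

lemma grad_X [DecidableEq σ] (z x : σ) :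
    grad (X z : MvPolynomial σ F) x = if z = x then 1 else 0 := by
  unfold grad
  rw [pderiv_X]
  by_cases h : z = x
  · simp [h, emb_one]
  · simp [h, emb_zero]

lemma hess_X (z x y : σ) : hess (X z : MvPolynomial σ F) x y = 0 := by
  classical
  unfold hess
  rw [pderiv_X]
  by_cases h : z = y
  · simp [h, emb_zero]
  · simp [h, emb_zero]

lemma lhess_mul (g h : MvPolynomial σ F) (x y : σ) :
    lhess (g * h) x y = emb h ^ 2 * lhess g x y + emb g ^ 2 * lhess h x y := by
  simp only [lhess, hess_mul, grad_mul, emb_mul]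
  ring

lemma lhess_add (u v : MvPolynomial σ F) (x y : σ) :
    emb u * emb v * lhess (u + v) x y = emb (u + v) * emb v * lhess u x y
      + emb (u + v) * emb u * lhess v x y
      + (emb u * grad v x - emb v * grad u x) * (emb u * grad v y - emb v * grad u y) := by
  simp only [lhess, hess_add, grad_add, emb_add]
  ring

/-- induction over the nodes of a circuit -/
lemma node_ind {s : ℕ} (g : Fin s → MvPolynomial σ F) (P : MvPolynomial σ F → Prop)
    (hX : ∀ x, P (X x)) (hC : ∀ c, P (C c)) (u v : Fin s → MvPolynomial σ F)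
    (hu : ∀ t, u t ∈ Set.range X ∪ Set.range C ∪ g '' Set.Iio t)
    (hv : ∀ t, v t ∈ Set.range X ∪ Set.range C ∪ g '' Set.Iio t)
    (hstep : ∀ t, P (u t) → P (v t) → P (g t)) :
    ∀ f ∈ Set.range X ∪ Set.range C ∪ Set.range g, P f := by
  have main : ∀ t, P (g t) := by
    intro t
    induction t using WellFoundedLT.induction with
    | _ t ih =>
      have aux : ∀ f ∈ Set.range X ∪ Set.range C ∪ g '' Set.Iio t, P f := by
        rintro f ((⟨x, rfl⟩ | ⟨c, rfl⟩) | ⟨t', ht', rfl⟩)
        · exact hX x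
        · exact hC c
        · exact ih t' ht'
      exact hstep t (aux _ (hu t)) (aux _ (hv t))
  rintro f ((⟨x, rfl⟩ | ⟨c, rfl⟩) | ⟨t, rfl⟩)
  · exact hX x
  · exact hC c
  · exact main t

/-- Every nonscalar product contributes one symmetric matrix of rank at most two. -/
theorem hess_span {s : ℕ} (g : Fin s → MvPolynomial σ F) (M : Finset (Fin s))
    (hg : ∀ t, ∃ u ∈ Set.range X ∪ Set.range C ∪ g '' Set.Iio t,
      ∃ v ∈ Set.range X ∪ Set.range C ∪ g '' Set.Iio t,
        g t = u + v ∨ (∃ c : F, g t = C c * u) ∨ (t ∈ M ∧ g t = u * v)) :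
    ∃ y z : M → σ → KK σ F, ∀ f ∈ Set.range X ∪ Set.range C ∪ Set.range g,
      ∃ w : M → KK σ F, ∀ a b, hess f a b = ∑ t, w t * (y t a * z t b + z t a * y t b) := by
  classical
  choose u hu v hv huv using hg
  refine ⟨fun t => grad (u t), fun t => grad (v t), ?_⟩
  refine node_ind g (fun f => ∃ w : M → KK σ F, ∀ a b, hess f a b
    = ∑ t, w t * (grad (u t) a * grad (v t) b + grad (v t) a * grad (u t) b))
    ?hX ?hC u v hu hv ?step
  rotate_left 2
  · rintro t ⟨w₁, h₁⟩ ⟨w₂, h₂⟩
    rcases huv t with h | ⟨c, h⟩ | ⟨ht, h⟩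
    · refine ⟨w₁ + w₂, fun a b => ?_⟩
      rw [h, hess_add, h₁, h₂, ← Finset.sum_add_distrib]
      apply Finset.sum_congr rfl; intro i _; simp only [Pi.add_apply]; ring
    · refine ⟨fun i => emb (C c : MvPolynomial σ F) * w₁ i, fun a b => ?_⟩
      rw [h, hess_mul, h₁, hess_C, grad_C, grad_C, Finset.mul_sum]
      simp only [mul_zero, zero_mul, add_zero]
      apply Finset.sum_congr rfl; intro i _; ring
    · refine ⟨fun i => emb (u t) * w₂ i + emb (v t) * w₁ i + if i = ⟨t, ht⟩ then 1 else 0,
        fun a b => ?_⟩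
      rw [h, hess_mul, h₁, h₂]
      simp only [add_mul, Finset.sum_add_distrib, ite_mul, one_mul, zero_mul, Finset.sum_ite_eq',
        mem_univ, if_true, Finset.mul_sum, mul_assoc]
  · intro x; exact ⟨0, fun a b => by simp [hess_X]⟩
  · intro c; exact ⟨0, fun a b => by simp [hess_C]⟩

/-- Every addition contributes one square to the logarithmic Hessian, up to diagonal terms. -/
theorem lhess_span [DecidableEq σ] {s : ℕ} (g : Fin s → MvPolynomial σ F) (A : Finset (Fin s))
    (hg : ∀ t, ∃ u ∈ Set.range X ∪ Set.range C ∪ g '' Set.Iio t,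
      ∃ v ∈ Set.range X ∪ Set.range C ∪ g '' Set.Iio t,
        g t = u * v ∨ (t ∈ A ∧ g t = u + v)) :
    ∃ y : A → σ → KK σ F, ∀ f ∈ Set.range X ∪ Set.range C ∪ Set.range g,
      ∃ (w : A → KK σ F) (d : σ → KK σ F), ∀ a b,
        lhess f a b = ∑ t, w t * (y t a * y t b) + if a = b then d a else 0 := by
  choose u hu v hv huv using hg
  refine ⟨fun t a => emb (u t) * grad (v t) a - emb (v t) * grad (u t) a, ?_⟩
  refine node_ind g (fun f => ∃ (w : A → KK σ F) (d : σ → KK σ F), ∀ a b, lhess f a b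
    = ∑ t, w t * ((emb (u t) * grad (v t) a - emb (v t) * grad (u t) a)
      * (emb (u t) * grad (v t) b - emb (v t) * grad (u t) b)) + if a = b then d a else 0)
    ?hX ?hC u v hu hv ?step
  rotate_left 2
  · rintro t ⟨w₁, d₁, h₁⟩ ⟨w₂, d₂, h₂⟩
    rcases huv t with h | ⟨ht, h⟩
    · refine ⟨fun i => emb (v t) ^ 2 * w₁ i + emb (u t) ^ 2 * w₂ i,
        fun a => emb (v t) ^ 2 * d₁ a + emb (u t) ^ 2 * d₂ a, fun a b => ?_⟩
      rw [h, lhess_mul, h₁, h₂]
      simp only [add_mul, Finset.sum_add_distrib, mul_add, Finset.mul_sum, mul_assoc]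
      split_ifs <;> ring
    · by_cases hu0 : u t = 0
      · refine ⟨w₂, d₂, fun a b => ?_⟩
        rw [h, hu0, zero_add, h₂]
      by_cases hv0 : v t = 0
      · refine ⟨w₁, d₁, fun a b => ?_⟩
        rw [h, hv0, add_zero, h₁]
      have hu1 : emb (u t) ≠ 0 := fun h => hu0 (emb_eq_zero.mp h)
      have hv1 : emb (v t) ≠ 0 := fun h => hv0 (emb_eq_zero.mp h)
      set α := emb (u t + v t) / emb (u t) with hα
      set β := emb (u t + v t) / emb (v t) with hβ
      set γ := 1 / (emb (u t) * emb (v t)) with hγ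
      refine ⟨fun i => α * w₁ i + β * w₂ i + if i = ⟨t, ht⟩ then γ else 0,
        fun a => α * d₁ a + β * d₂ a, fun a b => ?_⟩
      have key : lhess (u t + v t) a b = α * lhess (u t) a b + β * lhess (v t) a b
          + γ * ((emb (u t) * grad (v t) a - emb (v t) * grad (u t) a)
            * (emb (u t) * grad (v t) b - emb (v t) * grad (u t) b)) := by
        have := lhess_add (u t) (v t) a b
        rw [hα, hβ, hγ]
        field_simp
        linear_combination this
      rw [h, key, h₁, h₂]
      simp only [add_mul, Finset.sum_add_distrib, ite_mul, zero_mul, Finset.sum_ite_eq',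
        mem_univ, if_true, Finset.mul_sum, mul_assoc, mul_add]
      split_ifs <;> ring
  · intro x
    refine ⟨0, fun a => if x = a then -1 else 0, fun a b => ?_⟩
    simp only [lhess, hess_X, grad_X, Pi.zero_apply, zero_mul, Finset.sum_const_zero]
    by_cases h1 : a = b
    · subst h1; by_cases h2 : x = a <;> simp [h2]
    · by_cases h2 : x = a
      · subst h2; simp [h1]
      · simp [h1, h2]
  · intro c
    exact ⟨0, 0, fun a b => by simp [lhess, hess_C, grad_C]⟩

/-- the entries of the product of two generic matrices -/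
noncomputable def cc (F : Type*) [Field F] {m : ℕ} (i j : Fin m) :
    MvPolynomial ((Fin m × Fin m) ⊕ (Fin m × Fin m)) F :=
  ∑ k, X (Sum.inl (i, k)) * X (Sum.inr (k, j))

/-- Hessian of the form `trace (Z^T A B)` -/
def mmH {K : Type*} [Field K] {I J κ : Type*} [DecidableEq κ] (Z : I → J → K) :
    (I × κ) ⊕ (κ × J) → (I × κ) ⊕ (κ × J) → K
  | Sum.inl (i, k), Sum.inr (k', j) => if k = k' then Z i j else 0
  | Sum.inr (k', j), Sum.inl (i, k) => if k = k' then Z i j else 0
  | Sum.inl _, Sum.inl _ => 0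
  | Sum.inr _, Sum.inr _ => 0

lemma hess_sum {ι : Type*} (s : Finset ι) (f : ι → MvPolynomial σ F) (x y : σ) :
    hess (∑ i ∈ s, f i) x y = ∑ i ∈ s, hess (f i) x y := by
  simp [hess, emb, map_sum]

lemma hess_cc {m : ℕ} (i j : Fin m) (x y : (Fin m × Fin m) ⊕ (Fin m × Fin m)) :
    hess (cc F i j) x y = mmH (fun i' j' => if i' = i ∧ j' = j then 1 else 0) x y := by
  unfold cc
  rw [hess_sum]
  simp only [hess_mul, hess_X, grad_X, mul_zero, zero_add]
  rcases x with ⟨i₁, k₁⟩ | ⟨k₁, j₁⟩ <;> rcases y with ⟨i₂, k₂⟩ | ⟨k₂, j₂⟩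
  · simp [mmH]
  · simp only [mmH, Sum.inl.injEq, Prod.mk.injEq, Sum.inr.injEq, reduceCtorEq, if_false, mul_zero,
      add_zero]
    rw [Finset.sum_eq_single k₁]
    · by_cases h1 : i = i₁ <;> by_cases h2 : k₁ = k₂ <;> by_cases h3 : j = j₂ <;>
        simp [h1, h2, h3, eq_comm]
    · intro b _ hb; simp [hb]
    · simp
  · simp only [mmH, Sum.inl.injEq, Prod.mk.injEq, Sum.inr.injEq, reduceCtorEq, if_false, mul_zero,
      zero_add]
    rw [Finset.sum_eq_single k₂]
    · by_cases h1 : i = i₂ <;> by_cases h2 : k₂ = k₁ <;> by_cases h3 : j = j₁ <;>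
        simp [h1, h2, h3, eq_comm]
    · intro b _ hb; simp [hb]
    · simp
  · simp [mmH]

lemma cc_ne_zero {m : ℕ} (i j : Fin m) : cc F i j ≠ 0 := by
  intro h
  have h1 := hess_cc (F := F) i j (Sum.inl (i, i)) (Sum.inr (i, j))
  rw [h] at h1
  simp [hess, emb_zero, mmH] at h1

end Pool.Agent.P.MP_e72dc0_lc
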