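import Pool.Agent.P.MP_e72dc0_lc.LOk

/-! The flattening of Landsberg and Ottaviani as one linear map to matrices (a known result, used
as a control). -/

open Finset Matrix

namespace Pool.Agent.P.MP_e72dc0_lc.LO

variable {K : Type*} [Field K] {I J L : Type} [Fintype I] [Fintype J]

/-- subsets of size `q` of the first `N` numbers -/
abbrev Sub (N q : ℕ) := {S // S ∈ (range N).powersetCard q}

/-- the Koszul flattening after the projection `e i ↦ e (h i)` of the first factor -/
def kos (K : Type*) [Field K] (J L : Type) (p : ℕ) (h : I → ℕ) :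
    (I → J → L → K) →ₗ[K] Matrix (L × Sub (2 * p + 1) (p + 1)) (J × Sub (2 * p + 1) p) K where
  toFun T := of fun r c =>
    ∑ i, T i c.1 r.1 * cre (h i) (fun S => if S = c.2.1 then 1 else 0) r.2.1
  map_add' T T' := by
    ext r c
    simp [add_mul, Finset.sum_add_distrib]
  map_smul' a T := by
    ext r c
    simp [Finset.mul_sum, mul_assoc]

lemma cre_ext0 (N q l : ℕ) (f : Sub N q → K) (T : Finset ℕ) :
    cre l (ext0 N q f) T = ∑ S, f S * cre l (fun S' => if S' = S.1 then 1 else 0) T := by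
  rw [← cre_sum]
  congr 1
  funext S
  unfold ext0
  split_ifs with hS
  · rw [Finset.sum_eq_single ⟨S, hS⟩]
    · simp
    · intro b _ hb
      rw [if_neg (fun e => hb (Subtype.ext e.symm)), mul_zero]
    · simp
  · refine (Finset.sum_eq_zero fun b _ => ?_).symm
    rw [if_neg (fun e : S = b.1 => hS (e ▸ b.2)), mul_zero]

lemma kos_mulVec (p : ℕ) (h : I → ℕ) (T : I → J → L → K) (f : J × Sub (2 * p + 1) p → K)
    (r : L × Sub (2 * p + 1) (p + 1)) :
    (kos K J L p h T *ᵥ f) r =
      ∑ i, ∑ j, T i j r.1 * cre (h i) (ext0 (2 * p + 1) p fun S => f (j, S)) r.2.1 := by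
  simp only [mulVec, dotProduct, kos, LinearMap.coe_mk, AddHom.coe_mk, Fintype.sum_prod_type,
    of_apply, cre_ext0, Finset.sum_mul, Finset.mul_sum]
  rw [Finset.sum_comm (s := (univ : Finset I))]
  refine Finset.sum_congr rfl fun j _ => ?_
  rw [Finset.sum_comm]
  refine Finset.sum_congr rfl fun i _ => Finset.sum_congr rfl fun S _ => by ring

lemma kos_one (p : ℕ) (h : I → ℕ) (hh : ∀ i, h i < 2 * p + 1) (x : I → K) (y : J → K) (z : L → K)
    (f : J × Sub (2 * p + 1) p → K) (r : L × Sub (2 * p + 1) (p + 1)) :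
    (kos K J L p h (fun i j k => x i * y j * z k) *ᵥ f) r =
      z r.1 * wedge (2 * p + 1) (fun l => ∑ i with h i = l, x i)
        (fun S => ∑ j, y j * ext0 (2 * p + 1) p (fun S => f (j, S)) S) r.2.1 := by
  rw [kos_mulVec, wedge, ← Finset.sum_fiberwise_of_maps_to (t := range (2 * p + 1)) (g := h)
    (fun i _ => mem_range.mpr (hh i)), Finset.mul_sum]
  refine Finset.sum_congr rfl fun l _ => ?_
  rw [cre_sum, Finset.sum_mul, Finset.mul_sum]
  refine Finset.sum_congr rfl fun i hi => ?_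
  rw [(mem_filter.mp hi).2, Finset.mul_sum, Finset.mul_sum]
  exact Finset.sum_congr rfl fun j _ => by ring

lemma rank_le_of_ker {A B C : Type} [Fintype C] (M : Matrix A C K) (N : Matrix B C K)
    (h : ∀ f, N *ᵥ f = 0 → M *ᵥ f = 0) : M.rank ≤ N.rank := by
  have h1 := M.mulVecLin.finrank_range_add_finrank_ker
  have h2 := N.mulVecLin.finrank_range_add_finrank_ker
  have h3 : LinearMap.ker N.mulVecLin ≤ LinearMap.ker M.mulVecLin := fun f hf => h f hf
  have h4 := Submodule.finrank_mono h3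
  unfold Matrix.rank
  omega

lemma rank_one (p : ℕ) (h : I → ℕ) (hh : ∀ i, h i < 2 * p + 1) (x : I → K) (y : J → K)
    (z : L → K) : (kos K J L p h fun i j k => x i * y j * z k).rank ≤ (2 * p).choose p := by
  set w : ℕ → K := fun l => ∑ i with h i = l, x i with hw
  obtain ⟨j, hj, hwj⟩ : ∃ j, j < 2 * p + 1 ∧ (w j ≠ 0 ∨ ∀ l, l < 2 * p + 1 → w l = 0) := by
    by_cases h0 : ∀ l, l < 2 * p + 1 → w l = 0
    · exact ⟨0, by omega, Or.inr h0⟩
    · push Not at h0
      obtain ⟨l, hl, hne⟩ := h0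
      exact ⟨l, hl, Or.inl hne⟩
  refine (rank_le_of_ker _ ((kos K J Unit p h fun i j _ => x i * y j * 1).submatrix
    (fun T : {T // T ∈ ((range (2 * p + 1)).powersetCard (p + 1)).filter (j ∈ ·)} =>
      ((), ⟨T.1, (mem_filter.mp T.2).1⟩)) id) fun f hf => ?_).trans
    ((rank_le_card_height _).trans (by simpa only [Fintype.card_coe] using card_through p j hj))
  funext r
  rw [kos_one p h hh, Pi.zero_apply]
  refine mul_eq_zero_of_right _ ?_
  rcases hwj with h1 | h1
  · refine wedge_eq_zero_of _ _ _ j hj h1 (fun T hT => ?_) _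
    by_contra hne
    have h2 := wedge_supp (q := p) w (fun S hS => ?_) T hne
    · have h3 := congrFun hf ⟨T, mem_filter.mpr ⟨h2, hT⟩⟩
      have h4 := kos_one p h hh x y (fun _ : Unit => (1 : K)) f ((), ⟨T, h2⟩)
      rw [one_mul] at h4
      exact hne (h4.symm.trans h3)
    · obtain ⟨v, _, hv⟩ := Finset.exists_ne_zero_of_sum_ne_zero hS
      exact ext0_supp _ _ _ S (right_ne_zero_of_mul hv)
  · exact Finset.sum_eq_zero fun l hl => mul_eq_zero_of_left (h1 l (mem_range.mp hl)) _

lemma cre_supp {N q l : ℕ} (hl : l < N) {ω : Finset ℕ → K} (h : Supp N q ω) :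
    Supp N (q + 1) (cre l ω) := by
  intro T hT
  refine wedge_supp (fun a => if a = l then 1 else 0) h T ?_
  simpa [wedge, hl] using hT

lemma rank_mm (p : ℕ) :
    (kos K (Fin (p + 1) × Fin (p + 1)) (Fin (p + 1) × Fin (p + 1)) p
      (fun i : Fin (p + 1) × Fin (p + 1) => i.2.val + i.1.val)
      fun i j k => if i.2 = j.1 ∧ i.1 = k.1 ∧ j.2 = k.2 then 1 else 0).rank =
      (2 * (p + 1) ^ 2 - (p + 1)) * (2 * p).choose p := by
  rw [Matrix.rank, LinearMap.finrank_range_of_inj]
  · have h1 := Nat.add_one_mul_choose_eq (2 * p) p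
    rw [Nat.choose_symm_half p] at h1
    have e : 2 * (p + 1) ^ 2 - (p + 1) = (p + 1) * (2 * p + 1) :=
      Nat.sub_eq_of_eq_add (by ring)
    rw [e, mul_assoc, h1]
    simp only [Module.finrank_fintype_fun_eq_card, Fintype.card_prod, Fintype.card_fin,
      Fintype.card_coe, card_powersetCard, card_range]
    ring
  · rw [injective_iff_map_eq_zero]
    intro f hf
    funext ⟨⟨a, c⟩, S⟩
    have key := hankel p (fun a => ext0 (2 * p + 1) p fun S => f ((a, c), S))
      (fun a => ext0_supp _ _ _) (fun b T => ?_) a S.1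
    · simpa [ext0, S.2] using key
    · by_contra hne
      obtain ⟨v, _, hv⟩ := Finset.exists_ne_zero_of_sum_ne_zero hne
      have hT := cre_supp (by omega) (ext0_supp _ _ _) T hv
      have h1 := congrFun hf ((b, c), ⟨T, hT⟩)
      rw [mulVecLin_apply, kos_mulVec] at h1
      apply hne
      rw [← h1.trans (Pi.zero_apply _)]
      simp [Fintype.sum_prod_type, ite_and]

lemma exists_fin {V A B : Type*} [AddCommGroup V] [Module K V] [Fintype A] [Fintype B]
    (ψ : V →ₗ[K] Matrix A B K) : ∃ (p q : ℕ) (φ : V →ₗ[K] Matrix (Fin p) (Fin q) K),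
    ∀ T, (φ T).rank = (ψ T).rank :=
  ⟨_, _, (reindexLinearEquiv K K (Fintype.equivFin A) (Fintype.equivFin B)).toLinearMap ∘ₗ ψ,
    fun T => rank_reindex (Fintype.equivFin A) (Fintype.equivFin B) (ψ T)⟩

/-- The map of Landsberg and Ottaviani. -/
theorem sharp (K : Type*) [Field K] (m : ℕ) : ∃ (p q ρ : ℕ)
    (φ : (Fin m × Fin m → Fin m × Fin m → Fin m × Fin m → K) →ₗ[K] Matrix (Fin p) (Fin q) K),
    0 < ρ ∧ (∀ x y z : Fin m × Fin m → K, (φ fun i j k => x i * y j * z k).rank ≤ ρ) ∧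
    (φ fun i j k => if i.2 = j.1 ∧ i.1 = k.1 ∧ j.2 = k.2 then 1 else 0).rank =
      (2 * m ^ 2 - m) * ρ := by
  rcases m with _ | p
  · exact ⟨0, 0, 1, 0, one_pos, by simp, by simp⟩
  · obtain ⟨a, b, φ, h⟩ := exists_fin (kos K (Fin (p + 1) × Fin (p + 1))
      (Fin (p + 1) × Fin (p + 1)) p fun i : Fin (p + 1) × Fin (p + 1) => i.2.val + i.1.val)
    refine ⟨a, b, (2 * p).choose p, φ, Nat.choose_pos (by omega), fun x y z => ?_, ?_⟩
    · rw [h]
      exact rank_one p _ (fun i => by omega) x y z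
    · rw [h]
      exact rank_mm p

end Pool.Agent.P.MP_e72dc0_lc.LO
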