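import Pool.Agent.P.MP_e72dc0_lc.LO
import Pool.Agent.P.MP_e72dc0_lc.BdDefs

/-! The bound of Landsberg and Ottaviani is a derivation (a known result, used as a control). -/

namespace Pool.Agent.P.MP_e72dc0_lc.LO

open Bd

theorem reach (n : ℕ) : Der (fun i j k : Fin (n * n) =>
    if i.modNat = j.divNat ∧ j.modNat = k.divNat ∧ k.modNat = i.divNat then 1 else 0)
    (2 * n ^ 2 - n) := by
  obtain ⟨p, q, ρ, φ, h0, h1, h2⟩ := sharp ℂ n
  rcases hr : 2 * n ^ 2 - n with _ | r
  · exact Der.zero _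
  let ψ : (Fin (n * n) → Fin (n * n) → Fin (n * n) → ℂ) →ₗ[ℂ]
      (Fin n × Fin n → Fin n × Fin n → Fin n × Fin n → ℂ) :=
    { toFun := fun T i j k =>
        T (finProdFinEquiv i) (finProdFinEquiv j) (finProdFinEquiv (k.2, k.1))
      map_add' := fun _ _ => rfl
      map_smul' := fun _ _ => rfl }
  refine Der.rank _ (φ ∘ₗ ψ) ρ r (fun x y z => h1 (fun i => x (finProdFinEquiv i))
    (fun j => y (finProdFinEquiv j)) fun k => z (finProdFinEquiv (k.2, k.1))) ?_
  have e : ψ (fun i j k : Fin (n * n) =>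
      if i.modNat = j.divNat ∧ j.modNat = k.divNat ∧ k.modNat = i.divNat then 1 else 0) =
      fun i j k => if i.2 = j.1 ∧ i.1 = k.1 ∧ j.2 = k.2 then 1 else 0 := by
    have d : ∀ i : Fin n × Fin n, (finProdFinEquiv i).divNat = i.1 := fun i =>
      congrArg Prod.fst (finProdFinEquiv.symm_apply_apply i)
    have m : ∀ i : Fin n × Fin n, (finProdFinEquiv i).modNat = i.2 := fun i =>
      congrArg Prod.snd (finProdFinEquiv.symm_apply_apply i)
    funext i j k
    change (if _ then _ else _) = _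
    simp only [d, m]
    exact if_congr (by tauto) rfl rfl
  rw [LinearMap.comp_apply, e, h2, hr]
  nlinarith

end Pool.Agent.P.MP_e72dc0_lc.LO
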