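import Pool.Agent.P.MP_e72dc0_lc.LOc
import Pool.Agent.P.MP_e72dc0_lc.BdB

/-! A derivation for the matrix product tensor bounds the size of circuits from below. -/

namespace Pool.Agent.P.MP_e72dc0_lc.LO

open Bd

theorem method_der (n r s : ℕ) (hr : Der (fun i j k : Fin (n * n) =>
      if i.modNat = j.divNat ∧ j.modNat = k.divNat ∧ k.modNat = i.divNat then 1 else 0) r)
    (h : ∃ x y z : Fin (s + s) → Fin n × Fin n → ℂ,
      (fun i j k => if i.2 = j.1 ∧ i.1 = k.1 ∧ j.2 = k.2 then 1 else 0) =
        ∑ t, fun i j k => x t i * y t j * z t k) : r ≤ 2 * s := by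
  obtain ⟨x, y, z, h⟩ := h
  rw [two_mul]
  refine sound hr (s + s) (s + s) (subset_closure ⟨.of fun i t => x t (i.divNat, i.modNat),
    .of fun j t => y t (j.divNat, j.modNat), .of fun k t => z t (k.modNat, k.divNat), ?_⟩)
  ext i j k
  have e := congrFun (congrFun (congrFun h (i.divNat, i.modNat)) (j.divNat, j.modNat))
    (k.modNat, k.divNat)
  simp only [Finset.sum_apply] at e
  refine (if_congr (by tauto) rfl rfl).trans (e.trans ?_)
  simp [res, unit, ite_and]

end Pool.Agent.P.MP_e72dc0_lc.LO
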