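import Mathlib

/-! Koszul flattenings with explicit creation operators (a copy of the first part of the file
`Koszul` of this folder under a new name space, so that no packed file is imported). -/

namespace Pool.Agent.P.MP_e72dc0_lc.LO

open Finset

variable {K : Type*} [Field K]

/-- the sign of `l` in `T` -/
def sgn (K : Type*) [Field K] (l : ℕ) (T : Finset ℕ) : K := (-1) ^ (T.filter (· < l)).card

lemma sgn_ne_zero (l : ℕ) (T : Finset ℕ) : sgn K l T ≠ 0 := by
  unfold sgn; exact pow_ne_zero _ (neg_ne_zero.mpr one_ne_zero)

/-- exterior multiplication by the basis vector `e l` on functions of finite sets -/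
def cre (l : ℕ) (ω : Finset ℕ → K) (T : Finset ℕ) : K :=
  if l ∈ T then sgn K l T * ω (T.erase l) else 0

lemma cre_zero (l : ℕ) (T : Finset ℕ) : cre l (fun _ => (0 : K)) T = 0 := by
  unfold cre; simp

lemma cre_eq_zero_of (l : ℕ) (ω : Finset ℕ → K) (h : ∀ S, ω S = 0) (T : Finset ℕ) :
    cre l ω T = 0 := by
  unfold cre; simp [h]

lemma cre_sum {ι : Type*} (s : Finset ι) (l : ℕ) (c : ι → K) (ω : ι → Finset ℕ → K)
    (T : Finset ℕ) :
    cre l (fun S => ∑ i ∈ s, c i * ω i S) T = ∑ i ∈ s, c i * cre l (ω i) T := by
  unfold cre
  split_ifs
  · rw [Finset.mul_sum]; apply Finset.sum_congr rfl; intro i _; ring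
  · simp

lemma sgn_erase_of_lt {l l' : ℕ} {T : Finset ℕ} (h : l < l') (hl : l ∈ T) :
    sgn K l' (T.erase l) = - sgn K l' T := by
  unfold sgn
  have h1 : (T.erase l).filter (· < l') = (T.filter (· < l')).erase l := by
    ext x; simp only [mem_filter, mem_erase]; tauto
  have h2 : l ∈ T.filter (· < l') := by simp [hl, h]
  rw [h1]
  have h3 := Finset.card_erase_add_one h2
  rw [← h3, pow_succ]; ring

lemma sgn_erase_of_gt {l l' : ℕ} {T : Finset ℕ} (h : l' < l) :
    sgn K l' (T.erase l) = sgn K l' T := by
  unfold sgn
  have h1 : (T.erase l).filter (· < l') = T.filter (· < l') := by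
    ext x; simp only [mem_filter, mem_erase]
    constructor
    · tauto
    · rintro ⟨h1, h2⟩; exact ⟨⟨by omega, h1⟩, h2⟩
  rw [h1]

lemma cre_cre_anti (l l' : ℕ) (ω : Finset ℕ → K) (T : Finset ℕ) :
    cre l (cre l' ω) T + cre l' (cre l ω) T = 0 ∧ cre l (cre l ω) T = 0 := by
  constructor
  · unfold cre
    rcases lt_trichotomy l l' with h | h | h
    · by_cases hl : l ∈ T <;> by_cases hl' : l' ∈ T
      · have a1 : l' ∈ T.erase l := by simp [hl', h.ne']
        have a2 : l ∈ T.erase l' := by simp [hl, h.ne]
        simp only [hl, hl', a1, a2, if_true]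
        rw [sgn_erase_of_lt h hl, sgn_erase_of_gt h, Finset.erase_right_comm]; ring
      · have a1 : l' ∉ T.erase l := by simp [hl']
        simp [hl, hl', a1]
      · have a2 : l ∉ T.erase l' := by simp [hl]
        simp [hl, hl', a2]
      · simp [hl, hl']
    · subst h; simp
    · by_cases hl : l ∈ T <;> by_cases hl' : l' ∈ T
      · have a1 : l' ∈ T.erase l := by simp [hl', h.ne]
        have a2 : l ∈ T.erase l' := by simp [hl, h.ne']
        simp only [hl, hl', a1, a2, if_true]
        rw [sgn_erase_of_lt h hl', sgn_erase_of_gt h, Finset.erase_right_comm]; ring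
      · have a1 : l' ∉ T.erase l := by simp [hl']
        simp [hl, hl', a1]
      · have a2 : l ∉ T.erase l' := by simp [hl]
        simp [hl, hl', a2]
      · simp [hl, hl']
  · unfold cre; simp

/-- exterior multiplication by the vector `w` -/
def wedge (N : ℕ) (w : ℕ → K) (ω : Finset ℕ → K) (T : Finset ℕ) : K :=
  ∑ l ∈ range N, w l * cre l ω T

lemma sum_antisymm_zero (N : ℕ) (f : ℕ → ℕ → K) (h1 : ∀ a b, f a b + f b a = 0)
    (h2 : ∀ a, f a a = 0) : ∑ a ∈ range N, ∑ b ∈ range N, f a b = 0 := by
  induction N with
  | zero => simp
  | succ n ih =>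
    rw [Finset.sum_range_succ]
    simp only [Finset.sum_range_succ]
    rw [Finset.sum_add_distrib, ih, h2, zero_add, add_zero, ← Finset.sum_add_distrib]
    exact Finset.sum_eq_zero (fun a _ => h1 a n)

lemma wedge_wedge (N : ℕ) (w : ℕ → K) (ω : Finset ℕ → K) (T : Finset ℕ) :
    wedge N w (wedge N w ω) T = 0 := by
  have : wedge N w (wedge N w ω) T
      = ∑ a ∈ range N, ∑ b ∈ range N, w a * (w b * cre a (cre b ω) T) := by
    unfold wedge
    apply Finset.sum_congr rfl; intro a _
    rw [cre_sum, Finset.mul_sum]
  rw [this]
  apply sum_antisymm_zero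
  · intro a b
    have := (cre_cre_anti a b ω T).1
    linear_combination (w a * w b) * this
  · intro a
    rw [(cre_cre_anti a a ω T).2]; ring

/-- an element of the image of `wedge w` vanishing on all sets through `j`, where `w j ≠ 0`,
vanishes -/
lemma wedge_eq_zero_of (N : ℕ) (w : ℕ → K) (ω : Finset ℕ → K) (j : ℕ) (hj : j < N)
    (hw : w j ≠ 0) (h : ∀ T, j ∈ T → wedge N w ω T = 0) (T : Finset ℕ) :
    wedge N w ω T = 0 := by
  by_cases hT : j ∈ T
  · exact h T hT
  have h0 := wedge_wedge N w ω (insert j T)
  set η := wedge N w ω with hη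
  unfold wedge at h0
  rw [Finset.sum_eq_single j] at h0
  · unfold cre at h0
    simp only [mem_insert_self, if_true, Finset.erase_insert hT] at h0
    rcases mul_eq_zero.mp h0 with h1 | h1
    · exact absurd h1 hw
    · rcases mul_eq_zero.mp h1 with h2 | h2
      · exact absurd h2 (sgn_ne_zero _ _)
      · exact h2
  · intro b _ hb
    unfold cre
    split_ifs with hb'
    · rw [h _ (by simp [hb.symm])]; ring
    · ring
  · intro hj'; exact absurd (mem_range.mpr hj) hj'

/-- support condition: `ω` lives in degree `q` on the first `N` basis vectors -/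
def Supp (N q : ℕ) (ω : Finset ℕ → K) : Prop :=
  ∀ S, ω S ≠ 0 → S ∈ (range N).powersetCard q

lemma wedge_supp {N q : ℕ} (w : ℕ → K) {ω : Finset ℕ → K} (h : Supp N q ω) :
    Supp N (q + 1) (wedge N w ω) := by
  intro T hT
  unfold wedge at hT
  obtain ⟨l, hl, hne⟩ := Finset.exists_ne_zero_of_sum_ne_zero hT
  have h2 : cre l ω T ≠ 0 := fun h => hne (by rw [h, mul_zero])
  unfold cre at h2
  split_ifs at h2 with hlT
  · have h3 : ω (T.erase l) ≠ 0 := fun h => h2 (by rw [h, mul_zero])
    have h4 := h _ h3
    rw [mem_powersetCard] at h4 ⊢
    constructor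
    · intro x hx
      by_cases hxl : x = l
      · rw [hxl]; exact hl
      · exact h4.1 (by simp [hx, hxl])
    · rw [← h4.2, Finset.card_erase_add_one hlT]
  · exact absurd rfl h2

/-- The Hankel tuple has an injective Koszul flattening. -/
lemma hankel_inj (n : ℕ) : ∀ (u v q : ℕ), u + v = n → q < v →
    ∀ ω : ℕ → Finset ℕ → K, (∀ a, a < u → Supp (u + v - 1) q (ω a)) →
    (∀ b, b < v → ∀ T, ∑ a ∈ range u, cre (a + b) (ω a) T = 0) →
    ∀ a, a < u → ∀ S, ω a S = 0 := by
  induction n with
  | zero => intro u v q h hq; omega
  | succ n ih =>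
    intro u v q huv hq ω hs he
    rcases Nat.eq_zero_or_pos u with hu | hu
    · intro a ha; omega
    set L := u + v - 2 with hL
    -- step 1: no support on sets containing L
    have step1 : ∀ a, a < u → ∀ S, L ∈ S → ω a S = 0 := by
      rcases Nat.eq_zero_or_pos q with hq0 | hq0
      · intro a ha S hS
        by_contra hne
        have := (mem_powersetCard.mp (hs a ha S hne)).2
        rw [hq0, Finset.card_eq_zero] at this
        rw [this] at hS; simp at hS
      · have key := ih u (v - 1) (q - 1) (by omega) (by omega)
          (fun a S => if L ∈ S then 0 else ω a (insert L S)) ?_ ?_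
        · intro a ha S hS
          have := key a ha (S.erase L)
          simpa [Finset.insert_erase hS] using this
        · intro a ha S hS
          have hLS : L ∉ S := by
            intro h; simp [h] at hS
          simp only [hLS, if_false] at hS
          have h4 := mem_powersetCard.mp (hs a ha _ hS)
          rw [mem_powersetCard]
          constructor
          · intro x hx
            have h5 := mem_range.mp (h4.1 (mem_insert_of_mem hx))
            have h6 : x ≠ L := fun h => hLS (h ▸ hx)
            rw [mem_range]; omega
          · have := h4.2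
            rw [Finset.card_insert_of_notMem hLS] at this
            omega
        · intro b hb T
          by_cases hT : L ∈ T
          · apply Finset.sum_eq_zero
            intro a ha
            have ha' := mem_range.mp ha
            unfold cre
            have : L ∈ T.erase (a + b) := by
              rw [mem_erase]; exact ⟨by omega, hT⟩
            simp [this]
          · rw [← he b (by omega) (insert L T)]
            apply Finset.sum_congr rfl
            intro a ha
            have ha' := mem_range.mp ha
            have hlt : a + b < L := by omega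
            unfold cre
            have e1 : (a + b ∈ insert L T) ↔ a + b ∈ T := by
              rw [mem_insert]; constructor
              · rintro (h | h)
                · omega
                · exact h
              · exact Or.inr
            have e2 : L ∉ T.erase (a + b) := fun h => hT (mem_of_mem_erase h)
            have e3 : sgn K (a + b) (insert L T) = sgn K (a + b) T := by
              rw [← sgn_erase_of_gt (K := K) (T := insert L T) hlt, Finset.erase_insert hT]
            have e4 : (insert L T).erase (a + b) = insert L (T.erase (a + b)) := by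
              rw [Finset.erase_insert_of_ne (by omega)]
            simp only [e1, e2, e3, e4, if_false]
    -- step 2: the last component vanishes
    have step2 : ∀ S, ω (u - 1) S = 0 := by
      intro S
      by_cases hS : L ∈ S
      · exact step1 _ (by omega) S hS
      have h0 := he (v - 1) (by omega) (insert L S)
      rw [Finset.sum_eq_single (u - 1)] at h0
      · have e : u - 1 + (v - 1) = L := by omega
        rw [e] at h0
        unfold cre at h0
        simp only [mem_insert_self, if_true, Finset.erase_insert hS] at h0
        rcases mul_eq_zero.mp h0 with h2 | h2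
        · exact absurd h2 (sgn_ne_zero _ _)
        · exact h2
      · intro a ha hne
        have ha' := mem_range.mp ha
        unfold cre
        split_ifs
        · rw [step1 a ha' _ (by rw [mem_erase]; exact ⟨by omega, mem_insert_self _ _⟩)]; ring
        · rfl
      · intro h; exact absurd (mem_range.mpr (by omega)) h
    -- step 3
    have step3 := ih (u - 1) v q (by omega) hq ω ?_ ?_
    · intro a ha S
      by_cases h : a = u - 1
      · rw [h]; exact step2 S
      · exact step3 a (by omega) S
    · intro a ha S hS
      have h4 := mem_powersetCard.mp (hs a (by omega) _ hS)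
      have hLS : L ∉ S := fun h => hS (step1 a (by omega) S h)
      rw [mem_powersetCard]
      refine ⟨?_, h4.2⟩
      intro x hx
      have h5 := mem_range.mp (h4.1 hx)
      have h6 : x ≠ L := fun h => hLS (h ▸ hx)
      rw [mem_range]; omega
    · intro b hb T
      have h0 := he b hb T
      have e : u = (u - 1) + 1 := by omega
      rw [e, Finset.sum_range_succ, cre_eq_zero_of _ _ step2, add_zero] at h0
      exact h0

lemma hankel (p : ℕ) (ω : Fin (p + 1) → Finset ℕ → K) (hs : ∀ a, Supp (2 * p + 1) p (ω a))
    (he : ∀ (b : Fin (p + 1)) T, ∑ a : Fin (p + 1), cre (a.val + b.val) (ω a) T = 0) :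
    ∀ a S, ω a S = 0 := by
  have key := hankel_inj (K := K) (2 * p + 2) (p + 1) (p + 1) p (by omega) (by omega)
    (fun a S => if h : a < p + 1 then ω ⟨a, h⟩ S else 0) ?_ ?_
  · intro a S
    have := key a.val a.isLt S
    simpa [a.isLt] using this
  · intro a ha S hS
    simp only [ha, dif_pos] at hS
    have := hs _ S hS
    have e : p + 1 + (p + 1) - 1 = 2 * p + 1 := by omega
    rw [e]; exact this
  · intro b hb T
    rw [← he ⟨b, hb⟩ T, Finset.sum_range]
    apply Finset.sum_congr rfl
    intro a _
    simp [a.isLt]

/-- extension by zero -/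
def ext0 (N q : ℕ) (f : {S // S ∈ (range N).powersetCard q} → K) (S : Finset ℕ) : K :=
  if h : S ∈ (range N).powersetCard q then f ⟨S, h⟩ else 0

lemma ext0_supp (N q : ℕ) (f : {S // S ∈ (range N).powersetCard q} → K) :
    Supp N q (ext0 N q f) := by
  intro S hS
  by_contra h
  exact hS (by simp [ext0, h])

lemma card_through (p j : ℕ) (hj : j < 2 * p + 1) :
    (((range (2 * p + 1)).powersetCard (p + 1)).filter (j ∈ ·)).card ≤ (2 * p).choose p := by
  have h1 : (((range (2 * p + 1)).erase j).powersetCard p).card = (2 * p).choose p := by
    rw [Finset.card_powersetCard, Finset.card_erase_of_mem (mem_range.mpr hj)]; simp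
  rw [← h1]
  apply Finset.card_le_card_of_injOn (fun T => T.erase j)
  · intro T hT
    simp only [coe_filter, mem_powersetCard, Set.mem_ofPred_eq] at hT
    simp only [mem_coe, mem_powersetCard]
    refine ⟨Finset.erase_subset_erase _ hT.1.1, ?_⟩
    have := Finset.card_erase_add_one hT.2
    omega
  · intro T hT T' hT' h
    simp only [coe_filter, Set.mem_ofPred_eq] at hT hT'
    rw [← Finset.insert_erase hT.2, ← Finset.insert_erase hT'.2]
    simp only at h
    rw [h]

end Pool.Agent.P.MP_e72dc0_lc.LO
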