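import Pool.Agent.P.MP_e72dc0_lc.Mul

/-! Numerical forms of the bounds. -/

namespace Pool.Agent.P.MP_e72dc0_lc

open Finset MvPolynomial

variable {F : Type*} [Field F]

theorem add_main {m s : ℕ} (g : Fin s → MvPolynomial ((Fin m × Fin m) ⊕ (Fin m × Fin m)) F)
    (A : Finset (Fin s))
    (hg : ∀ t, ∃ u ∈ Set.range X ∪ Set.range C ∪ g '' Set.Iio t,
      ∃ v ∈ Set.range X ∪ Set.range C ∪ g '' Set.Iio t,
        g t = u * v ∨ (t ∈ A ∧ g t = u + v))
    (hout : ∀ i j, cc F i j ∈ Set.range X ∪ Set.range C ∪ Set.range g) :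
    4 * (m : ℝ) ^ 2 - 10 * m * Real.sqrt m ≤ A.card := by
  rcases Nat.eq_zero_or_pos m with hm | hm
  · subst hm; simp
  obtain ⟨p, hp⟩ : ∃ p, Nat.sqrt m = p + 1 :=
    ⟨Nat.sqrt m - 1, by have := Nat.sqrt_pos.mpr hm; omega⟩
  have h1 : (p + 1) * (p + 1) ≤ m := by rw [← hp]; exact Nat.sqrt_le m
  have h2 : m < (p + 2) * (p + 2) := by
    have := Nat.lt_succ_sqrt m
    rw [hp] at this; exact this
  have hq : p + 1 ≤ m := by nlinarith
  obtain ⟨r, hr⟩ : ∃ r, m / (p + 1) = r + 1 :=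
    ⟨m / (p + 1) - 1, by have := Nat.div_pos hq (Nat.succ_pos p); omega⟩
  have h3 : (r + 1) * (p + 1) ≤ m := by rw [← hr]; exact Nat.div_mul_le_self _ _
  have h4 : m < (r + 2) * (p + 1) := by
    have := Nat.lt_mul_div_succ m (Nat.succ_pos p)
    rw [Nat.succ_eq_add_one, hr] at this; nlinarith
  have h5 : r ≤ p + 2 := by
    by_contra h
    have : (p + 4) * (p + 1) ≤ (r + 1) * (p + 1) := Nat.mul_le_mul_right _ (by omega)
    nlinarith
  have key := add_nat g A hg hout p r h3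
  have h6 : 4 * m ≤ (2 * r + 1) * (2 * p + 1) + 8 * (p + 1) := by nlinarith
  have h7 : 4 * m ^ 2 ≤ A.card + 10 * m * (p + 1) := by
    have a1 := Nat.mul_le_mul_left m h6
    have a2 := Nat.mul_le_mul_left (2 * (p + 1)) h3
    nlinarith
  have h8 : ((p + 1 : ℕ) : ℝ) ≤ Real.sqrt m := by
    apply Real.le_sqrt_of_sq_le
    have : ((p + 1 : ℕ) : ℝ) * ((p + 1 : ℕ) : ℝ) ≤ m := by exact_mod_cast h1
    nlinarith
  have h9 : (4 : ℝ) * m ^ 2 ≤ A.card + 10 * m * ((p + 1 : ℕ) : ℝ) := by exact_mod_cast h7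
  have h10 : (0 : ℝ) ≤ m := Nat.cast_nonneg m
  nlinarith [mul_le_mul_of_nonneg_left h8 h10]

theorem mul_main {m s : ℕ} (g : Fin s → MvPolynomial ((Fin m × Fin m) ⊕ (Fin m × Fin m)) F)
    (M : Finset (Fin s))
    (hg : ∀ t, ∃ u ∈ Set.range X ∪ Set.range C ∪ g '' Set.Iio t,
      ∃ v ∈ Set.range X ∪ Set.range C ∪ g '' Set.Iio t,
        g t = u + v ∨ (∃ c : F, g t = C c * u) ∨ (t ∈ M ∧ g t = u * v))
    (hout : ∀ i j, cc F i j ∈ Set.range X ∪ Set.range C ∪ Set.range g) (p : ℕ) :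
    (3 - 1 / ((p : ℝ) + 1)) * (m : ℝ) ^ 2 - (4 * p + 2 * ((2 * p + 1).choose p : ℝ)) * m
      ≤ M.card := by
  rcases Nat.eq_zero_or_pos m with hm | hm
  · subst hm; simp
  have h3 : m / (p + 1) * (p + 1) ≤ m := Nat.div_mul_le_self _ _
  have h4 : m ≤ m / (p + 1) * (p + 1) + p := by
    have := Nat.lt_mul_div_succ m (Nat.succ_pos p)
    rw [Nat.succ_eq_add_one] at this; nlinarith
  have key := mul_nat g M hg hout p (m / (p + 1)) hm h3
  generalize m / (p + 1) * (p + 1) = n at h3 h4 key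
  generalize (2 * p + 1).choose p = D at key ⊢
  have h3' : (n : ℝ) ≤ m := by exact_mod_cast h3
  have h4' : (m : ℝ) ≤ n + p := by exact_mod_cast h4
  have key' : ((p : ℝ) + 1) * n ^ 2 + n * m * (2 * p + 1) ≤ (p + 1) * (M.card + 2 * n * D) := by
    exact_mod_cast key
  have hp : (0 : ℝ) ≤ p := Nat.cast_nonneg p
  have hn : (0 : ℝ) ≤ n := Nat.cast_nonneg n
  have hm' : (0 : ℝ) ≤ m := Nat.cast_nonneg m
  have hD : (0 : ℝ) ≤ D := Nat.cast_nonneg D
  have hq : (0 : ℝ) < p + 1 := by linarith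
  have e : (3 - 1 / ((p : ℝ) + 1)) * (m : ℝ) ^ 2 - (4 * p + 2 * (D : ℝ)) * m
      = ((3 * p + 2) * (m : ℝ) ^ 2 - (p + 1) * (4 * p + 2 * D) * m) / (p + 1) := by
    field_simp; ring
  rw [e, div_le_iff₀ hq]
  have a1 : (m : ℝ) ^ 2 - 2 * p * m ≤ n ^ 2 := by nlinarith
  have a2 : (m : ℝ) ^ 2 - p * m ≤ n * m := by nlinarith
  have a3 : (n : ℝ) * D ≤ m * D := mul_le_mul_of_nonneg_right h3' hD
  have a4 := mul_le_mul_of_nonneg_left a1 hq.le
  have a5 := mul_le_mul_of_nonneg_left a2 (show (0 : ℝ) ≤ 2 * p + 1 by linarith)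
  have a6 := mul_le_mul_of_nonneg_left a3 hq.le
  have a7 : (0 : ℝ) ≤ p * m := mul_nonneg hp hm'
  nlinarith

theorem total_main {m s : ℕ} (g : Fin s → MvPolynomial ((Fin m × Fin m) ⊕ (Fin m × Fin m)) F)
    (hg : ∀ t, ∃ u ∈ Set.range X ∪ Set.range C ∪ g '' Set.Iio t,
      ∃ v ∈ Set.range X ∪ Set.range C ∪ g '' Set.Iio t, g t = u + v ∨ g t = u * v)
    (hout : ∀ i j, cc F i j ∈ Set.range X ∪ Set.range C ∪ Set.range g) (p : ℕ) :
    (7 - 1 / ((p : ℝ) + 1)) * (m : ℝ) ^ 2 - 10 * m * Real.sqrt m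
      - (4 * p + 2 * ((2 * p + 1).choose p : ℝ)) * m ≤ s := by
  classical
  choose u hu v hv huv using hg
  let A : Finset (Fin s) := univ.filter (fun t => g t = u t + v t)
  have h1 := add_main g A (fun t => ⟨u t, hu t, v t, hv t, by
    rcases huv t with h | h
    · exact Or.inr ⟨by simp [A, ← h], h⟩
    · exact Or.inl h⟩) hout
  have h2 := mul_main g (univ \ A) (fun t => ⟨u t, hu t, v t, hv t, by
    by_cases h : g t = u t + v t
    · exact Or.inl h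
    · exact Or.inr (Or.inr ⟨by simp [A, h], (huv t).resolve_left h⟩)⟩) hout p
  have h3 : (univ \ A).card + A.card = s := by
    rw [Finset.card_sdiff_add_card_eq_card (subset_univ _)]; simp
  have h3' : ((univ \ A).card : ℝ) + A.card = s := by exact_mod_cast h3
  linarith

end Pool.Agent.P.MP_e72dc0_lc
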