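import Pool.Agent.P.MP_e72dc0_lc.Add

/-! The lower bound for the number of nonscalar multiplications. -/

namespace Pool.Agent.P.MP_e72dc0_lc

open Finset MvPolynomial

variable {F : Type*} [Field F]

lemma kinj_blockHankel {K : Type*} [Field K] (p r : ℕ) :
    KInj p (fun l => mmH (K := K) (κ := Unit)
      (fun (b b' : Fin r × Fin (p + 1)) =>
        if b.1 = b'.1 ∧ b.2.val + b'.2.val = l then 1 else 0)) := by
  apply kinj_of_layers p _ (fun _ => 0)
  rintro (⟨⟨s, a₀⟩, k⟩ | ⟨k, ⟨s, b₀⟩⟩)
  · refine ⟨fun a => Sum.inl ((s, a), k), fun b => Sum.inr (k, (s, b)), ?_, ⟨a₀, rfl⟩, ?_, ?_⟩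
    · intro a a' h
      exact congrArg (fun x => x.1.2) (Sum.inl.inj h)
    · intro l b a
      simp [mmH]
    · rintro l b (⟨⟨s', a'⟩, k'⟩ | ⟨k', ⟨s', b'⟩⟩) hy
      · left
        have : s' ≠ s := fun h => hy a' (by rw [h])
        simp [mmH, this]
      · left; simp [mmH]
  · refine ⟨fun b => Sum.inr (k, (s, b)), fun a => Sum.inl ((s, a), k), ?_, ⟨b₀, rfl⟩, ?_, ?_⟩
    · intro a a' h
      exact congrArg (fun x => x.2.2) (Sum.inr.inj h)
    · intro l a b
      simp [mmH, add_comm]
    · rintro l a (⟨⟨s', a'⟩, k'⟩ | ⟨k', ⟨s', b'⟩⟩) hy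
      · left; simp [mmH]
      · left
        have : s ≠ s' := fun h => hy b' (by rw [h])
        simp [mmH, this]

lemma kinj_extend {K : Type*} [Field K] (p : ℕ) {I J κ : Type*} [Fintype I] [Fintype J]
    [Fintype κ] [DecidableEq κ] (Z : ℕ → I → J → K)
    (h : KInj p (fun l => mmH (κ := Unit) (Z l))) : KInj p (fun l => mmH (κ := κ) (Z l)) := by
  intro ω hs he
  let ω' : κ → (I × Unit) ⊕ (Unit × J) → Finset ℕ → K := fun k v => match v with
      | Sum.inl (i, _) => ω (Sum.inl (i, k))
      | Sum.inr (_, j) => ω (Sum.inr (k, j))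
  have main : ∀ k : κ, ∀ v S, ω' k v S = 0 := by
    intro k
    apply h
    · rintro (⟨i, _⟩ | ⟨_, j⟩)
      · exact hs _
      · exact hs _
    · rintro (⟨i, _⟩ | ⟨_, j⟩) T
      · rw [← he (Sum.inl (i, k)) T]
        apply Finset.sum_congr rfl; intro l _
        simp [Fintype.sum_sum_type, Fintype.sum_prod_type, mmH, ω']
      · rw [← he (Sum.inr (k, j)) T]
        apply Finset.sum_congr rfl; intro l _
        simp [Fintype.sum_sum_type, Fintype.sum_prod_type, mmH, ω']
  rintro (⟨i, k⟩ | ⟨k, j⟩) S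
  · exact main k (Sum.inl (i, ())) S
  · exact main k (Sum.inr ((), j)) S

theorem mul_core {K : Type*} [Field K] {p r : ℕ} {κ M : Type*} [Fintype κ] [DecidableEq κ]
    [Nonempty κ] [Fintype M]
    (y z : M → ((Fin r × Fin (p + 1)) × κ) ⊕ (κ × (Fin r × Fin (p + 1))) → K)
    (w : (Fin r × Fin (p + 1)) × (Fin r × Fin (p + 1)) → M → K)
    (h : ∀ c a b, mmH (fun i j => if i = c.1 ∧ j = c.2 then 1 else 0) a b
        = ∑ t, w c t * (y t a * z t b + z t a * y t b)) :
    (p + 1) * (r * (p + 1)) ^ 2 + r * (p + 1) * Fintype.card κ * (2 * p + 1)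
      ≤ (p + 1) * (Fintype.card M + 2 * (r * (p + 1)) * (2 * p + 1).choose p) := by
  classical
  let B := Fin r × Fin (p + 1)
  have cB : Fintype.card B = r * (p + 1) := by simp [B]
  -- the coefficient map
  let φ : (B × B → K) →ₗ[K] (M → K) :=
    { toFun := fun Z t => ∑ c, Z c * w c t
      map_add' := by
        intro Z Z'; funext t; simp [add_mul, Finset.sum_add_distrib]
      map_smul' := by
        intro c Z; funext t; simp [Finset.mul_sum, mul_assoc] }
  have hφ : ∀ (Z : B × B → K) a b, mmH (κ := κ) (fun i j => Z (i, j)) a b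
      = ∑ t, φ Z t * (y t a * z t b + z t a * y t b) := by
    intro Z a b
    have e1 : (fun i j => Z (i, j))
        = fun i j => ∑ c ∈ univ, Z c * (if i = c.1 ∧ j = c.2 then 1 else 0) := by
      funext i j
      rw [Finset.sum_eq_single (i, j)]
      · simp
      · intro c _ hc
        have : ¬ (i = c.1 ∧ j = c.2) := fun h => hc (Prod.ext h.1.symm h.2.symm)
        simp [this]
      · simp
    rw [e1, ← mmH_sum]
    simp only [φ, LinearMap.coe_mk, AddHom.coe_mk, Finset.sum_mul]
    rw [Finset.sum_comm]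
    apply Finset.sum_congr rfl; intro c _
    rw [show mmH (fun i j => if i = c.1 ∧ j = c.2 then (1 : K) else 0) a b = _ from h c a b,
      Finset.mul_sum]
    simp only [mul_assoc]
  have hφinj : ∀ Z, φ Z = 0 → Z = 0 := by
    intro Z hZ
    funext c
    obtain ⟨k⟩ := ‹Nonempty κ›
    have := hφ Z (Sum.inl (c.1, k)) (Sum.inr (k, c.2))
    simpa [mmH, hZ] using this
  obtain ⟨ι, a, ha, hspan, hli⟩ := exists_linearIndependent' K (fun (t : M) (c : B × B) => w c t)
  let iι : Fintype ι := Fintype.ofInjective a ha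
  let ψ : (B × B → K) →ₗ[K] (ι → K) := (LinearMap.funLeft K K a) ∘ₗ φ
  have hψ : ∀ Z i, ψ Z i = φ Z (a i) := fun _ _ => rfl
  have hψinj : Function.Injective ψ := by
    rw [injective_iff_map_eq_zero]
    intro Z hZ
    apply hφinj
    funext t
    have hmem : (fun c : B × B => w c t) ∈ Submodule.span K
        (Set.range ((fun (t : M) (c : B × B) => w c t) ∘ a)) := by
      rw [hspan]; exact Submodule.subset_span ⟨t, rfl⟩
    obtain ⟨μ, hμ⟩ := (Submodule.mem_span_range_iff_exists_fun K).mp hmem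
    have e1 : φ Z t = ∑ i, μ i * ψ Z i := by
      simp only [hψ, φ, LinearMap.coe_mk, AddHom.coe_mk, Finset.mul_sum]
      rw [Finset.sum_comm]
      apply Finset.sum_congr rfl; intro c _
      rw [← congrFun hμ c]
      simp only [Finset.sum_apply, Pi.smul_apply, Function.comp_apply, smul_eq_mul, Finset.mul_sum]
      apply Finset.sum_congr rfl; intro i _; ring
    rw [e1, hZ]; simp
  have hcard : Fintype.card ι = Fintype.card (B × B) := by
    apply le_antisymm
    · have := hli.fintype_card_le_finrank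
      rwa [Module.finrank_fintype_fun_eq_card] at this
    · have := LinearMap.finrank_le_finrank_of_injective hψinj
      rwa [Module.finrank_fintype_fun_eq_card, Module.finrank_fintype_fun_eq_card] at this
  let Ψ : (B × B → K) ≃ₗ[K] (ι → K) := LinearMap.linearEquivOfInjective ψ hψinj (by
    rw [Module.finrank_fintype_fun_eq_card, Module.finrank_fintype_fun_eq_card, hcard])
  have hΨ : ∀ Z, Ψ Z = ψ Z := fun _ => rfl
  let X₀ : ℕ → B × B → K := fun l c =>
    if c.1.1 = c.2.1 ∧ c.1.2.val + c.2.2.val = l then 1 else 0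
  let E : ι → B × B → K := fun i => Ψ.symm (Pi.single i 1)
  have hE : ∀ (J : Finset ι) (x : ι → K) (i : ι),
      ψ (fun c => ∑ j ∈ J, x j * E j c) i = if i ∈ J then x i else 0 := by
    intro J x i
    have : (fun c => ∑ j ∈ J, x j * E j c) = ∑ j ∈ J, x j • E j := by
      funext c; simp [Finset.sum_apply]
    rw [this, ← hΨ, map_sum]
    simp only [E, map_smul, LinearEquiv.apply_symm_apply, Finset.sum_apply, Pi.smul_apply,
      Pi.single_apply, smul_eq_mul, mul_ite, mul_one, mul_zero, Finset.sum_ite_eq]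
  have hX₀ : ∀ l, X₀ l = fun c => ∑ j, ψ (X₀ l) j * E j c := by
    intro l
    apply hψinj
    funext i
    rw [hE]; simp
  obtain ⟨J, hJ, hJinj⟩ := sparse_kinj p
    (fun j l v₂ v₁ => ψ (X₀ l) j * mmH (κ := Unit) (fun b b' => E j (b, b')) v₂ v₁) (by
      have := kinj_blockHankel (K := K) p r
      convert this using 4 with l v₂ v₁
      rw [mmH_sum]
      congr 1
      funext b b'
      exact (congrFun (hX₀ l) (b, b')).symm)
  let X₁ : ℕ → B × B → K := fun l c => ∑ j ∈ J, ψ (X₀ l) j * E j c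
  have hinj : KInj p (fun l => mmH (κ := κ) (fun b b' => X₁ l (b, b'))) := by
    apply kinj_extend
    convert hJinj using 4 with l v₂ v₁
    rw [mmH_sum]
  let M' : Finset M := univ \ (univ \ J).image a
  have hM' : M'.card + Fintype.card ι = Fintype.card M + J.card := by
    have h1 : ((univ \ J).image a).card + J.card = Fintype.card ι := by
      rw [Finset.card_image_of_injective _ ha, Finset.card_sdiff_add_card_eq_card (subset_univ _)]
      simp
    have h2 : M'.card + ((univ \ J).image a).card = Fintype.card M := by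
      rw [Finset.card_sdiff_add_card_eq_card (subset_univ _)]
      simp
    omega
  have hb := koszul_bound p (ι := M' ⊕ M') _
    (fun t l => match t with
      | Sum.inl t => φ (X₁ l) t
      | Sum.inr t => φ (X₁ l) t)
    (fun t => match t with
      | Sum.inl t => y t
      | Sum.inr t => z t)
    (fun t => match t with
      | Sum.inl t => z t
      | Sum.inr t => y t) ?_ hinj
  · simp only [Fintype.card_sum, Fintype.card_prod, Fintype.card_coe, cB, Fintype.card_unit,
      Fintype.card_fin] at hb hJ hcard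
    rw [hcard] at hM'
    generalize r * (p + 1) = n at *
    generalize (2 * p + 1).choose p = D at *
    have h3 : M'.card + n * n ≤ Fintype.card M + 2 * n * D := by nlinarith
    have h4 := Nat.mul_le_mul_left (p + 1) h3
    nlinarith
  · intro l _ v₂ v₁
    rw [hφ, Fintype.sum_sum_type, ← Finset.sum_add_distrib]
    simp only [← mul_add]
    rw [Finset.sum_coe_sort M' (fun t => φ (X₁ l) t * (y t v₂ * z t v₁ + z t v₂ * y t v₁))]
    symm
    apply Finset.sum_subset (subset_univ _)
    intro t _ ht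
    have : t ∈ (univ \ J).image a := by
      by_contra h'
      exact ht (mem_sdiff.mpr ⟨mem_univ _, h'⟩)
    obtain ⟨i, hi, rfl⟩ := mem_image.mp this
    rw [← hψ, hE, if_neg (mem_sdiff.mp hi).2, zero_mul]

theorem mul_nat {m s : ℕ} (g : Fin s → MvPolynomial ((Fin m × Fin m) ⊕ (Fin m × Fin m)) F)
    (M : Finset (Fin s))
    (hg : ∀ t, ∃ u ∈ Set.range X ∪ Set.range C ∪ g '' Set.Iio t,
      ∃ v ∈ Set.range X ∪ Set.range C ∪ g '' Set.Iio t,
        g t = u + v ∨ (∃ c : F, g t = C c * u) ∨ (t ∈ M ∧ g t = u * v))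
    (hout : ∀ i j, cc F i j ∈ Set.range X ∪ Set.range C ∪ Set.range g)
    (p r : ℕ) (hm0 : 0 < m) (hm : r * (p + 1) ≤ m) :
    (p + 1) * (r * (p + 1)) ^ 2 + r * (p + 1) * m * (2 * p + 1)
      ≤ (p + 1) * (M.card + 2 * (r * (p + 1)) * (2 * p + 1).choose p) := by
  classical
  obtain ⟨y, z, hy⟩ := hess_span g M hg
  have : Nonempty (Fin m) := ⟨⟨0, hm0⟩⟩
  choose w hw using fun (c : (Fin r × Fin (p + 1)) × (Fin r × Fin (p + 1))) =>
    hy _ (hout (blk hm c.1) (blk hm c.2))
  let ε : ((Fin r × Fin (p + 1)) × Fin m) ⊕ (Fin m × (Fin r × Fin (p + 1)))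
      → (Fin m × Fin m) ⊕ (Fin m × Fin m) := fun v => match v with
    | Sum.inl (b, k) => Sum.inl (blk hm b, k)
    | Sum.inr (k, b) => Sum.inr (k, blk hm b)
  have := mul_core (κ := Fin m) (fun t a => y t (ε a)) (fun t a => z t (ε a)) w ?_
  · rwa [Fintype.card_coe, Fintype.card_fin] at this
  · intro c a b
    rw [← hw, hess_cc]
    rcases a with ⟨i₁, k₁⟩ | ⟨k₁, j₁⟩ <;> rcases b with ⟨i₂, k₂⟩ | ⟨k₂, j₂⟩ <;>
      simp [mmH, ε, (blk_inj hm).eq_iff]

end Pool.Agent.P.MP_e72dc0_lc
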