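import Mathlib

/-! Rank methods, part A: codimension bookkeeping and semicontinuity of rank along a curve. -/

open Module Submodule

namespace Pool.Agent.P.MP_e72dc0_lc.Rk

variable {F : Type*} [Field F]

section Cd
variable {V : Type*} [AddCommGroup V] [Module F V] [FiniteDimensional F V]
variable {W : Type*} [AddCommGroup W] [Module F W]

/-- `U` has codimension at most `c`. -/
def Cd (U : Submodule F V) (c : ℕ) : Prop := finrank F V ≤ finrank F U + c

lemma finrank_inf_ker_add (U : Submodule F V) (g : V →ₗ[F] W) :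
    finrank F (U ⊓ LinearMap.ker g : Submodule F V) + finrank F (U.map g) = finrank F U := by
  have h := LinearMap.finrank_range_add_finrank_ker (g.domRestrict U)
  rw [LinearMap.range_domRestrict, LinearMap.ker_domRestrict] at h
  have e : finrank F (comap U.subtype (LinearMap.ker g)) =
      finrank F (U ⊓ LinearMap.ker g : Submodule F V) := by
    rw [← Submodule.finrank_map_subtype_eq U, Submodule.map_comap_subtype]
  omega

lemma Cd.inf {U₁ U₂ : Submodule F V} {c₁ c₂ : ℕ} (h₁ : Cd U₁ c₁) (h₂ : Cd U₂ c₂) :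
    Cd (U₁ ⊓ U₂) (c₁ + c₂) := by
  unfold Cd at *
  have h := Submodule.finrank_sup_add_finrank_inf_eq U₁ U₂
  have h' := Submodule.finrank_le (U₁ ⊔ U₂)
  omega

omit [FiniteDimensional F V] in
lemma cd_top : Cd (⊤ : Submodule F V) 0 := by
  unfold Cd; simp

lemma Cd.inf_ker {U : Submodule F V} {c d : ℕ} (h : Cd U c) (g : V →ₗ[F] W)
    (hg : finrank F (U.map g) ≤ d) : Cd (U ⊓ LinearMap.ker g) (c + d) := by
  unfold Cd at *
  have := finrank_inf_ker_add U g
  omega

lemma Cd.inf_kers {ι : Type*} {U : Submodule F V} {c d : ℕ} (h : Cd U c) (g : ι → V →ₗ[F] W)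
    (hg : ∀ i, finrank F (U.map (g i)) ≤ d) (s : Finset ι) :
    ∃ U' : Submodule F V, U' ≤ U ∧ Cd U' (c + s.card * d) ∧ ∀ i ∈ s, ∀ v ∈ U', g i v = 0 := by
  classical
  induction s using Finset.induction_on with
  | empty => exact ⟨U, le_rfl, by simpa using h, by simp⟩
  | insert i s hi ih =>
    obtain ⟨U', hU', hc, hz⟩ := ih
    refine ⟨U' ⊓ LinearMap.ker (g i), inf_le_left.trans hU', ?_, ?_⟩
    · have h1 : finrank F (U'.map (g i)) ≤ d :=
        (Submodule.finrank_mono (Submodule.map_mono hU')).trans (hg i)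
      have := hc.inf_ker (g i) h1
      rw [Finset.card_insert_of_notMem hi, Nat.succ_mul, ← add_assoc]
      exact this
    · intro j hj v hv
      rcases Finset.mem_insert.1 hj with rfl | hj
      · exact hv.2
      · exact hz j hj v hv.1

lemma rank_le_of_cd [FiniteDimensional F W] {U : Submodule F V} {c : ℕ} (h : Cd U c)
    (N : V →ₗ[F] W) (Y : Submodule F W) (hN : ∀ v ∈ U, N v ∈ Y) :
    finrank F (LinearMap.range N) ≤ c + finrank F Y := by
  have h1 := finrank_inf_ker_add U N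
  have h2 := LinearMap.finrank_range_add_finrank_ker N
  have h3 : finrank F (U ⊓ LinearMap.ker N : Submodule F V) ≤ finrank F (LinearMap.ker N) :=
    Submodule.finrank_mono inf_le_right
  have h4 : finrank F (U.map N) ≤ finrank F Y := by
    apply Submodule.finrank_mono
    rintro _ ⟨v, hv, rfl⟩
    exact hN v hv
  unfold Cd at h
  omega

lemma exists_cover {ι : Type*} (Y : ι → Submodule F V) (d : ℕ) (hY : ∀ i, finrank F (Y i) ≤ d)
    (s : Finset ι) :
    ∃ Y' : Submodule F V, finrank F Y' ≤ s.card * d ∧ ∀ i ∈ s, Y i ≤ Y' := by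
  classical
  induction s using Finset.induction_on with
  | empty => exact ⟨⊥, by simp, by simp⟩
  | insert i s hi ih =>
    obtain ⟨Y', h1, h2⟩ := ih
    refine ⟨Y' ⊔ Y i, ?_, ?_⟩
    · have := Submodule.finrank_sup_add_finrank_inf_eq Y' (Y i)
      have := hY i
      rw [Finset.card_insert_of_notMem hi, Nat.succ_mul]
      omega
    · intro j hj
      rcases Finset.mem_insert.1 hj with rfl | hj
      · exact le_sup_right
      · exact (h2 j hj).trans le_sup_left

lemma exists_rel_compl (Y Z : Submodule F V) :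
    ∃ Y' : Submodule F V, Y' ⊔ (Y ⊓ Z) = Y ∧
      finrank F Y' + finrank F (Y ⊓ Z : Submodule F V) = finrank F Y := by
  obtain ⟨C, hC⟩ := Submodule.exists_isCompl (Y ⊓ Z)
  have h1 : (Y ⊓ C) ⊔ (Y ⊓ Z) = Y := by
    rw [sup_comm, inf_comm Y C, ← sup_inf_assoc_of_le C (inf_le_left : Y ⊓ Z ≤ Y),
      hC.sup_eq_top, top_inf_eq]
  refine ⟨Y ⊓ C, h1, ?_⟩
  have h2 := Submodule.finrank_sup_add_finrank_inf_eq (Y ⊓ C) (Y ⊓ Z)
  have h3 : (Y ⊓ C) ⊓ (Y ⊓ Z) = ⊥ := by
    rw [eq_bot_iff, ← hC.inf_eq_bot]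
    exact le_inf inf_le_right (inf_le_left.trans inf_le_right)
  rw [h1, h3, finrank_bot] at h2
  omega

end Cd

section Curve
variable [Infinite F]
variable {V : Type*} [AddCommGroup V] [Module F V]
variable {W : Type*} [AddCommGroup W] [Module F W]

open Polynomial in
lemma indep_persist {ι : Type*} [Fintype ι] (u₀ u₁ u₂ u₃ : ι → W)
    (h : LinearIndependent F u₀) :
    ∃ t : F, t ≠ 0 ∧
      LinearIndependent F (fun j => u₀ j + t • u₁ j + t ^ 2 • u₂ j + t ^ 3 • u₃ j) := by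
  classical
  obtain ⟨l, hl⟩ := LinearMap.exists_extend h.repr
  have hl0 : ∀ j, l (u₀ j) = Finsupp.single j 1 := by
    intro j
    have hm : u₀ j ∈ span F (Set.range u₀) := subset_span ⟨j, rfl⟩
    have := congrArg (fun f => f ⟨u₀ j, hm⟩) hl
    simp only [LinearMap.comp_apply, Submodule.subtype_apply] at this
    rw [this]
    exact h.repr_eq_single j _ rfl
  let Q : Matrix ι ι F[X] := Matrix.of fun j k =>
    C (l (u₀ j) k) + X * C (l (u₁ j) k) + X ^ 2 * C (l (u₂ j) k) + X ^ 3 * C (l (u₃ j) k)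
  have hev : ∀ t : F, (Q.det).eval t = (Matrix.of fun j k =>
      l (u₀ j + t • u₁ j + t ^ 2 • u₂ j + t ^ 3 • u₃ j) k : Matrix ι ι F).det := by
    intro t
    rw [← Polynomial.coe_evalRingHom, RingHom.map_det]
    congr 1
    ext j k
    simp [Q]
    ring
  have h0 : (Q.det).eval 0 = 1 := by
    rw [hev]
    have : (Matrix.of fun j k =>
      l (u₀ j + (0 : F) • u₁ j + (0 : F) ^ 2 • u₂ j + (0 : F) ^ 3 • u₃ j) k : Matrix ι ι F) = 1 := by
      ext j k
      simp [hl0, Finsupp.single_apply, Matrix.one_apply]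
    rw [this, Matrix.det_one]
  have hne : X * Q.det ≠ 0 := by
    refine mul_ne_zero X_ne_zero fun hq => ?_
    rw [hq] at h0
    simp at h0
  obtain ⟨t, ht⟩ : ∃ t : F, (X * Q.det).eval t ≠ 0 := by
    by_contra hcon
    push Not at hcon
    exact hne (Polynomial.zero_of_eval_zero _ hcon)
  rw [eval_mul, eval_X] at ht
  refine ⟨t, left_ne_zero_of_mul ht, ?_⟩
  have hd := right_ne_zero_of_mul ht
  rw [hev] at hd
  have hli := Matrix.linearIndependent_rows_of_det_ne_zero hd
  refine LinearIndependent.of_comp ((Finsupp.linearEquivFunOnFinite F F ι).toLinearMap ∘ₗ l) ?_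
  exact hli

omit [Infinite F] in
lemma card_le_of_indep {ι : Type*} [Fintype ι] {u : ι → W} (h : LinearIndependent F u)
    {Y : Submodule F W} [FiniteDimensional F Y] (hY : ∀ i, u i ∈ Y) :
    Fintype.card ι ≤ finrank F Y := by
  rw [← finrank_span_eq_card h]
  apply Submodule.finrank_mono
  rw [span_le]
  rintro _ ⟨i, rfl⟩
  exact hY i

variable [FiniteDimensional F V]

/-- A limit of vectors of the images lies in the image at a point of maximal rank. -/
lemma limit_mem (M₀ M₁ M₂ M₃ : V →ₗ[F] W)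
    (hM : ∀ t : F, finrank F (LinearMap.range (M₀ + t • M₁ + t ^ 2 • M₂ + t ^ 3 • M₃)) ≤
      finrank F (LinearMap.range M₀))
    (w₀ w₁ w₂ : W)
    (hw : ∀ t : F, t ≠ 0 → w₀ + t • w₁ + t ^ 2 • w₂ ∈
      LinearMap.range (M₀ + t • M₁ + t ^ 2 • M₂ + t ^ 3 • M₃)) :
    w₀ ∈ LinearMap.range M₀ := by
  classical
  by_contra hw0
  let b := Module.finBasis F (LinearMap.range M₀)
  choose v hv using fun i => (b i).2
  have hb : LinearIndependent F (fun i => M₀ (v i)) := by
    have := b.linearIndependent.map' (LinearMap.range M₀).subtype (Submodule.ker_subtype _)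
    have e : (fun i => M₀ (v i)) = (LinearMap.range M₀).subtype ∘ b := funext fun i => hv i
    rw [e]
    exact this
  have hsp : w₀ ∉ span F (Set.range fun i => M₀ (v i)) := by
    intro hh
    apply hw0
    refine (span_le.2 ?_ : _ ≤ LinearMap.range M₀) hh
    rintro _ ⟨i, rfl⟩
    exact ⟨v i, rfl⟩
  have hopt := hb.option hsp
  obtain ⟨t, ht, hli⟩ := indep_persist _
    (fun o => Option.casesOn' o w₁ (fun i => M₁ (v i)))
    (fun o => Option.casesOn' o w₂ (fun i => M₂ (v i)))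
    (fun o => Option.casesOn' o 0 (fun i => M₃ (v i))) hopt
  have h1 := card_le_of_indep hli (by
    intro o
    cases o with
    | none => simpa using hw t ht
    | some i => exact ⟨v i, by simp⟩ :
    ∀ o, _ ∈ LinearMap.range (M₀ + t • M₁ + t ^ 2 • M₂ + t ^ 3 • M₃))
  have h2 := hM t
  simp at h1
  omega

lemma first_order (M₀ M₁ M₂ M₃ : V →ₗ[F] W)
    (hM : ∀ t : F, finrank F (LinearMap.range (M₀ + t • M₁ + t ^ 2 • M₂ + t ^ 3 • M₃)) ≤
      finrank F (LinearMap.range M₀)) (v : V) (h0 : M₀ v = 0) :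
    M₁ v ∈ LinearMap.range M₀ := by
  refine limit_mem M₀ M₁ M₂ M₃ hM _ (M₂ v) (M₃ v) fun t ht => ⟨t⁻¹ • v, ?_⟩
  simp only [LinearMap.add_apply, LinearMap.smul_apply, map_smul, h0]
  match_scalars <;> field_simp

lemma second_order (M₀ M₁ M₂ M₃ : V →ₗ[F] W)
    (hM : ∀ t : F, finrank F (LinearMap.range (M₀ + t • M₁ + t ^ 2 • M₂ + t ^ 3 • M₃)) ≤
      finrank F (LinearMap.range M₀)) (v v₁ : V) (h0 : M₀ v = 0) (h1 : M₀ v₁ = M₁ v) :
    M₂ v - M₁ v₁ ∈ LinearMap.range M₀ := by
  refine limit_mem M₀ M₁ M₂ M₃ hM _ (M₃ v - M₂ v₁) (-M₃ v₁)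
    fun t ht => ⟨(t ^ 2)⁻¹ • v - t⁻¹ • v₁, ?_⟩
  simp only [LinearMap.add_apply, LinearMap.smul_apply, map_smul, map_sub, h0, h1]
  match_scalars <;> (field_simp; try ring)

lemma third_order (M₀ M₁ M₂ M₃ : V →ₗ[F] W)
    (hM : ∀ t : F, finrank F (LinearMap.range (M₀ + t • M₁ + t ^ 2 • M₂ + t ^ 3 • M₃)) ≤
      finrank F (LinearMap.range M₀)) (v v₂ : V) (h0 : M₀ v = 0) (h1 : M₁ v = 0)
    (h2 : M₀ v₂ = M₂ v) :
    M₃ v - M₁ v₂ ∈ LinearMap.range M₀ := by
  refine limit_mem M₀ M₁ M₂ M₃ hM _ (-M₂ v₂) (-M₃ v₂)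
    fun t ht => ⟨(t ^ 3)⁻¹ • v - t⁻¹ • v₂, ?_⟩
  simp only [LinearMap.add_apply, LinearMap.smul_apply, map_smul, map_sub, h0, h1, h2]
  match_scalars <;> (field_simp; try ring)

end Curve

end Pool.Agent.P.MP_e72dc0_lc.Rk
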