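import Pool.Agent.P.MP_e72dc0_lc.RkA

/-! Rank methods, part B: linear syzygies and the one-sided bound. -/

open Module Submodule

namespace Pool.Agent.P.MP_e72dc0_lc.Rk

variable {F : Type*} [Field F]
variable {A : Type*} [AddCommGroup A] [Module F A]
variable {B : Type*} [AddCommGroup B] [Module F B]
variable {C : Type*} [AddCommGroup C] [Module F C]
variable {K : Type*} [AddCommGroup K] [Module F K]
variable {V : Type*} [AddCommGroup V] [Module F V]
variable {W : Type*} [AddCommGroup W] [Module F W]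

/-- Linear syzygies of a linear family of maps. -/
def Syz (G : A →ₗ[F] K →ₗ[F] W) : Submodule F (A →ₗ[F] K) where
  carrier := {f | ∀ x, G x (f x) = 0}
  add_mem' := by
    intro f g hf hg x
    simp [hf x, hg x]
  zero_mem' := by
    intro x
    simp
  smul_mem' := by
    intro c f hf x
    simp [hf x]

lemma Syz.polar {G : A →ₗ[F] K →ₗ[F] W} {f : A →ₗ[F] K} (hf : f ∈ Syz G) (x y : A) :
    G x (f y) = -G y (f x) := by
  have h := hf (x + y)
  simp only [map_add, LinearMap.add_apply, hf x, hf y, zero_add, add_zero] at h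
  rw [eq_neg_iff_add_eq_zero, add_comm]
  exact h

/-- Evaluation at `x` modulo `Z`. -/
def tau (Z : Submodule F K) (x : A) : (A →ₗ[F] K) →ₗ[F] (K ⧸ Z) :=
  Z.mkQ ∘ₗ LinearMap.applyₗ x

lemma tau_eq_zero {Z : Submodule F K} {x : A} {f : A →ₗ[F] K} : tau Z x f = 0 ↔ f x ∈ Z := by
  simp [tau]

/-- `Z` is almost killed by `G` and almost contains the values of all syzygies. -/
def Good (G : A →ₗ[F] K →ₗ[F] W) (Z : Submodule F K) (δ η : ℕ) : Prop :=
  (∃ W' : Submodule F W, finrank F W' ≤ η ∧ ∀ x, ∀ u ∈ Z, G x u ∈ W') ∧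
  ∃ (Z₀ : Submodule F K) (x₀ : A), finrank F ((Syz G).map (tau Z₀ x₀)) ≤ δ ∧
    ∀ f ∈ Syz G, f x₀ ∈ Z₀ → ∀ x, f x ∈ Z

variable [FiniteDimensional F K]

lemma finrank_sup_vals (L : Submodule F (A →ₗ[F] K)) (Z : Submodule F K) (x : A) :
    finrank F (Z ⊔ L.map (LinearMap.applyₗ x) : Submodule F K) =
      finrank F Z + finrank F (L.map (tau Z x)) := by
  have h := finrank_inf_ker_add (Z ⊔ L.map (LinearMap.applyₗ x)) Z.mkQ
  rw [Submodule.ker_mkQ, inf_eq_right.2 le_sup_left, Submodule.map_sup, Submodule.mkQ_map_self,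
    bot_sup_eq, ← Submodule.map_comp] at h
  exact h.symm

variable [FiniteDimensional F W]

lemma extend_cover (G : A →ₗ[F] K →ₗ[F] W) (Z : Submodule F K) (W' : Submodule F W)
    (h : ∀ x, ∀ u ∈ Z, G x u ∈ W') (y : A) :
    ∃ W'' : Submodule F W, finrank F W'' ≤ finrank F W' + finrank F K ∧
      ∀ x, ∀ u ∈ Z ⊔ (Syz G).map (LinearMap.applyₗ y), G x u ∈ W'' := by
  refine ⟨W' ⊔ LinearMap.range (G y), ?_, ?_⟩
  · have h1 := Submodule.finrank_sup_add_finrank_inf_eq W' (LinearMap.range (G y))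
    have h2 := LinearMap.finrank_range_le (G y)
    omega
  · intro x u hu
    obtain ⟨z, hz, _, ⟨f, hf, rfl⟩, rfl⟩ := Submodule.mem_sup.1 hu
    rw [map_add]
    refine add_mem (Submodule.mem_sup_left (h x z hz)) (Submodule.mem_sup_right ?_)
    change G x (f y) ∈ _
    rw [Syz.polar hf]
    exact neg_mem ⟨_, rfl⟩

lemma greedy (G : A →ₗ[F] K →ₗ[F] W) (δ n : ℕ) :
    ∃ (Z : Submodule F K) (W' : Submodule F W), finrank F W' ≤ n * finrank F K ∧
      (∀ x, ∀ u ∈ Z, G x u ∈ W') ∧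
      (n * (δ + 1) ≤ finrank F Z ∨ ∀ x, finrank F ((Syz G).map (tau Z x)) ≤ δ) := by
  induction n with
  | zero => exact ⟨⊥, ⊥, by simp, by simp, Or.inl (by simp)⟩
  | succ n ih =>
    obtain ⟨Z, W', h1, h2, h3⟩ := ih
    by_cases h : ∀ x, finrank F ((Syz G).map (tau Z x)) ≤ δ
    · exact ⟨Z, W', by rw [Nat.succ_mul]; omega, h2, Or.inr h⟩
    · have h3' := h3.resolve_right h
      push Not at h
      obtain ⟨y, hy⟩ := h
      obtain ⟨W'', h4, h5⟩ := extend_cover G Z W' h2 y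
      refine ⟨_, W'', by rw [Nat.succ_mul]; omega, h5, Or.inl ?_⟩
      rw [finrank_sup_vals, Nat.succ_mul]
      omega

lemma exists_good [Infinite F] [FiniteDimensional F A] (G : A →ₗ[F] K →ₗ[F] W) (k : ℕ) :
    ∃ Z : Submodule F K, Good G Z (finrank F K / (k + 1)) ((k + 1) * finrank F K) := by
  set δ := finrank F K / (k + 1) with hδ
  obtain ⟨Z, W', h1, h2, h3⟩ := greedy G δ k
  have h4 : ∀ x, finrank F ((Syz G).map (tau Z x)) ≤ δ := by
    rcases h3 with h3 | h3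
    · intro x
      have e := finrank_sup_vals (Syz G) Z x
      have l := Submodule.finrank_le (Z ⊔ (Syz G).map (LinearMap.applyₗ x))
      have : finrank F K < (k + 1) * (δ + 1) := Nat.lt_mul_div_succ _ (Nat.succ_pos k)
      rw [Nat.succ_mul] at this
      omega
    · exact h3
  obtain ⟨x₀, -, hx₀⟩ := Set.Finite.exists_maximalFor'
    (fun x : A => finrank F ((Syz G).map (tau Z x))) Set.univ
    ((Set.finite_le_nat δ).subset (by rintro _ ⟨x, -, rfl⟩; exact h4 x)) Set.univ_nonempty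
  have hmax : ∀ x, finrank F ((Syz G).map (tau Z x)) ≤ finrank F ((Syz G).map (tau Z x₀)) := by
    intro x
    rcases le_total (finrank F ((Syz G).map (tau Z x))) (finrank F ((Syz G).map (tau Z x₀)))
      with h | h
    · exact h
    · exact hx₀ (Set.mem_univ x) h
  obtain ⟨W'', h5, h6⟩ := extend_cover G Z W' h2 x₀
  refine ⟨_, ⟨W'', by rw [Nat.succ_mul]; omega, h6⟩, Z, x₀, h4 x₀, ?_⟩
  intro f hf hf0 x
  have key := first_order ((tau Z x₀).domRestrict (Syz G)) ((tau Z x).domRestrict (Syz G)) 0 0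
    (by
      intro t
      have e : (tau Z x₀).domRestrict (Syz G) + t • (tau Z x).domRestrict (Syz G)
          + t ^ 2 • (0 : Syz G →ₗ[F] K ⧸ Z) + t ^ 3 • (0 : Syz G →ₗ[F] K ⧸ Z) =
          (tau Z (x₀ + t • x)).domRestrict (Syz G) := by
        ext g
        simp [tau]
      rw [e, LinearMap.range_domRestrict, LinearMap.range_domRestrict]
      exact hmax _) ⟨f, hf⟩ (tau_eq_zero.2 hf0)
  obtain ⟨⟨g, hg⟩, hg'⟩ := key
  have : g x₀ - f x ∈ Z := (Submodule.Quotient.eq Z).1 hg'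
  have e : f x = -(g x₀ - f x) + g x₀ := by abel
  rw [e]
  exact add_mem (Submodule.mem_sup_left (neg_mem this)) (Submodule.mem_sup_right ⟨g, hg, rfl⟩)

variable [FiniteDimensional F V]

omit [FiniteDimensional F W] in
/-- First order terms: cut down to the common kernel. -/
lemma cut_first [FiniteDimensional F A] {G : A →ₗ[F] K →ₗ[F] W} {Z : Submodule F K} {δ η e : ℕ}
    (hG : Good G Z δ η) (Φ : A →ₗ[F] V →ₗ[F] K) (hΦ : ∀ x v, G x (Φ x v) = 0)
    (Q : Submodule F K) (U₀ : Submodule F V) (hU₀ : Cd U₀ e) (hQ : ∀ x, ∀ v ∈ U₀, Φ x v ∈ Q) :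
    ∃ U : Submodule F V, Cd U (e + δ + finrank F A * finrank F (Z ⊓ Q : Submodule F K)) ∧
      ∀ x, ∀ v ∈ U, Φ x v = 0 := by
  obtain ⟨-, Z₀, x₀, h1, h2⟩ := hG
  have c1 := hU₀.inf_ker (tau Z₀ x₀ ∘ₗ Φ.flip) (d := δ) (by
    refine (Submodule.finrank_mono ?_).trans h1
    rintro _ ⟨v, -, rfl⟩
    exact ⟨Φ.flip v, fun x => hΦ x v, rfl⟩)
  let b := Module.finBasis F A
  obtain ⟨U, -, c2, hz⟩ := c1.inf_kers (fun i => Φ (b i))
    (d := finrank F (Z ⊓ Q : Submodule F K)) (by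
    intro i
    apply Submodule.finrank_mono
    rintro _ ⟨v, hv, rfl⟩
    exact ⟨h2 (Φ.flip v) (fun x => hΦ x v) (tau_eq_zero.1 hv.2) _, hQ _ v hv.1⟩) Finset.univ
  refine ⟨U, by simpa using c2, fun x v hv => ?_⟩
  have : Φ.flip v = 0 := b.ext fun i => hz i (Finset.mem_univ i) v hv
  exact LinearMap.congr_fun this x

omit [FiniteDimensional F W] in
/-- Second order terms: cut down until the values lie in `Z`. -/
lemma cut_second [FiniteDimensional F B] {G : A →ₗ[F] K →ₗ[F] W} {Z : Submodule F K} {δ η c : ℕ}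
    (hG : Good G Z δ η) (Θ : A →ₗ[F] B →ₗ[F] V →ₗ[F] K) (U : Submodule F V) (hU : Cd U c)
    (hΘ : ∀ x y, ∀ v ∈ U, G x (Θ x y v) = 0) :
    ∃ U' : Submodule F V, U' ≤ U ∧ Cd U' (c + finrank F B * δ) ∧
      ∀ x y, ∀ v ∈ U', Θ x y v ∈ Z := by
  obtain ⟨-, Z₀, x₀, h1, h2⟩ := hG
  let b := Module.finBasis F B
  obtain ⟨U', hle, c2, hz⟩ := hU.inf_kers (fun i => tau Z₀ x₀ ∘ₗ (Θ.flip (b i)).flip)
    (d := δ) (by
    intro i
    refine (Submodule.finrank_mono ?_).trans h1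
    rintro _ ⟨v, hv, rfl⟩
    exact ⟨(Θ.flip (b i)).flip v, fun x => hΘ x _ v hv, rfl⟩) Finset.univ
  refine ⟨U', hle, by simpa using c2, fun x y v hv => ?_⟩
  have hb : ∀ i, Θ x (b i) v ∈ Z := fun i =>
    h2 ((Θ.flip (b i)).flip v) (fun x => hΘ x _ v (hle hv))
      (tau_eq_zero.1 (hz i (Finset.mem_univ i) v hv)) x
  rw [← b.sum_repr y, map_sum, LinearMap.sum_apply]
  refine Submodule.sum_mem _ fun i _ => ?_
  rw [map_smul, LinearMap.smul_apply]
  exact Submodule.smul_mem _ _ (hb i)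

/-- The image of a subspace `Y` under the whole family. -/
lemma image_cover [FiniteDimensional F A] {G : A →ₗ[F] K →ₗ[F] W} {Z : Submodule F K} {δ η : ℕ}
    (hG : Good G Z δ η) (Y : Submodule F K) :
    ∃ (W' : Submodule F W) (d : ℕ), d + finrank F (Y ⊓ Z : Submodule F K) = finrank F Y ∧
      finrank F W' ≤ η + finrank F A * d ∧ ∀ x, ∀ u ∈ Y, G x u ∈ W' := by
  obtain ⟨⟨W₀, h1, h2⟩, -⟩ := hG
  obtain ⟨Y', h3, h4⟩ := exists_rel_compl Y Z
  let b := Module.finBasis F A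
  obtain ⟨W₁, h5, h6⟩ := exists_cover (fun i => Y'.map (G (b i))) (finrank F Y')
    (fun i => Submodule.finrank_map_le _ _) Finset.univ
  refine ⟨W₀ ⊔ W₁, finrank F Y', h4, ?_, ?_⟩
  · have := Submodule.finrank_sup_add_finrank_inf_eq W₀ W₁
    simp only [Finset.card_univ, Fintype.card_fin] at h5
    omega
  · intro x u hu
    rw [← h3] at hu
    obtain ⟨y, hy, z, hz, rfl⟩ := Submodule.mem_sup.1 hu
    rw [map_add]
    refine add_mem (Submodule.mem_sup_right ?_) (Submodule.mem_sup_left (h2 x z hz.2))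
    rw [← b.sum_repr x, map_sum, LinearMap.sum_apply]
    refine Submodule.sum_mem _ fun i _ => ?_
    rw [map_smul, LinearMap.smul_apply]
    exact Submodule.smul_mem _ _ (h6 i (Finset.mem_univ i) ⟨y, hy, rfl⟩)

end Pool.Agent.P.MP_e72dc0_lc.Rk
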