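import Pool.Agent.P.MP_e72dc0_lc.RkB

/-! Rank methods, part C: the local structure at a point of maximal rank and the one-sided bound. -/

open Module Submodule

namespace Pool.Agent.P.MP_e72dc0_lc.Rk

variable {F : Type*} [Field F] [Infinite F]
variable {A : Type*} [AddCommGroup A] [Module F A]
variable {B : Type*} [AddCommGroup B] [Module F B]
variable {C : Type*} [AddCommGroup C] [Module F C]
variable {K : Type*} [AddCommGroup K] [Module F K]
variable {V : Type*} [AddCommGroup V] [Module F V]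
variable {W : Type*} [AddCommGroup W] [Module F W]

lemma split2 (Ga : A →ₗ[F] K →ₗ[F] W) (Gb : B →ₗ[F] K →ₗ[F] W) (Θ : A →ₗ[F] B →ₗ[F] V →ₗ[F] K)
    (v : V) (h : ∀ x y, Ga x (Θ x y v) + Gb y (Θ x y v) = 0) (x : A) (y : B) :
    Ga x (Θ x y v) = 0 ∧ Gb y (Θ x y v) = 0 := by
  classical
  obtain ⟨l, hl⟩ := Infinite.exists_notMem_finset ({0, 1} : Finset F)
  simp only [Finset.mem_insert, Finset.mem_singleton, not_or] at hl
  have h1 := h x y
  have h2 := h (l • x) y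
  simp only [map_smul, LinearMap.smul_apply] at h2
  have h3 : (l * (l - 1)) • Ga x (Θ x y v) = 0 := by
    have e : (l * (l - 1)) • Ga x (Θ x y v) =
        (l • l • Ga x (Θ x y v) + l • Gb y (Θ x y v)) -
          l • (Ga x (Θ x y v) + Gb y (Θ x y v)) := by module
    rw [e, h1, h2]
    simp
  have h4 : Ga x (Θ x y v) = 0 :=
    (smul_eq_zero.1 h3).resolve_left (mul_ne_zero hl.1 (sub_ne_zero.2 hl.2))
  rw [h4, zero_add] at h1
  exact ⟨h4, h1⟩

variable [FiniteDimensional F V]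

/-- The second and third order relations at a point of maximal rank. -/
lemma local_rel (M : A →ₗ[F] B →ₗ[F] C →ₗ[F] V →ₗ[F] W) (a : A) (b : B) (c : C)
    (hmax : ∀ x y z, finrank F (LinearMap.range (M x y z)) ≤
      finrank F (LinearMap.range (M a b c)))
    (p : V →ₗ[F] K) (j : K →ₗ[F] W) (s : K →ₗ[F] V) (r : W →ₗ[F] K)
    (nV : V →ₗ[F] V) (nW : W →ₗ[F] W) (h0 : M a b c = j ∘ₗ p)
    (hps : ∀ u, p (s u) = u) (hrj : ∀ u, r (j u) = u)
    (hV : ∀ v, p (nV v) = 0) (hW : ∀ u, nW (j u) = 0) (x : A) (y : B) (z : C) (v : V) :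
    nW ((M x b c + M a y c + M a b z) (s (r ((M x b c + M a y c + M a b z) (nV v))))) =
      nW ((M x y c + M x b z + M a y z) (nV v)) ∧
    (r ((M x b c + M a y c + M a b z) (nV v)) = 0 →
      nW (M x y z (nV v)) =
        nW ((M x b c + M a y c + M a b z) (s (r ((M x y c + M x b z + M a y z) (nV v)))))) := by
  set N₁ := M x b c + M a y c + M a b z with hN₁
  set N₂ := M x y c + M x b z + M a y z with hN₂
  have hM : ∀ t : F, finrank F (LinearMap.range (M a b c + t • N₁ + t ^ 2 • N₂ + t ^ 3 • M x y z))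
      ≤ finrank F (LinearMap.range (M a b c)) := by
    intro t
    have e : M a b c + t • N₁ + t ^ 2 • N₂ + t ^ 3 • M x y z =
        M (a + t • x) (b + t • y) (c + t • z) := by
      simp only [hN₁, hN₂, map_add, map_smul, LinearMap.add_apply, LinearMap.smul_apply]
      module
    rw [e]
    exact hmax _ _ _
  have k0 : M a b c (nV v) = 0 := by simp [h0, hV]
  have kill : ∀ w ∈ LinearMap.range (M a b c), nW w = 0 := by
    rintro _ ⟨w, rfl⟩
    simp [h0, hW]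
  have back : ∀ w ∈ LinearMap.range (M a b c), M a b c (s (r w)) = w := by
    rintro _ ⟨w, rfl⟩
    simp [h0, hps, hrj]
  have f1 := first_order _ _ _ _ hM (nV v) k0
  have f2 := second_order _ _ _ _ hM (nV v) _ k0 (back _ f1)
  refine ⟨?_, fun hr => ?_⟩
  · have := kill _ f2
    rw [map_sub, sub_eq_zero] at this
    exact this.symm
  · have e1 : N₁ (nV v) = 0 := by
      rw [← back _ f1, hr]
      simp
    have f2' : N₂ (nV v) ∈ LinearMap.range (M a b c) := by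
      simpa [hr] using f2
    have f3 := third_order _ _ _ _ hM (nV v) _ k0 e1 (back _ f2')
    have := kill _ f3
    rw [map_sub, sub_eq_zero] at this
    exact this

variable [FiniteDimensional F W] [FiniteDimensional F K]
variable [FiniteDimensional F A] [FiniteDimensional F B] [FiniteDimensional F C]

/-- The one-sided bound. -/
lemma one_side (Ga : A →ₗ[F] K →ₗ[F] W) (Gb : B →ₗ[F] K →ₗ[F] W) (Gc : C →ₗ[F] K →ₗ[F] W)
    (Fa : A →ₗ[F] V →ₗ[F] K) (Fb : B →ₗ[F] V →ₗ[F] K) (Fc : C →ₗ[F] V →ₗ[F] K)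
    (Fab : A →ₗ[F] B →ₗ[F] V →ₗ[F] K) (Fac : A →ₗ[F] C →ₗ[F] V →ₗ[F] K)
    (Fbc : B →ₗ[F] C →ₗ[F] V →ₗ[F] K) (H : A →ₗ[F] B →ₗ[F] C →ₗ[F] V →ₗ[F] W)
    (sa : ∀ x v, Ga x (Fa x v) = 0) (sb : ∀ x v, Gb x (Fb x v) = 0)
    (sc : ∀ x v, Gc x (Fc x v) = 0)
    (star : ∀ x y z v, Fa x v = 0 → Fb y v = 0 → Fc z v = 0 →
      H x y z v = (Ga x + Gb y + Gc z) ((Fab x y + Fac x z + Fbc y z) v))
    {Za Zb Zc : Submodule F K} {δ η : ℕ}
    (ga : Good Ga Za δ η) (gb : Good Gb Zb δ η) (gc : Good Gc Zc δ η)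
    (Qa Qb Qc : Submodule F K)
    (qa : ∃ U : Submodule F V, Cd U η ∧ ∀ x, ∀ v ∈ U, Fa x v ∈ Qa)
    (qb : ∃ U : Submodule F V, Cd U η ∧ ∀ x, ∀ v ∈ U, Fb x v ∈ Qb)
    (qc : ∃ U : Submodule F V, Cd U η ∧ ∀ x, ∀ v ∈ U, Fc x v ∈ Qc)
    (N : V →ₗ[F] W) (hN : N ∈ span F {L | ∃ x y z, H x y z = L}) :
    ∃ da db dc : ℕ,
      da + finrank F (Za ⊓ Zb ⊓ Zc : Submodule F K) = finrank F (Zb ⊓ Zc : Submodule F K) ∧
      db + finrank F (Za ⊓ Zb ⊓ Zc : Submodule F K) = finrank F (Za ⊓ Zc : Submodule F K) ∧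
      dc + finrank F (Za ⊓ Zb ⊓ Zc : Submodule F K) = finrank F (Za ⊓ Zb : Submodule F K) ∧
      finrank F (LinearMap.range N) ≤
        finrank F A * (finrank F (Za ⊓ Qa : Submodule F K) + da) +
        finrank F B * (finrank F (Zb ⊓ Qb : Submodule F K) + db) +
        finrank F C * (finrank F (Zc ⊓ Qc : Submodule F K) + dc) +
        (6 * η + 3 * δ + 2 * (finrank F A * δ + finrank F B * δ + finrank F C * δ)) := by
  obtain ⟨Ua, ca, qa⟩ := qa
  obtain ⟨Ub, cb, qb⟩ := qb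
  obtain ⟨Uc, cc, qc⟩ := qc
  obtain ⟨Ua', ca', za⟩ := cut_first ga Fa sa Qa Ua ca qa
  obtain ⟨Ub', cb', zb⟩ := cut_first gb Fb sb Qb Ub cb qb
  obtain ⟨Uc', cc', zc⟩ := cut_first gc Fc sc Qc Uc cc qc
  have c0 := (ca'.inf cb').inf cc'
  set U := Ua' ⊓ Ub' ⊓ Uc' with hU
  have st : ∀ v ∈ U, ∀ x y z,
      H x y z v = (Ga x + Gb y + Gc z) ((Fab x y + Fac x z + Fbc y z) v) :=
    fun v hv x y z => star x y z v (za x v hv.1.1) (zb y v hv.1.2) (zc z v hv.2)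
  have pab : ∀ v ∈ U, ∀ x y, Ga x (Fab x y v) = 0 ∧ Gb y (Fab x y v) = 0 := by
    intro v hv
    refine split2 Ga Gb Fab v fun x y => ?_
    simpa using (st v hv x y 0).symm
  have pac : ∀ v ∈ U, ∀ x z, Ga x (Fac x z v) = 0 ∧ Gc z (Fac x z v) = 0 := by
    intro v hv
    refine split2 Ga Gc Fac v fun x z => ?_
    simpa using (st v hv x 0 z).symm
  have pbc : ∀ v ∈ U, ∀ y z, Gb y (Fbc y z v) = 0 ∧ Gc z (Fbc y z v) = 0 := by
    intro v hv
    refine split2 Gb Gc Fbc v fun y z => ?_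
    simpa using (st v hv 0 y z).symm
  obtain ⟨U₁, l₁, c₁, z₁⟩ := cut_second ga Fab U c0 fun x y v hv => (pab v hv x y).1
  obtain ⟨U₂, l₂, c₂, z₂⟩ := cut_second gb Fab.flip U₁ c₁
    fun y x v hv => (pab v (l₁ hv) x y).2
  obtain ⟨U₃, l₃, c₃, z₃⟩ := cut_second ga Fac U₂ c₂
    fun x z v hv => (pac v (l₁ (l₂ hv)) x z).1
  obtain ⟨U₄, l₄, c₄, z₄⟩ := cut_second gc Fac.flip U₃ c₃
    fun z x v hv => (pac v (l₁ (l₂ (l₃ hv))) x z).2
  obtain ⟨U₅, l₅, c₅, z₅⟩ := cut_second gb Fbc U₄ c₄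
    fun y z v hv => (pbc v (l₁ (l₂ (l₃ (l₄ hv)))) y z).1
  obtain ⟨U₆, l₆, c₆, z₆⟩ := cut_second gc Fbc.flip U₅ c₅
    fun z y v hv => (pbc v (l₁ (l₂ (l₃ (l₄ (l₅ hv))))) y z).2
  obtain ⟨Wa, da, ea, wa, ia⟩ := image_cover ga (Zb ⊓ Zc)
  obtain ⟨Wb, db, eb, wb, ib⟩ := image_cover gb (Za ⊓ Zc)
  obtain ⟨Wc, dc, ec, wc, ic⟩ := image_cover gc (Za ⊓ Zb)
  refine ⟨da, db, dc, ?_, ?_, ec, ?_⟩
  · rw [← ea, inf_assoc, inf_comm]
  · rw [← eb, inf_right_comm]
  have key := rank_le_of_cd c₆ N (Wa ⊔ Wb ⊔ Wc) (by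
    intro v h₆
    have h₅ := l₆ h₆
    have h₄ := l₅ h₅
    have h₃ := l₄ h₄
    have h₂ := l₃ h₃
    have h₁ := l₂ h₂
    have h₀ := l₁ h₁
    induction hN using Submodule.span_induction with
    | mem L hL =>
      obtain ⟨x, y, z, rfl⟩ := hL
      have e : H x y z v = Ga x (Fbc y z v) + Gb y (Fac x z v) + Gc z (Fab x y v) := by
        rw [st v h₀]
        simp only [LinearMap.add_apply, map_add, (pab v h₀ x y).1, (pab v h₀ x y).2,
          (pac v h₀ x z).1, (pac v h₀ x z).2, (pbc v h₀ y z).1, (pbc v h₀ y z).2]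
        abel
      rw [e]
      refine add_mem (add_mem ?_ ?_) ?_
      · exact mem_sup_left (mem_sup_left (ia x _ ⟨z₅ y z v h₅, z₆ z y v h₆⟩))
      · exact mem_sup_left (mem_sup_right (ib y _ ⟨z₃ x z v h₃, z₄ z x v h₄⟩))
      · exact mem_sup_right (ic z _ ⟨z₁ x y v h₁, z₂ y x v h₂⟩)
    | zero => simp
    | add L L' _ _ h h' => exact add_mem h h'
    | smul t L _ h => exact Submodule.smul_mem _ t h)
  have s1 := Submodule.finrank_sup_add_finrank_inf_eq Wa Wb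
  have s2 := Submodule.finrank_sup_add_finrank_inf_eq (Wa ⊔ Wb) Wc
  simp only [Nat.mul_add]
  omega

end Pool.Agent.P.MP_e72dc0_lc.Rk
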