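import Pool.Agent.P.MP_e72dc0_lc.RkC

/-! Rank methods, part D: dimension count, duality and the two-sided bound. -/

open Module Submodule

namespace Pool.Agent.P.MP_e72dc0_lc.Rk

variable {F : Type*} [Field F]
variable {A : Type*} [AddCommGroup A] [Module F A]
variable {B : Type*} [AddCommGroup B] [Module F B]
variable {C : Type*} [AddCommGroup C] [Module F C]
variable {K : Type*} [AddCommGroup K] [Module F K]
variable {V : Type*} [AddCommGroup V] [Module F V]
variable {W : Type*} [AddCommGroup W] [Module F W]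

section Dim
variable [FiniteDimensional F K]

lemma dim_sup_step {X Q Z : Submodule F K} (h : Z ≤ X) :
    finrank F (X ⊔ Q : Submodule F K) + finrank F (Z ⊓ Q : Submodule F K) ≤
      finrank F X + finrank F Q := by
  have h1 := finrank_sup_add_finrank_inf_eq X Q
  have h2 : finrank F (Z ⊓ Q : Submodule F K) ≤ finrank F (X ⊓ Q : Submodule F K) :=
    finrank_mono (inf_le_inf_right Q h)
  omega

lemma dim_inf_step {X Q Z : Submodule F K} (h : X ≤ Q) :
    finrank F X + finrank F (Z ⊓ Q : Submodule F K) ≤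
      finrank F (X ⊓ Z : Submodule F K) + finrank F Q := by
  have h1 := finrank_sup_add_finrank_inf_eq X (Z ⊓ Q)
  have h2 : finrank F (X ⊔ Z ⊓ Q : Submodule F K) ≤ finrank F Q :=
    finrank_mono (sup_le h inf_le_right)
  have h3 : finrank F (X ⊓ (Z ⊓ Q) : Submodule F K) ≤ finrank F (X ⊓ Z : Submodule F K) :=
    finrank_mono (inf_le_inf_left X inf_le_left)
  omega

lemma dim_three_inf (X Y Z : Submodule F K) :
    finrank F (X ⊓ Y : Submodule F K) + finrank F (X ⊓ Z : Submodule F K) +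
      finrank F (Y ⊓ Z : Submodule F K) + finrank F (X ⊔ Y ⊔ Z : Submodule F K) ≤
      finrank F X + finrank F Y + finrank F Z + finrank F (X ⊓ Y ⊓ Z : Submodule F K) := by
  have h1 := finrank_sup_add_finrank_inf_eq X Y
  have h2 := finrank_sup_add_finrank_inf_eq (X ⊔ Y) Z
  have h3 := finrank_sup_add_finrank_inf_eq (X ⊓ Z) (Y ⊓ Z)
  have h4 : finrank F (X ⊓ Z ⊔ Y ⊓ Z : Submodule F K) ≤ finrank F ((X ⊔ Y) ⊓ Z : Submodule F K) :=
    finrank_mono (sup_le (inf_le_inf_right Z le_sup_left) (inf_le_inf_right Z le_sup_right))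
  rw [← inf_inf_distrib_right] at h3
  omega

lemma dim_three_sup (X Y Z : Submodule F K) :
    finrank F X + finrank F Y + finrank F Z + finrank F (X ⊔ Y ⊔ Z : Submodule F K) ≤
    finrank F (X ⊔ Y : Submodule F K) + finrank F (X ⊔ Z : Submodule F K) +
      finrank F (Y ⊔ Z : Submodule F K) + finrank F (X ⊓ Y ⊓ Z : Submodule F K) := by
  have h1 := finrank_sup_add_finrank_inf_eq X Y
  have h2 := finrank_sup_add_finrank_inf_eq (X ⊓ Y) Z
  have h3 := finrank_sup_add_finrank_inf_eq (X ⊔ Z) (Y ⊔ Z)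
  have h4 : finrank F (X ⊓ Y ⊔ Z : Submodule F K) ≤
      finrank F ((X ⊔ Z) ⊓ (Y ⊔ Z) : Submodule F K) :=
    finrank_mono (le_inf (sup_le_sup_right inf_le_left Z) (sup_le_sup_right inf_le_right Z))
  rw [← sup_sup_distrib_right] at h3
  omega

lemma dim_alpha (X Y Z P Q R : Submodule F K) :
    finrank F (P ⊔ Q ⊔ R : Submodule F K) + finrank F (X ⊓ P : Submodule F K) +
      finrank F (Y ⊓ Q : Submodule F K) + finrank F (Z ⊓ R : Submodule F K) ≤
      finrank F (X ⊔ Y ⊔ Z : Submodule F K) + finrank F P + finrank F Q + finrank F R := by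
  have h1 := dim_sup_step (X := X ⊔ Y ⊔ Z) (Q := P) (Z := X) (le_sup_left.trans le_sup_left)
  have h2 := dim_sup_step (X := X ⊔ Y ⊔ Z ⊔ P) (Q := Q) (Z := Y)
    ((le_sup_right.trans le_sup_left).trans le_sup_left)
  have h3 := dim_sup_step (X := X ⊔ Y ⊔ Z ⊔ P ⊔ Q) (Q := R) (Z := Z)
    ((le_sup_right.trans le_sup_left).trans le_sup_left)
  have h4 : finrank F (P ⊔ Q ⊔ R : Submodule F K) ≤
      finrank F (X ⊔ Y ⊔ Z ⊔ P ⊔ Q ⊔ R : Submodule F K) :=
    finrank_mono (sup_le_sup_right (sup_le_sup_right le_sup_right Q) R)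
  omega

lemma dim_beta (X Y Z P Q R : Submodule F K) :
    finrank F (P ⊓ Q ⊓ R : Submodule F K) + finrank F (X ⊓ P : Submodule F K) +
      finrank F (Y ⊓ Q : Submodule F K) + finrank F (Z ⊓ R : Submodule F K) ≤
      finrank F (X ⊓ Y ⊓ Z : Submodule F K) + finrank F P + finrank F Q + finrank F R := by
  have h1 := dim_inf_step (X := P ⊓ Q ⊓ R) (Q := P) (Z := X) (inf_le_left.trans inf_le_left)
  have h2 := dim_inf_step (X := P ⊓ Q ⊓ R ⊓ X) (Q := Q) (Z := Y)
    (inf_le_left.trans (inf_le_left.trans inf_le_right))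
  have h3 := dim_inf_step (X := P ⊓ Q ⊓ R ⊓ X ⊓ Y) (Q := R) (Z := Z)
    (inf_le_left.trans (inf_le_left.trans inf_le_right))
  have h4 : finrank F (P ⊓ Q ⊓ R ⊓ X ⊓ Y ⊓ Z : Submodule F K) ≤
      finrank F (X ⊓ Y ⊓ Z : Submodule F K) :=
    finrank_mono (inf_le_inf_right Z (inf_le_inf_right Y inf_le_right))
  omega

lemma weights (a b c μ ta tb tc ρ : ℕ) (ha : μ ≤ a) (hb : μ ≤ b) (hc : μ ≤ c)
    (h1 : ta ≤ 2 * ρ) (h2 : tb ≤ 2 * ρ) (h3 : tc ≤ 2 * ρ) (h4 : ta + tb + tc ≤ 4 * ρ) :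
    a * ta + b * tb + c * tc + 2 * (μ * ρ) ≤ 2 * (a * ρ + b * ρ + c * ρ) := by
  obtain ⟨a, rfl⟩ := Nat.exists_eq_add_of_le ha
  obtain ⟨b, rfl⟩ := Nat.exists_eq_add_of_le hb
  obtain ⟨c, rfl⟩ := Nat.exists_eq_add_of_le hc
  have e1 := Nat.mul_le_mul_left a h1
  have e2 := Nat.mul_le_mul_left b h2
  have e3 := Nat.mul_le_mul_left c h3
  have e4 := Nat.mul_le_mul_left μ h4
  nlinarith

/-- The dimension count for three subspaces of `K` and three subspaces of its dual. -/
lemma count (X Y Z P Q R : Submodule F K) (da db dc ea eb ec : ℕ)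
    (h1 : da + finrank F (X ⊓ Y ⊓ Z : Submodule F K) = finrank F (Y ⊓ Z : Submodule F K))
    (h2 : db + finrank F (X ⊓ Y ⊓ Z : Submodule F K) = finrank F (X ⊓ Z : Submodule F K))
    (h3 : dc + finrank F (X ⊓ Y ⊓ Z : Submodule F K) = finrank F (X ⊓ Y : Submodule F K))
    (k1 : ea + finrank F (P.dualAnnihilator ⊓ Q.dualAnnihilator ⊓ R.dualAnnihilator :
      Submodule F (Dual F K)) =
      finrank F (Q.dualAnnihilator ⊓ R.dualAnnihilator : Submodule F (Dual F K)))
    (k2 : eb + finrank F (P.dualAnnihilator ⊓ Q.dualAnnihilator ⊓ R.dualAnnihilator :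
      Submodule F (Dual F K)) =
      finrank F (P.dualAnnihilator ⊓ R.dualAnnihilator : Submodule F (Dual F K)))
    (k3 : ec + finrank F (P.dualAnnihilator ⊓ Q.dualAnnihilator ⊓ R.dualAnnihilator :
      Submodule F (Dual F K)) =
      finrank F (P.dualAnnihilator ⊓ Q.dualAnnihilator : Submodule F (Dual F K)))
    (a b c μ : ℕ) (ha : μ ≤ a) (hb : μ ≤ b) (hc : μ ≤ c) :
    a * (finrank F (X ⊓ P : Submodule F K) + da) + b * (finrank F (Y ⊓ Q : Submodule F K) + db) +
      c * (finrank F (Z ⊓ R : Submodule F K) + dc) +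
    (a * (finrank F (P.dualAnnihilator ⊓ X.dualAnnihilator : Submodule F (Dual F K)) + ea) +
      b * (finrank F (Q.dualAnnihilator ⊓ Y.dualAnnihilator : Submodule F (Dual F K)) + eb) +
      c * (finrank F (R.dualAnnihilator ⊓ Z.dualAnnihilator : Submodule F (Dual F K)) + ec)) +
      2 * (μ * finrank F K) ≤
      2 * (a * finrank F K + b * finrank F K + c * finrank F K) := by
  have d : ∀ U U' : Submodule F K, finrank F (U ⊔ U' : Submodule F K) +
      finrank F (U.dualAnnihilator ⊓ U'.dualAnnihilator : Submodule F (Dual F K)) =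
      finrank F K := by
    intro U U'
    rw [← Submodule.dualAnnihilator_sup_eq]
    exact Subspace.finrank_add_finrank_dualAnnihilator_eq _
  have d1 := d (P ⊔ Q) R
  rw [Submodule.dualAnnihilator_sup_eq] at d1
  have d2 := d Q R
  have d3 := d P R
  have d4 := d P Q
  have d5 := d P X
  have d6 := d Q Y
  have d7 := d R Z
  have i := fun U U' : Submodule F K => finrank_sup_add_finrank_inf_eq U U'
  have i1 := i P X
  have i2 := i Q Y
  have i3 := i R Z
  rw [inf_comm] at i1 i2 i3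
  have j1 := i X (Y ⊓ Z)
  have j2 := i (X ⊓ Z) Y
  have j3 := i (X ⊓ Y) Z
  rw [← inf_assoc] at j1
  rw [inf_right_comm] at j2
  have j4 := i P (Q ⊔ R)
  have j5 := i (P ⊔ R) Q
  have j6 := i (P ⊔ Q) R
  rw [← sup_assoc] at j4
  rw [sup_right_comm] at j5
  have l := fun U : Submodule F K => finrank_le U
  have l1 := l (X ⊔ Y ⊓ Z)
  have l2 := l (X ⊓ Z ⊔ Y)
  have l3 := l (X ⊓ Y ⊔ Z)
  have l4 := l (P ⊔ Q ⊔ R)
  have m1 : finrank F (X ⊓ P : Submodule F K) ≤ finrank F X := finrank_mono inf_le_left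
  have m2 : finrank F (Y ⊓ Q : Submodule F K) ≤ finrank F Y := finrank_mono inf_le_left
  have m3 : finrank F (Z ⊓ R : Submodule F K) ≤ finrank F Z := finrank_mono inf_le_left
  have m4 : finrank F P ≤ finrank F (P ⊔ X : Submodule F K) := finrank_mono le_sup_left
  have m5 : finrank F Q ≤ finrank F (Q ⊔ Y : Submodule F K) := finrank_mono le_sup_left
  have m6 : finrank F R ≤ finrank F (R ⊔ Z : Submodule F K) := finrank_mono le_sup_left
  have u1 := dim_three_inf X Y Z
  have u2 := dim_three_sup P Q R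
  have u3 := dim_alpha X Y Z P Q R
  have u4 := dim_beta X Y Z P Q R
  have w := weights a b c μ
    (finrank F (X ⊓ P : Submodule F K) + da +
      (finrank F (P.dualAnnihilator ⊓ X.dualAnnihilator : Submodule F (Dual F K)) + ea))
    (finrank F (Y ⊓ Q : Submodule F K) + db +
      (finrank F (Q.dualAnnihilator ⊓ Y.dualAnnihilator : Submodule F (Dual F K)) + eb))
    (finrank F (Z ⊓ R : Submodule F K) + dc +
      (finrank F (R.dualAnnihilator ⊓ Z.dualAnnihilator : Submodule F (Dual F K)) + ec))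
    (finrank F K) ha hb hc (by omega) (by omega) (by omega) (by omega)
  simp only [Nat.mul_add] at w ⊢
  omega

end Dim

end Pool.Agent.P.MP_e72dc0_lc.Rk
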