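import Pool.Agent.P.MP_e72dc0_lc.RkD

/-! Rank methods, part E: duality and the two-sided bound. -/

open Module Submodule

namespace Pool.Agent.P.MP_e72dc0_lc.Rk

variable {F : Type*} [Field F]
variable {A : Type*} [AddCommGroup A] [Module F A]
variable {B : Type*} [AddCommGroup B] [Module F B]
variable {C : Type*} [AddCommGroup C] [Module F C]
variable {K : Type*} [AddCommGroup K] [Module F K]
variable {V : Type*} [AddCommGroup V] [Module F V]
variable {W : Type*} [AddCommGroup W] [Module F W]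

section Post
variable {X Y X' Y' : Type*} [AddCommMonoid X] [Module F X] [AddCommMonoid Y] [Module F Y]
  [AddCommMonoid X'] [Module F X'] [AddCommMonoid Y'] [Module F Y']

/-- `N ↦ g ∘ N ∘ f`. -/
def sand (f : X' →ₗ[F] X) (g : Y →ₗ[F] Y') : (X →ₗ[F] Y) →ₗ[F] X' →ₗ[F] Y' where
  toFun N := g ∘ₗ N ∘ₗ f
  map_add' _ _ := by ext; simp
  map_smul' _ _ := by ext; simp

@[simp] lemma sand_apply (f : X' →ₗ[F] X) (g : Y →ₗ[F] Y') (N : X →ₗ[F] Y) (v : X') :
    sand f g N v = g (N (f v)) := rfl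

/-- Post-composition of a trilinear map. -/
def post (M : A →ₗ[F] B →ₗ[F] C →ₗ[F] X) (L : X →ₗ[F] Y) : A →ₗ[F] B →ₗ[F] C →ₗ[F] Y :=
  M.compr₂ (sand LinearMap.id L)

@[simp] lemma post_apply (M : A →ₗ[F] B →ₗ[F] C →ₗ[F] X) (L : X →ₗ[F] Y) (x : A) (y : B)
    (z : C) : post M L x y z = L (M x y z) := rfl

lemma span_post (M : A →ₗ[F] B →ₗ[F] C →ₗ[F] X) (L : X →ₗ[F] Y) (N : X)
    (hN : N ∈ span F {L | ∃ x y z, M x y z = L}) :
    L N ∈ span F {L' | ∃ x y z, post M L x y z = L'} := by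
  induction hN using Submodule.span_induction with
  | mem _ h =>
    obtain ⟨x, y, z, rfl⟩ := h
    exact subset_span ⟨x, y, z, rfl⟩
  | zero => simp
  | add _ _ _ _ h h' =>
    rw [map_add]
    exact add_mem h h'
  | smul t _ _ h =>
    rw [map_smul]
    exact Submodule.smul_mem _ t h

end Post

lemma good_dual [FiniteDimensional F V] {G : A →ₗ[F] Dual F K →ₗ[F] Dual F V}
    {Z : Submodule F (Dual F K)} {δ η : ℕ} (hG : Good G Z δ η) (Φ : A → V → K)
    (h : ∀ x ζ v, G x ζ v = ζ (Φ x v)) :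
    ∃ U : Submodule F V, Cd U η ∧ ∀ x, ∀ v ∈ U, Φ x v ∈ Z.dualCoannihilator := by
  obtain ⟨⟨W', h1, h2⟩, -⟩ := hG
  refine ⟨W'.dualCoannihilator, ?_, fun x v hv => ?_⟩
  · have := Subspace.finrank_add_finrank_dualCoannihilator_eq W'
    unfold Cd
    omega
  · rw [Submodule.mem_dualCoannihilator] at hv ⊢
    intro ζ hζ
    rw [← h]
    exact hv _ (h2 x ζ hζ)

lemma good_dual' [FiniteDimensional F W] {G : A →ₗ[F] K →ₗ[F] W}
    {Z : Submodule F K} {δ η : ℕ} (hG : Good G Z δ η) (Φ : A → Dual F W → Dual F K)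
    (h : ∀ x ω u, Φ x ω u = ω (G x u)) :
    ∃ U : Submodule F (Dual F W), Cd U η ∧ ∀ x, ∀ ω ∈ U, Φ x ω ∈ Z.dualAnnihilator := by
  obtain ⟨⟨W', h1, h2⟩, -⟩ := hG
  refine ⟨W'.dualAnnihilator, ?_, fun x v hv => ?_⟩
  · have := Subspace.finrank_add_finrank_dualAnnihilator_eq W'
    have := Subspace.dual_finrank_eq (K := F) (V := W)
    unfold Cd
    omega
  · rw [Submodule.mem_dualAnnihilator] at hv ⊢
    intro u hu
    rw [h]
    exact hv _ (h2 x u hu)

variable [Infinite F]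
variable [FiniteDimensional F V] [FiniteDimensional F W] [FiniteDimensional F K]
variable [FiniteDimensional F A] [FiniteDimensional F B] [FiniteDimensional F C]

/-- The one-sided bound at a point of maximal rank. -/
lemma side (M : A →ₗ[F] B →ₗ[F] C →ₗ[F] V →ₗ[F] W) (a : A) (b : B) (c : C)
    (hmax : ∀ x y z, finrank F (LinearMap.range (M x y z)) ≤
      finrank F (LinearMap.range (M a b c)))
    (p : V →ₗ[F] K) (j : K →ₗ[F] W) (s : K →ₗ[F] V) (r : W →ₗ[F] K)
    (nV : V →ₗ[F] V) (nW : W →ₗ[F] W) (h0 : M a b c = j ∘ₗ p)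
    (hps : ∀ u, p (s u) = u) (hrj : ∀ u, r (j u) = u)
    (hV : ∀ v, p (nV v) = 0) (hW : ∀ u, nW (j u) = 0)
    {Za Zb Zc : Submodule F K} {δ η : ℕ}
    (ga : Good (sand s nW ∘ₗ (M.flip b).flip c) Za δ η)
    (gb : Good (sand s nW ∘ₗ (M a).flip c) Zb δ η) (gc : Good (sand s nW ∘ₗ M a b) Zc δ η)
    (Qa Qb Qc : Submodule F K)
    (qa : ∃ U : Submodule F V, Cd U η ∧ ∀ x, ∀ v ∈ U, r (M x b c (nV v)) ∈ Qa)
    (qb : ∃ U : Submodule F V, Cd U η ∧ ∀ x, ∀ v ∈ U, r (M a x c (nV v)) ∈ Qb)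
    (qc : ∃ U : Submodule F V, Cd U η ∧ ∀ x, ∀ v ∈ U, r (M a b x (nV v)) ∈ Qc)
    (N : V →ₗ[F] W) (hN : N ∈ span F {L | ∃ x y z, M x y z = L}) :
    ∃ da db dc : ℕ,
      da + finrank F (Za ⊓ Zb ⊓ Zc : Submodule F K) = finrank F (Zb ⊓ Zc : Submodule F K) ∧
      db + finrank F (Za ⊓ Zb ⊓ Zc : Submodule F K) = finrank F (Za ⊓ Zc : Submodule F K) ∧
      dc + finrank F (Za ⊓ Zb ⊓ Zc : Submodule F K) = finrank F (Za ⊓ Zb : Submodule F K) ∧
      finrank F (LinearMap.range (sand nV nW N)) ≤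
        finrank F A * (finrank F (Za ⊓ Qa : Submodule F K) + da) +
        finrank F B * (finrank F (Zb ⊓ Qb : Submodule F K) + db) +
        finrank F C * (finrank F (Zc ⊓ Qc : Submodule F K) + dc) +
        (6 * η + 3 * δ + 2 * (finrank F A * δ + finrank F B * δ + finrank F C * δ)) := by
  have loc := local_rel M a b c hmax p j s r nV nW h0 hps hrj hV hW
  refine one_side _ _ _ (sand nV r ∘ₗ (M.flip b).flip c) (sand nV r ∘ₗ (M a).flip c)
    (sand nV r ∘ₗ M a b) ((M.compr₂ (LinearMap.applyₗ c)).compr₂ (sand nV r))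
    ((M.flip b).compr₂ (sand nV r)) ((M a).compr₂ (sand nV r)) (post M (sand nV nW))
    ?_ ?_ ?_ ?_ ga gb gc Qa Qb Qc qa qb qc _ (span_post M _ N hN)
  · intro x v
    simpa using (loc x 0 0 v).1
  · intro x v
    simpa using (loc 0 x 0 v).1
  · intro x v
    simpa using (loc 0 0 x v).1
  · intro x y z v h1 h2 h3
    have e1 : r (M x b c (nV v)) = 0 := h1
    have e2 : r (M a y c (nV v)) = 0 := h2
    have e3 : r (M a b z (nV v)) = 0 := h3
    simpa using (loc x y z v).2 (by simp [e1, e2, e3])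

omit [FiniteDimensional F K] in
theorem two_side (M : A →ₗ[F] B →ₗ[F] C →ₗ[F] V →ₗ[F] W) (a : A) (b : B) (c : C)
    (hmax : ∀ x y z, finrank F (LinearMap.range (M x y z)) ≤
      finrank F (LinearMap.range (M a b c)))
    (N : V →ₗ[F] W) (hN : N ∈ span F {L | ∃ x y z, M x y z = L}) (k μ ρ : ℕ)
    (hρ : ρ = finrank F (LinearMap.range (M a b c)))
    (ha : μ ≤ finrank F A) (hb : μ ≤ finrank F B) (hc : μ ≤ finrank F C) :
    finrank F (LinearMap.range N) + μ * ρ ≤
      (finrank F A + finrank F B + finrank F C + 2) * ρ + 6 * ((k + 1) * ρ) +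
        (2 * (finrank F A + finrank F B + finrank F C) + 3) * (ρ / (k + 1)) := by
  set K := LinearMap.range (M a b c) with hK
  let j : K →ₗ[F] W := K.subtype
  let p : V →ₗ[F] K := (M a b c).rangeRestrict
  obtain ⟨s, hs⟩ := p.exists_rightInverse_of_surjective (LinearMap.range_rangeRestrict _)
  obtain ⟨r, hr⟩ := j.exists_leftInverse_of_injective (Submodule.ker_subtype _)
  have hps : ∀ u, p (s u) = u := fun u => LinearMap.congr_fun hs u
  have hrj : ∀ u, r (j u) = u := fun u => LinearMap.congr_fun hr u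
  let nV : V →ₗ[F] V := LinearMap.id - s ∘ₗ p
  let nW : W →ₗ[F] W := LinearMap.id - j ∘ₗ r
  have hV : ∀ v, p (nV v) = 0 := by
    intro v
    simp [nV, hps]
  have hW : ∀ u, nW (j u) = 0 := by
    intro u
    simp only [nW, LinearMap.sub_apply, LinearMap.comp_apply, hrj, LinearMap.id_apply, sub_self]
  have h0 : M a b c = j ∘ₗ p := rfl
  let tr : (V →ₗ[F] W) →ₗ[F] Dual F W →ₗ[F] Dual F V := Dual.transpose
  let M' := post M tr
  have rk' : ∀ L : V →ₗ[F] W, finrank F (LinearMap.range (tr L)) =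
      finrank F (LinearMap.range L) := LinearMap.finrank_range_dualMap_eq_finrank_range
  have dK : finrank F (Dual F K) = ρ := Subspace.dual_finrank_eq.trans hρ.symm
  obtain ⟨Za, ga⟩ := exists_good (sand s nW ∘ₗ (M.flip b).flip c) k
  obtain ⟨Zb, gb⟩ := exists_good (sand s nW ∘ₗ (M a).flip c) k
  obtain ⟨Zc, gc⟩ := exists_good (sand s nW ∘ₗ M a b) k
  obtain ⟨Ya, ga'⟩ := exists_good (sand r.dualMap nV.dualMap ∘ₗ (M'.flip b).flip c) k
  obtain ⟨Yb, gb'⟩ := exists_good (sand r.dualMap nV.dualMap ∘ₗ (M' a).flip c) k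
  obtain ⟨Yc, gc'⟩ := exists_good (sand r.dualMap nV.dualMap ∘ₗ M' a b) k
  rw [← hρ] at ga gb gc
  rw [dK] at ga' gb' gc'
  obtain ⟨da, db, dc, h1, h2, h3, h4⟩ := side M a b c hmax p j s r nV nW h0 hps hrj hV hW ga gb gc
    _ _ _ (good_dual ga' _ fun _ _ _ => rfl) (good_dual gb' _ fun _ _ _ => rfl)
    (good_dual gc' _ fun _ _ _ => rfl) N hN
  obtain ⟨ea, eb, ec, k1, k2, k3, k4⟩ := side M' a b c
    (fun x y z => (rk' _).trans_le ((hmax x y z).trans_eq (rk' _).symm))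
    j.dualMap p.dualMap r.dualMap s.dualMap nW.dualMap nV.dualMap rfl
    (fun u => by ext; simp [hrj]) (fun u => by ext; simp [hps])
    (fun u => by ext; simp [hW]) (fun u => by ext; simp [hV]) ga' gb' gc'
    _ _ _ (good_dual' ga _ fun _ _ _ => rfl) (good_dual' gb _ fun _ _ _ => rfl)
    (good_dual' gc _ fun _ _ _ => rfl) _ (span_post M _ N hN)
  have e : finrank F (LinearMap.range (sand nW.dualMap nV.dualMap (tr N))) =
      finrank F (LinearMap.range (sand nV nW N)) := rk' (sand nV nW N)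
  rw [e] at k4
  have cnt := count Za Zb Zc Ya.dualCoannihilator Yb.dualCoannihilator Yc.dualCoannihilator
    da db dc ea eb ec h1 h2 h3
  rw [Subspace.dualCoannihilator_dualAnnihilator_eq, Subspace.dualCoannihilator_dualAnnihilator_eq,
    Subspace.dualCoannihilator_dualAnnihilator_eq] at cnt
  have cnt' := cnt k1 k2 k3 _ _ _ μ ha hb hc
  have fin := rank_le_of_cd (U := LinearMap.ker p) (c := ρ) (by
    have := LinearMap.finrank_range_add_finrank_ker p
    have := finrank_le (LinearMap.range p)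
    unfold Cd
    omega) N (LinearMap.range (sand nV nW N) ⊔ K) (by
    intro v hv
    have hv' : p v = 0 := hv
    have : N v = sand nV nW N v + j (r (N v)) := by simp [nV, nW, hv']
    rw [this]
    exact add_mem_sup ⟨v, rfl⟩ (r (N v)).2)
  have s1 := finrank_sup_add_finrank_inf_eq (LinearMap.range (sand nV nW N)) K
  rw [← hρ] at cnt' s1
  simp only [Nat.add_mul, Nat.mul_add, Nat.mul_assoc] at h4 k4 cnt' ⊢
  omega

end Pool.Agent.P.MP_e72dc0_lc.Rk
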