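import Pool.Agent.P.MP_e72dc0_lc.Koszul

/-! Layered injectivity criterion and the sparsification lemma. -/

namespace Pool.Agent.P.MP_e72dc0_lc

open Finset

variable {K : Type*} [Field K]

/-- A block triangular criterion for the injectivity of a Koszul flattening. -/
theorem kinj_of_layers (p : ℕ) {V₁ V₂ : Type*} [Fintype V₁] (Q : ℕ → V₂ → V₁ → K)
    (pos : V₁ → ℕ)
    (h : ∀ y₀ : V₁, ∃ (ψ : Fin (p + 1) → V₁) (ρ : Fin (p + 1) → V₂), Function.Injective ψ ∧
      (∃ a, ψ a = y₀) ∧
      (∀ l b a, Q l (ρ b) (ψ a) = if a.val + b.val = l then 1 else 0) ∧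
      (∀ l b y, (∀ a, ψ a ≠ y) → Q l (ρ b) y = 0 ∨ pos y < pos y₀)) :
    KInj p Q := by
  classical
  intro ω hs he
  have main : ∀ n y, pos y = n → ∀ S, ω y S = 0 := by
    intro n
    induction n using Nat.strong_induction_on with
    | _ n ih =>
      intro y₀ hy₀
      obtain ⟨ψ, ρ, hψ, ⟨a₀, ha₀⟩, h1, h2⟩ := h y₀
      have key := hankel p (fun a => ω (ψ a)) (fun a => hs _) ?_
      · intro S; rw [← ha₀]; exact key a₀ S
      · intro b T
        rw [← he (ρ b) T, Finset.sum_comm]
        apply Fintype.sum_of_injective ψ hψ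
        · intro y hy
          apply Finset.sum_eq_zero
          intro l _
          rcases h2 l b y (fun a ha => hy ⟨a, ha⟩) with h3 | h3
          · rw [h3, zero_mul]
          · rw [cre_eq_zero_of _ _ (ih (pos y) (hy₀ ▸ h3) y rfl), mul_zero]
        · intro a
          simp only [h1]
          rw [Finset.sum_eq_single (a.val + b.val)]
          · simp
          · intro l _ hl; simp [hl.symm]
          · intro hl
            exact absurd (mem_range.mpr (by have := a.isLt; have := b.isLt; omega)) hl
  intro v S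
  exact main _ v rfl S

/-- If a sum of square matrices is nonsingular, so is a subsum with at most as many terms as the
order of the matrices. -/
theorem sparse_det {ι D : Type*} [Fintype ι] [Fintype D] [DecidableEq D]
    (M : ι → Matrix D D K) (h : (∑ j, M j).det ≠ 0) :
    ∃ J : Finset ι, J.card ≤ Fintype.card D ∧ (∑ j ∈ J, M j).det ≠ 0 := by
  classical
  by_contra hcon
  push Not at hcon
  let f : (D → ι) → K := fun τ => Matrix.det (Matrix.of fun r => M (τ r) r)
  have hF : ∀ J : Finset ι, (∑ j ∈ J, M j).det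
      = ∑ τ ∈ univ.filter (fun τ : D → ι => univ.image τ ⊆ J), f τ := by
    intro J
    have h1 : (∑ j ∈ J, M j).det
        = (Matrix.detRowAlternating : (D → K) [⋀^D]→ₗ[K] K).toMultilinearMap
          (fun r => ∑ j ∈ J, M j r) := by
      have : (∑ j ∈ J, M j) = Matrix.of (fun r => ∑ j ∈ J, M j r) := by
        ext r c; simp [Matrix.sum_apply, Finset.sum_apply]
      rw [this]; rfl
    rw [h1, MultilinearMap.map_sum_finset]
    apply Finset.sum_congr
    · ext τ
      simp [Fintype.mem_piFinset, Finset.image_subset_iff]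
    · intro τ _; rfl
  let g : Finset ι → K := fun U => ∑ τ ∈ univ.filter (fun τ : D → ι => univ.image τ = U), f τ
  have hg : ∀ J : Finset ι, (∑ j ∈ J, M j).det = ∑ U ∈ J.powerset, g U := by
    intro J
    rw [hF, ← Finset.sum_fiberwise_of_maps_to (t := J.powerset) (g := fun τ => univ.image τ)]
    · apply Finset.sum_congr rfl
      intro U hU
      apply Finset.sum_congr _ (fun _ _ => rfl)
      ext τ
      simp only [mem_filter, mem_univ, true_and]
      constructor
      · exact fun h => h.2
      · intro h; exact ⟨h ▸ mem_powerset.mp hU, h⟩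
    · intro τ hτ
      simpa using hτ
  have hz : ∀ U : Finset ι, g U = 0 := by
    intro U
    induction U using Finset.strongInduction with
    | H U ih =>
      by_cases hU : U.card ≤ Fintype.card D
      · have h1 := hcon U hU
        rw [hg, Finset.sum_eq_single U] at h1
        · exact h1
        · intro U' hU' hne
          exact ih U' (Finset.ssubset_iff_subset_ne.mpr ⟨mem_powerset.mp hU', hne⟩)
        · intro h; exact absurd (mem_powerset_self U) h
      · apply Finset.sum_eq_zero
        intro τ hτ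
        exfalso
        apply hU
        rw [← (mem_filter.mp hτ).2]
        exact le_trans Finset.card_image_le (by simp)
  apply h
  rw [hg]
  exact Finset.sum_eq_zero (fun U _ => hz U)

lemma cre_ext0_add (N q l : ℕ) (f g : {S // S ∈ (range N).powersetCard q} → K) (T : Finset ℕ) :
    cre l (ext0 N q (f + g)) T = cre l (ext0 N q f) T + cre l (ext0 N q g) T := by
  unfold cre ext0
  split_ifs <;> simp [mul_add]

lemma cre_ext0_smul (N q l : ℕ) (c : K) (f : {S // S ∈ (range N).powersetCard q} → K)
    (T : Finset ℕ) : cre l (ext0 N q (c • f)) T = c * cre l (ext0 N q f) T := by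
  unfold cre ext0
  split_ifs
  · simp; ring
  · simp
  · simp

/-- the Koszul flattening as a linear map -/
def kmap (p : ℕ) {V₁ V₂ : Type*} [Fintype V₁] (Q : ℕ → V₂ → V₁ → K) :
    (V₁ × {S // S ∈ (range (2 * p + 1)).powersetCard p} → K) →ₗ[K] (V₂ × Finset ℕ → K) where
  toFun f x := ∑ l ∈ range (2 * p + 1), ∑ v₁,
    Q l x.1 v₁ * cre l (ext0 (2 * p + 1) p (fun S => f (v₁, S))) x.2
  map_add' f g := by
    funext x
    simp only [Pi.add_apply]
    rw [← Finset.sum_add_distrib]
    apply Finset.sum_congr rfl; intro l _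
    rw [← Finset.sum_add_distrib]
    apply Finset.sum_congr rfl; intro v _
    rw [← mul_add, ← cre_ext0_add]; rfl
  map_smul' c f := by
    funext x
    simp only [Pi.smul_apply, smul_eq_mul, RingHom.id_apply]
    rw [Finset.mul_sum]
    apply Finset.sum_congr rfl; intro l _
    rw [Finset.mul_sum]
    apply Finset.sum_congr rfl; intro v _
    have := cre_ext0_smul (2 * p + 1) p l c (fun S => f (v, S)) x.2
    rw [mul_left_comm, ← this]; rfl

lemma kinj_iff (p : ℕ) {V₁ V₂ : Type*} [Fintype V₁] (Q : ℕ → V₂ → V₁ → K) :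
    KInj p Q ↔ Function.Injective (kmap p Q) := by
  rw [injective_iff_map_eq_zero]
  constructor
  · intro h f hf
    have key := h (fun v => ext0 (2 * p + 1) p (fun S' => f (v, S'))) (fun v => ext0_supp _ _ _)
      (fun v₂ T => congrFun hf (v₂, T))
    funext x
    have h1 := key x.1 x.2.1
    unfold ext0 at h1
    rw [dif_pos x.2.2] at h1
    exact h1
  · intro h ω hs he
    have hω : ∀ v, ext0 (2 * p + 1) p (fun S => ω v S.1) = ω v := by
      intro v; funext S
      unfold ext0
      split_ifs with hS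
      · rfl
      · by_contra hne
        exact hS (hs v S (fun h => hne h.symm))
    have key := h (fun x => ω x.1 x.2.1) (by
      funext x
      have := he x.1 x.2
      simp only [kmap, LinearMap.coe_mk, AddHom.coe_mk, hω, Pi.zero_apply]
      exact this)
    intro v S
    rw [← hω v]
    unfold ext0
    split_ifs with hS
    · exact congrFun key (v, ⟨S, hS⟩)
    · rfl

lemma kmap_sum (p : ℕ) {V₁ V₂ ι : Type*} [Fintype V₁] (J : Finset ι)
    (Q : ι → ℕ → V₂ → V₁ → K) :
    kmap p (fun l v₂ v₁ => ∑ j ∈ J, Q j l v₂ v₁) = ∑ j ∈ J, kmap p (Q j) := by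
  apply LinearMap.ext
  intro f
  funext x
  simp only [kmap, LinearMap.coe_mk, AddHom.coe_mk, LinearMap.sum_apply, Finset.sum_apply,
    Finset.sum_mul]
  rw [Finset.sum_comm (s := J)]
  apply Finset.sum_congr rfl; intro l _
  rw [Finset.sum_comm]

theorem sparse_kinj (p : ℕ) {V₁ V₂ ι : Type*} [Fintype V₁] [Fintype ι]
    (Q : ι → ℕ → V₂ → V₁ → K) (h : KInj p (fun l v₂ v₁ => ∑ j, Q j l v₂ v₁)) :
    ∃ J : Finset ι, J.card ≤ Fintype.card V₁ * (2 * p + 1).choose p ∧
      KInj p (fun l v₂ v₁ => ∑ j ∈ J, Q j l v₂ v₁) := by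
  classical
  rw [kinj_iff, kmap_sum] at h
  obtain ⟨L, hL⟩ := LinearMap.exists_leftInverse_of_injective _ (LinearMap.ker_eq_bot.mpr h)
  have hsum : ∀ J : Finset ι, ∑ j ∈ J, LinearMap.toMatrix' (L ∘ₗ kmap p (Q j))
      = LinearMap.toMatrix' (L ∘ₗ ∑ j ∈ J, kmap p (Q j)) := by
    intro J
    rw [← map_sum]
    congr 1
    apply LinearMap.ext
    intro f
    simp [LinearMap.sum_apply, map_sum]
  obtain ⟨J, hJ, hdet⟩ := sparse_det (fun j => LinearMap.toMatrix' (L ∘ₗ kmap p (Q j))) (by
    rw [hsum, hL]; simp)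
  refine ⟨J, ?_, ?_⟩
  · rw [Fintype.card_prod, Fintype.card_coe, Finset.card_powersetCard, card_range] at hJ
    exact hJ
  · rw [kinj_iff, kmap_sum]
    rw [hsum, LinearMap.det_toMatrix'] at hdet
    have h2 : Function.Injective (L ∘ₗ ∑ j ∈ J, kmap p (Q j)) := by
      rw [← LinearMap.ker_eq_bot]
      by_contra hne
      exact hdet (LinearMap.det_eq_zero_iff_ker_ne_bot.mpr hne)
    exact Function.Injective.of_comp (f := L) h2

end Pool.Agent.P.MP_e72dc0_lc
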