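import Pool.Agent.P.MP_e72dc0_lc.Sy.Fin

open MvPolynomial

theorem Pool.Agent.P.MP_e72dc0_lc.VariantSymmetricCircuits.result (F : Type*) [Field F] (r k : ℕ)
    (hr : 3 ≤ r) (E I : Type) [Fintype E] [Fintype I] (e : (Fin r × Bool × Fin k) ⊕ E ≃ I)
    (g : Finset (Fin r) → I → I)
    (hg1 : ∀ s i b l, g s (e (Sum.inl (i, b, l))) = e (Sum.inl (i, if i ∈ s then !b else b, l)))
    (hg2 : ∀ s x, g s (e (Sum.inr x)) = e (Sum.inr x))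
    (𝓜 : Finset (Multiset (MvPolynomial ((I × I) ⊕ (I × I)) F)))
    (ht : Multiset (MvPolynomial ((I × I) ⊕ (I × I)) F) → ℕ)
    (hgate : ∀ M ∈ 𝓜, ∀ u ∈ M, u ∈ Submodule.span F
      (Set.range X ∪ {1} ∪ {p | ∃ N ∈ 𝓜, ht N < ht M ∧ p = N.prod}))
    (hout : ∀ i j : I, ∑ l, X (Sum.inl (i, l)) * X (Sum.inr (l, j)) ∈ Submodule.span F
      (Set.range X ∪ {1} ∪ {p | ∃ N ∈ 𝓜, p = N.prod}))
    (hsym : ∀ (i : Fin r) (T : Finset (Fin r)), T.card ≤ 10 → i ∉ T →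
      ∃ s, i ∈ s ∧ Disjoint s T ∧ ∀ M ∈ 𝓜, ∃ N ∈ 𝓜,
        Multiset.Rel (fun p q => ∃ c : F, c ≠ 0 ∧ q = c • p)
          (M.map (rename (Sum.map (Prod.map (g s) (g s)) (Prod.map (g s) (g s))))) N) :
    ∃ R : ℕ, R * (r / 3) ^ 3 ≤ 4 * ∑ M ∈ 𝓜, M.card ∧
      ∃ (α β : Fin R → Matrix (Fin k) (Fin k) F →ₗ[F] F) (γ : Fin R → Matrix (Fin k) (Fin k) F),
        ∀ P Q, P * Q = ∑ t, (α t P * β t Q) • γ t :=
  Pool.Agent.P.MP_e72dc0_lc.Sy.main' hr e g hg1 hg2 𝓜 ht hgate hout hsym
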