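import Pool.Agent.P.MP_e72dc0_lc.Main

open MvPolynomial

theorem Pool.Agent.P.MP_e72dc0_lc.VariantTotalSize.result (F : Type*) [Field F] (m s : ℕ)
    (g : Fin s → MvPolynomial ((Fin m × Fin m) ⊕ (Fin m × Fin m)) F)
    (hg : ∀ t, ∃ u ∈ Set.range X ∪ Set.range C ∪ g '' Set.Iio t,
      ∃ v ∈ Set.range X ∪ Set.range C ∪ g '' Set.Iio t, g t = u + v ∨ g t = u * v)
    (hout : ∀ i j : Fin m, ∑ k : Fin m, X (Sum.inl (i, k)) * X (Sum.inr (k, j))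
      ∈ Set.range X ∪ Set.range C ∪ Set.range g)
    (p : ℕ) :
    (7 - 1 / ((p : ℝ) + 1)) * (m : ℝ) ^ 2 - 10 * m * Real.sqrt m
      - (4 * p + 2 * ((2 * p + 1).choose p : ℝ)) * m ≤ s :=
  Pool.Agent.P.MP_e72dc0_lc.total_main g hg hout p
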